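import Mathlib

/-! Commutator calculus modulo the next term of the lower central series. -/

namespace Pool.Agent.Lib.MP_e8899b_al

open Subgroup
open scoped commutatorElement

/-- `gam G n` is the `n`-th term of the lower central series of `G`, with `gam G 1 = G`. -/
def gam (G : Type*) [Group G] (n : ℕ) : Subgroup G := (⊤ : Subgroup G).lowerCentralSeries (n - 1)

section gam

variable {G : Type*} [Group G]

lemma gam_zero : gam G 0 = ⊤ := rfl
lemma gam_one : gam G 1 = ⊤ := rfl
lemma gam_succ_succ (n : ℕ) : gam G (n + 2) = ⁅gam G (n + 1), (⊤ : Subgroup G)⁆ := rfl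

instance gam_normal (n : ℕ) : (gam G n).Normal := by
  unfold gam; infer_instance

lemma gam_anti {m n : ℕ} (h : m ≤ n) : gam G n ≤ gam G m :=
  (⊤ : Subgroup G).lowerCentralSeries_antitone (Nat.sub_le_sub_right h 1)

lemma gam_succ_le (n : ℕ) : gam G (n + 1) ≤ gam G n := gam_anti (Nat.le_succ n)

lemma gam_map {H : Type*} [Group H] (φ : G →* H) (n : ℕ) {a : G} (ha : a ∈ gam G n) :
    φ a ∈ gam H n := by
  have h1 : (gam G n).map φ ≤ gam H n := by
    unfold gam
    rw [map_lowerCentralSeries]
    have : ∀ (k : ℕ) (S T : Subgroup H), S ≤ T → S.lowerCentralSeries k ≤ T.lowerCentralSeries k := by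
      intro k
      induction k with
      | zero => intro S T h; exact h
      | succ k ih => intro S T h; exact commutator_mono (ih S T h) h
    exact this _ _ _ le_top
  exact h1 (mem_map_of_mem φ ha)

lemma comm_mem_one {n : ℕ} (a : G) {z : G} (hz : z ∈ gam G n) : ⁅a, z⁆ ∈ gam G (n + 1) := by
  rcases n with _ | n
  · exact mem_top _
  · rw [gam_succ_succ, commutator_comm]
    exact commutator_mem_commutator (mem_top _) hz

lemma comm_mem_one' {n : ℕ} (a : G) {z : G} (hz : z ∈ gam G n) : ⁅z, a⁆ ∈ gam G (n + 1) := by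
  rw [← commutatorElement_inv]
  exact inv_mem (comm_mem_one a hz)

lemma comm_gam (m n : ℕ) : ⁅gam G m, gam G n⁆ ≤ gam G (m + n) := by
  induction m generalizing n with
  | zero =>
    rw [Nat.zero_add]
    exact commutator_le_right _ _
  | succ m ih =>
    rcases m with _ | m
    · rw [commutator_le]
      intro a _ b hb
      have := comm_mem_one a hb
      rwa [show 0 + 1 + n = n + 1 by omega]
    · rw [gam_succ_succ]
      -- three subgroups
      set K := gam G (m + 1 + 1 + n) with hK
      let q := QuotientGroup.mk' K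
      have key : ⁅⁅gam G (m + 1), (⊤ : Subgroup G)⁆, gam G n⁆.map q = ⊥ := by
        rw [map_commutator, map_commutator]
        apply commutator_commutator_eq_bot_of_rotate
        · rw [← map_commutator, ← map_commutator, eq_bot_iff, map_le_iff_le_comap]
          have h1 : ⁅⁅(⊤ : Subgroup G), gam G n⁆, gam G (m + 1)⁆ ≤ K := by
            rw [commutator_comm]
            refine le_trans (commutator_mono le_rfl ?_) (le_trans (ih (n + 1)) ?_)
            · rw [commutator_le]; intro a _ b hb; exact comm_mem_one a hb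
            · rw [hK, show m + 1 + (n + 1) = m + 1 + 1 + n by omega]
          intro x hx
          have := h1 hx
          simpa [q, mem_comap, QuotientGroup.eq_one_iff] using this
        · rw [← map_commutator, ← map_commutator, eq_bot_iff, map_le_iff_le_comap]
          have h1 : ⁅⁅gam G n, gam G (m + 1)⁆, (⊤ : Subgroup G)⁆ ≤ K := by
            rw [commutator_le]
            intro a ha b _
            have h2 : a ∈ gam G (m + 1 + n) := by
              rw [commutator_comm] at ha
              exact ih n ha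
            have := comm_mem_one' b h2
            rw [hK, show m + 1 + 1 + n = m + 1 + n + 1 by omega]
            exact this
          intro x hx
          have := h1 hx
          simpa [q, mem_comap, QuotientGroup.eq_one_iff] using this
      intro x hx
      have h3 : q x ∈ ⁅⁅gam G (m + 1), (⊤ : Subgroup G)⁆, gam G n⁆.map q := mem_map_of_mem q hx
      rw [key, mem_bot] at h3
      exact (QuotientGroup.eq_one_iff x).1 h3

lemma comm_mem {m n : ℕ} {a b : G} (ha : a ∈ gam G m) (hb : b ∈ gam G n) :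
    ⁅a, b⁆ ∈ gam G (m + n) := comm_gam m n (commutator_mem_commutator ha hb)

end gam

/-- `f` is additive on the `n`-th term of the lower central series and vanishes on the next term. -/
structure TopHom {G A : Type*} [Group G] [AddCommGroup A] (n : ℕ) (f : G → A) : Prop where
  add : ∀ a ∈ gam G n, ∀ b ∈ gam G n, f (a * b) = f a + f b
  van : ∀ a ∈ gam G (n + 1), f a = 0

namespace TopHom

variable {G A : Type*} [Group G] [AddCommGroup A] {n : ℕ} {f : G → A}

lemma one (hf : TopHom n f) : f 1 = 0 := hf.van 1 (one_mem _)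

lemma inv (hf : TopHom n f) {a : G} (ha : a ∈ gam G n) : f a⁻¹ = - f a := by
  have := hf.add a ha a⁻¹ (inv_mem ha)
  rw [mul_inv_cancel, hf.one] at this
  exact (neg_eq_of_add_eq_zero_right this.symm).symm

lemma conj (hf : TopHom n f) {a : G} (ha : a ∈ gam G n) (g : G) : f (g * a * g⁻¹) = f a := by
  have h1 : g * a * g⁻¹ = ⁅g, a⁆ * a := by simp [commutatorElement_def]
  rw [h1, hf.add _ (gam_succ_le n (comm_mem_one g ha)) _ ha, hf.van _ (comm_mem_one g ha), zero_add]

lemma zpow (hf : TopHom n f) {a : G} (ha : a ∈ gam G n) (k : ℤ) : f (a ^ k) = k • f a := by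
  have hn : ∀ k : ℕ, f (a ^ k) = k • f a := by
    intro k
    induction k with
    | zero => simp [hf.one]
    | succ k ih => rw [pow_succ, hf.add _ (pow_mem ha k) _ ha, ih, succ_nsmul]
  rcases k with k | k
  · simpa using hn k
  · rw [zpow_negSucc, hf.inv (pow_mem ha _), hn, negSucc_zsmul]

lemma congr {g : G → A} (hf : TopHom n f) (h : ∀ a, g a = f a) : TopHom n g := by
  have : g = f := funext h
  rw [this]; exact hf

lemma zero : TopHom n (fun _ : G => (0 : A)) := ⟨fun _ _ _ _ => by simp, fun _ _ => rfl⟩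

lemma addf {g : G → A} (hf : TopHom n f) (hg : TopHom n g) : TopHom n (fun a => f a + g a) :=
  ⟨fun a ha b hb => by rw [hf.add a ha b hb, hg.add a ha b hb]; abel,
   fun a ha => by rw [hf.van a ha, hg.van a ha, add_zero]⟩

lemma negf (hf : TopHom n f) : TopHom n (fun a => - f a) :=
  ⟨fun a ha b hb => by rw [hf.add a ha b hb]; abel, fun a ha => by rw [hf.van a ha, neg_zero]⟩

lemma comp {H : Type*} [Group H] {f : H → A} (hf : TopHom n f) (φ : G →* H) :
    TopHom n (fun a => f (φ a)) :=
  ⟨fun a ha b hb => by rw [map_mul, hf.add _ (gam_map φ n ha) _ (gam_map φ n hb)],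
   fun a ha => hf.van _ (gam_map φ _ ha)⟩

lemma map {B : Type*} [AddCommGroup B] (hf : TopHom n f) (φ : A →+ B) :
    TopHom n (fun a => φ (f a)) :=
  ⟨fun a ha b hb => by rw [hf.add _ ha _ hb, map_add], fun a ha => by rw [hf.van _ ha, map_zero]⟩

/-- bracketing on the left with a fixed element -/
lemma ad (hf : TopHom (n + 1) f) (a : G) : TopHom n (fun z => f ⁅a, z⁆) := by
  constructor
  · intro z hz z' hz'
    rw [commutatorElement_mul_right_eq_mul_conj,
      show ⁅a, z⁆ * z * ⁅a, z'⁆ * z⁻¹ = ⁅a, z⁆ * (z * ⁅a, z'⁆ * z⁻¹) by group]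
    rw [hf.add _ (comm_mem_one a hz) _ ((gam_normal _).conj_mem _ (comm_mem_one a hz') _),
      hf.conj (comm_mem_one a hz')]
  · intro z hz
    exact hf.van _ (comm_mem_one a hz)

/-- bracketing on the right with a fixed element of weight `n` -/
lemma adr (hf : TopHom (n + 1) f) {u : G} (hu : u ∈ gam G n) : TopHom 1 (fun a : G => f ⁅a, u⁆) := by
  constructor
  · intro a _ b _
    rw [commutatorElement_mul_left_eq_conj_mul,
      hf.add _ ((gam_normal _).conj_mem _ (comm_mem_one b hu) _) _ (comm_mem_one a hu),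
      hf.conj (comm_mem_one b hu), add_comm]
  · intro a ha
    have := comm_mem ha hu
    exact hf.van _ (by rwa [show n + 1 + 1 = 1 + 1 + n by omega])

lemma antisymm (hf : TopHom n f) {k m : ℕ} (hn : k + m = n) {a b : G} (ha : a ∈ gam G k)
    (hb : b ∈ gam G m) : f ⁅b, a⁆ = - f ⁅a, b⁆ := by
  have h := comm_mem ha hb
  rw [hn] at h
  rw [← commutatorElement_inv, hf.inv h]

/-- the Jacobi identity -/
lemma jacobi (hf : TopHom n f) {i j k : ℕ} (hn : i + j + k = n) {x y z : G} (hx : x ∈ gam G i)
    (hy : y ∈ gam G j) (hz : z ∈ gam G k) :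
    f ⁅⁅x, y⁆, z⁆ = f ⁅x, ⁅y, z⁆⁆ - f ⁅y, ⁅x, z⁆⁆ := by
  -- first, replace conjugates
  have aux : ∀ {p q r : ℕ} {u v w : G}, p + q + r = n → u ∈ gam G p → v ∈ gam G q →
      w ∈ gam G r → ⁅⁅u, v⁆, v * w * v⁻¹⁆ ∈ gam G n ∧ f ⁅⁅u, v⁆, v * w * v⁻¹⁆ = f ⁅⁅u, v⁆, w⁆ := by
    intro p q r u v w hpqr hu hv hw
    have huv : ⁅u, v⁆ ∈ gam G (p + q) := comm_mem hu hv
    have hc : v * w * v⁻¹ ∈ gam G r := (gam_normal _).conj_mem _ hw _
    have h1 : v * w * v⁻¹ = ⁅v, w⁆ * w := by simp [commutatorElement_def]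
    refine ⟨hpqr ▸ comm_mem huv hc, ?_⟩
    rw [h1, commutatorElement_mul_right_eq_mul_conj,
      show ⁅⁅u, v⁆, ⁅v, w⁆⁆ * ⁅v, w⁆ * ⁅⁅u, v⁆, w⁆ * ⁅v, w⁆⁻¹ =
        ⁅⁅u, v⁆, ⁅v, w⁆⁆ * (⁅v, w⁆ * ⁅⁅u, v⁆, w⁆ * ⁅v, w⁆⁻¹) by group]
    have hw2 : ⁅⁅u, v⁆, w⁆ ∈ gam G n := hpqr ▸ comm_mem huv hw
    have hw3 : ⁅⁅u, v⁆, ⁅v, w⁆⁆ ∈ gam G (n + 1) := by
      have h3 : ⁅v, w⁆ ∈ gam G (r + 1) := comm_mem_one v hw
      have := comm_mem huv h3
      rwa [show p + q + (r + 1) = n + 1 by omega] at this
    rw [hf.add _ (gam_succ_le n hw3) _ ((gam_normal _).conj_mem _ hw2 _), hf.van _ hw3,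
      hf.conj hw2, zero_add]
  have hw := commutatorElement_commutatorElement_conj_mul x y z
  obtain ⟨m1, e1⟩ := aux hn hx hy hz
  obtain ⟨m2, e2⟩ := aux (show j + k + i = n by omega) hy hz hx
  obtain ⟨m3, e3⟩ := aux (show k + i + j = n by omega) hz hx hy
  have h := congrArg f hw
  rw [hf.add _ (mul_mem m1 m2) _ m3, hf.add _ m1 _ m2, hf.one, e1, e2, e3] at h
  have hyz : ⁅y, z⁆ ∈ gam G (j + k) := comm_mem hy hz
  have hzx : ⁅z, x⁆ ∈ gam G (k + i) := comm_mem hz hx
  have e4 : f ⁅⁅y, z⁆, x⁆ = - f ⁅x, ⁅y, z⁆⁆ :=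
    hf.antisymm (show i + (j + k) = n by omega) hx hyz
  have e5 : f ⁅⁅z, x⁆, y⁆ = f ⁅y, ⁅x, z⁆⁆ := by
    have hxz : ⁅x, z⁆ ∈ gam G (i + k) := comm_mem hx hz
    have h1 : f ⁅⁅z, x⁆, y⁆ = - f ⁅y, ⁅z, x⁆⁆ :=
      hf.antisymm (show j + (k + i) = n by omega) hy hzx
    -- ⁅y, ⁅z,x⁆⁆ = ⁅y, ⁅x,z⁆⁻¹⁆
    have h2 : f ⁅y, ⁅z, x⁆⁆ = - f ⁅y, ⁅x, z⁆⁆ := by
      have h3 : ⁅y, ⁅z, x⁆⁆ * (⁅z, x⁆ * ⁅y, ⁅x, z⁆⁆ * ⁅z, x⁆⁻¹) = 1 := by
        have := commutatorElement_mul_right_eq_mul_conj y ⁅z, x⁆ ⁅x, z⁆
        rw [show ⁅z, x⁆ * ⁅x, z⁆ = 1 by rw [← commutatorElement_inv x z, inv_mul_cancel],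
          commutatorElement_one_right] at this
        rw [this]; group
      have m4 : ⁅y, ⁅z, x⁆⁆ ∈ gam G n := by
        have := comm_mem hy hzx
        rwa [show j + (k + i) = n by omega] at this
      have m5 : ⁅y, ⁅x, z⁆⁆ ∈ gam G n := by
        have := comm_mem hy hxz
        rwa [show j + (i + k) = n by omega] at this
      have h4 := congrArg f h3
      rw [hf.add _ m4 _ ((gam_normal _).conj_mem _ m5 _), hf.conj m5, hf.one] at h4
      exact eq_neg_of_add_eq_zero_left h4
    rw [h1, h2, neg_neg]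
  rw [e4, e5] at h
  have : f ⁅⁅x, y⁆, z⁆ = - (- f ⁅x, ⁅y, z⁆⁆ + f ⁅y, ⁅x, z⁆⁆) := by
    rw [add_assoc] at h
    exact eq_neg_of_add_eq_zero_left h
  rw [this]; abel

end TopHom

/-- right-normed commutator of a list -/
def cc {G : Type*} [Group G] : List G → G
  | [] => 1
  | [a] => a
  | a :: b :: l => ⁅a, cc (b :: l)⁆

/-- expansion of the right-normed bracket of a list into a signed sum over words -/
def ex {α A : Type*} [AddCommGroup A] : List α → (List α → A) → A
  | [], _ => 0
  | [a], Φ => Φ [a]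
  | a :: b :: l, Φ => ex (b :: l) (fun w => Φ (a :: w)) - ex (b :: l) (fun w => Φ (w ++ [a]))

section cc

variable {G : Type*} [Group G]

@[simp] lemma cc_nil : cc ([] : List G) = 1 := rfl
@[simp] lemma cc_singleton (a : G) : cc [a] = a := rfl
lemma cc_cons_cons (a b : G) (l : List G) : cc (a :: b :: l) = ⁅a, cc (b :: l)⁆ := rfl
lemma cc_cons (a : G) {l : List G} (hl : l ≠ []) : cc (a :: l) = ⁅a, cc l⁆ := by
  obtain ⟨b, l', rfl⟩ := List.exists_cons_of_ne_nil hl
  rfl

lemma cc_mem (l : List G) : cc l ∈ gam G l.length := by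
  induction l with
  | nil => exact mem_top _
  | cons a l ih =>
    rcases l with _ | ⟨b, l⟩
    · exact mem_top _
    · rw [cc_cons_cons]; exact comm_mem_one a ih

lemma cc_map {H : Type*} [Group H] (φ : G →* H) (l : List G) : φ (cc l) = cc (l.map φ) := by
  induction l with
  | nil => simp
  | cons a l ih =>
    rcases l with _ | ⟨b, l⟩
    · simp
    · rw [cc_cons_cons, map_commutatorElement, ih]; rfl

lemma cc_eq_one_of_mem {l : List G} (h : (1 : G) ∈ l) : cc l = 1 := by
  induction l with
  | nil => rfl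
  | cons a l ih =>
    rcases l with _ | ⟨b, l⟩
    · simp at h; simp [h.symm]
    · rw [cc_cons_cons]
      rcases List.mem_cons.1 h with h | h
      · rw [← h, commutatorElement_one_left]
      · rw [ih h, commutatorElement_one_right]

end cc

section ex

variable {α β A B : Type*} [AddCommGroup A] [AddCommGroup B]

@[simp] lemma ex_nil (Φ : List α → A) : ex [] Φ = 0 := rfl
@[simp] lemma ex_singleton (a : α) (Φ : List α → A) : ex [a] Φ = Φ [a] := rfl
lemma ex_cons_cons (a b : α) (l : List α) (Φ : List α → A) :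
    ex (a :: b :: l) Φ = ex (b :: l) (fun w => Φ (a :: w)) - ex (b :: l) (fun w => Φ (w ++ [a])) :=
  rfl
lemma ex_cons (a : α) {l : List α} (hl : l ≠ []) (Φ : List α → A) :
    ex (a :: l) Φ = ex l (fun w => Φ (a :: w)) - ex l (fun w => Φ (w ++ [a])) := by
  obtain ⟨b, l', rfl⟩ := List.exists_cons_of_ne_nil hl
  rfl

lemma ex_congr (l : List α) (Φ Ψ : List α → A) (h : ∀ w, w.Perm l → Φ w = Ψ w) :
    ex l Φ = ex l Ψ := by
  induction l generalizing Φ Ψ with
  | nil => rfl
  | cons a l ih =>
    rcases l with _ | ⟨b, l⟩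
    · exact h _ (List.Perm.refl _)
    · rw [ex_cons_cons, ex_cons_cons]
      congr 1
      · exact ih _ _ (fun w hw => h _ (hw.cons a))
      · refine ih _ _ (fun w hw => h _ ?_)
        exact (List.perm_append_comm (l₁ := w) (l₂ := [a])).trans (hw.cons a)

lemma ex_map (g : α → β) (l : List α) (Φ : List β → A) :
    ex (l.map g) Φ = ex l (fun w => Φ (w.map g)) := by
  induction l generalizing Φ with
  | nil => rfl
  | cons a l ih =>
    rcases l with _ | ⟨b, l⟩
    · rfl
    · have := ih (fun w => Φ (g a :: w))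
      have h2 := ih (fun w => Φ (w ++ [g a]))
      simp only [List.map_cons] at this h2 ⊢
      rw [ex_cons_cons, this, h2, ex_cons_cons]
      simp

lemma ex_comp (l : List α) (φ : A →+ B) (Φ : List α → A) :
    φ (ex l Φ) = ex l (fun w => φ (Φ w)) := by
  induction l generalizing Φ with
  | nil => simp
  | cons a l ih =>
    rcases l with _ | ⟨b, l⟩
    · rfl
    · rw [ex_cons_cons, map_sub, ih, ih]; rfl

lemma ex_add (l : List α) (Φ Ψ : List α → A) :
    ex l (fun w => Φ w + Ψ w) = ex l Φ + ex l Ψ := by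
  induction l generalizing Φ Ψ with
  | nil => simp
  | cons a l ih =>
    rcases l with _ | ⟨b, l⟩
    · rfl
    · rw [ex_cons_cons, ex_cons_cons, ex_cons_cons, ih, ih]; abel

lemma ex_zero (l : List α) : ex l (fun _ => (0 : A)) = 0 := by
  induction l with
  | nil => rfl
  | cons a l ih =>
    rcases l with _ | ⟨b, l⟩
    · rfl
    · rw [ex_cons_cons, ih, sub_zero]

lemma ex_sum {ι : Type*} (s : Finset ι) (l : List α) (Φ : ι → List α → A) :
    ex l (fun w => ∑ i ∈ s, Φ i w) = ∑ i ∈ s, ex l (Φ i) := by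
  classical
  induction s using Finset.induction_on with
  | empty => simp [ex_zero]
  | insert i s hi ih =>
    simp only [Finset.sum_insert hi]
    rw [ex_add, ih]

end ex

section main

variable {G A : Type*} [Group G] [AddCommGroup A] {n : ℕ} {f : G → A}

/-- fold of left brackets -/
def rn (o : List G) (z : G) : G := o.foldr (fun a z => ⁅a, z⁆) z

lemma rn_nil (z : G) : rn [] z = z := rfl
lemma rn_cons (a : G) (o : List G) (z : G) : rn (a :: o) z = ⁅a, rn o z⁆ := rfl
lemma rn_append (o o' : List G) (z : G) : rn (o ++ o') z = rn o (rn o' z) := by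
  simp [rn, List.foldr_append]

lemma cc_append_singleton (w : List G) (i : G) : cc (w ++ [i]) = rn w i := by
  induction w with
  | nil => rfl
  | cons a w ih =>
    rw [List.cons_append, cc_cons a (by simp), ih, rn_cons]

lemma cc_append (o : List G) {l : List G} (hl : l ≠ []) : cc (o ++ l) = rn o (cc l) := by
  induction o with
  | nil => rfl
  | cons a o ih => rw [List.cons_append, cc_cons a (by simp [hl]), ih, rn_cons]

lemma TopHom.rn {o : List G} {k : ℕ} (hf : TopHom (o.length + k) f) :
    TopHom k (fun z => f (rn o z)) := by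
  induction o generalizing f with
  | nil => simpa [rn_nil] using hf
  | cons a o ih =>
    have h1 : TopHom (o.length + k + 1) f := by
      rwa [show (a :: o).length + k = o.length + k + 1 by simp; omega] at hf
    have := ih (h1.ad a)
    exact this

/-- bracketing with a right-normed commutator is the signed sum of iterated brackets -/
lemma TopHom.ex_bracket (l : List G) (hl : l ≠ []) (o : List G) (k : ℕ) {z : G}
    (hf : TopHom (o.length + l.length + k) f) (hz : z ∈ gam G k) :
    f (Pool.Agent.Lib.MP_e8899b_al.rn o ⁅cc l, z⁆) =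
      ex l (fun w => f (Pool.Agent.Lib.MP_e8899b_al.rn (o ++ w) z)) := by
  induction l generalizing o k z with
  | nil => exact absurd rfl hl
  | cons a l ih =>
    rcases l with _ | ⟨b, l⟩
    · simp [rn_append, rn_cons, rn_nil]
    · rw [cc_cons_cons, ex_cons_cons]
      have hu : cc (b :: l) ∈ gam G (b :: l).length := cc_mem _
      have hf1 : TopHom ((b :: l).length + 1 + k) (fun z => f (Pool.Agent.Lib.MP_e8899b_al.rn o z)) := by
        apply TopHom.rn
        rwa [show o.length + ((b :: l).length + 1 + k) = o.length + (a :: b :: l).length + k by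
          simp; omega]
      have ha : a ∈ gam G 1 := mem_top _
      have hj := hf1.jacobi (i := 1) (j := (b :: l).length) (k := k) (by simp; omega) ha hu hz
      rw [hj]
      congr 1
      · have := ih (by simp) (o ++ [a]) k (z := z) (by
          rwa [show (o ++ [a]).length + (b :: l).length + k = o.length + (a :: b :: l).length + k by
            simp; omega]) hz
        rw [rn_append, rn_cons, rn_nil] at this
        rw [this]
        simp
      · have := ih (by simp) o (k + 1) (z := ⁅a, z⁆) (by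
          rwa [show o.length + (b :: l).length + (k + 1) = o.length + (a :: b :: l).length + k by
            simp; omega]) (comm_mem_one a hz)
        rw [this]
        congr 1
        funext w
        rw [← List.append_assoc, rn_append (o ++ w) [a], rn_cons, rn_nil]

/-- moving the letter in front of `l` to the very end -/
lemma TopHom.cc_move (p : List G) (i : G) (l : List G) (hl : l ≠ [])
    (hf : TopHom (p.length + 1 + l.length) f) :
    f (cc (p ++ i :: l)) = - ex l (fun w => f (cc (p ++ w ++ [i]))) := by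
  have h1 := TopHom.ex_bracket (f := f) l hl p 1 (z := i) (by
    rwa [show p.length + l.length + 1 = p.length + 1 + l.length by omega]) (mem_top _)
  rw [cc_append p (by simp), cc_cons i hl]
  have hf1 : TopHom (1 + l.length) (fun z => f (Pool.Agent.Lib.MP_e8899b_al.rn p z)) := by
    apply TopHom.rn
    rwa [show p.length + (1 + l.length) = p.length + 1 + l.length by omega]
  have h2 := hf1.antisymm (k := l.length) (m := 1) (a := cc l) (b := i) (by omega) (cc_mem l)
    (mem_top _)
  rw [h2, h1]
  congr 2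
  funext w
  rw [cc_append_singleton]

/-- additivity in each slot -/
lemma TopHom.cc_mul (L₁ L₂ : List G) (g h : G) (hf : TopHom (L₁.length + 1 + L₂.length) f) :
    f (cc (L₁ ++ (g * h) :: L₂)) = f (cc (L₁ ++ g :: L₂)) + f (cc (L₁ ++ h :: L₂)) := by
  rw [cc_append L₁ (by simp), cc_append L₁ (by simp), cc_append L₁ (by simp)]
  have hf1 : TopHom (L₂.length + 1) (fun z => f (Pool.Agent.Lib.MP_e8899b_al.rn L₁ z)) := by
    apply TopHom.rn
    rwa [show L₁.length + (L₂.length + 1) = L₁.length + 1 + L₂.length by omega]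
  by_cases h2 : L₂ = []
  · subst h2
    simp only [cc_singleton]
    exact hf1.add g (mem_top _) h (mem_top _)
  · rw [cc_cons _ h2, cc_cons _ h2, cc_cons _ h2]
    have := (hf1.adr (cc_mem L₂)).add g (mem_top _) h (mem_top _)
    exact this

end main

end Pool.Agent.Lib.MP_e8899b_al
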