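import Pool.Agent.Lib.MP_e8899b_al.Comb

/-! Certificates showing that the total weights vanish. -/

namespace Pool.Agent.Lib.MP_e8899b_al

/-- position of `j` in `{0,…,6} ∖ {i}` -/
def pos (i j : ℕ) : ℕ := cond (Nat.blt j i) j (Nat.pred j)

/-- the `k`-th element of `{0,…,6} ∖ {i}` -/
def qq (i k : ℕ) : ℕ := cond (Nat.blt k i) k (Nat.succ k)

/-- coefficients of the word `z` with respect to the unknowns -/
def FN (z : List ℕ) (i k : ℕ) : ℕ :=
  match z with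
  | [] => 0
  | z0 :: l => cond (Nat.beq z0 i)
      (let s := l.map (pos z0)
       Nat.mul (sgN s) (cond (Nat.blt k 6) (pvN k s) (tvN (Nat.sub k 6) s))) 0

/-- the relation coming from the bracket of two brackets -/
def RJN (z : List ℕ) (i k : ℕ) : ℕ :=
  match z with
  | x1 :: x2 :: l => Nat.add (FN (x1 :: x2 :: l) i k) (Nat.add (Nat.mul 2 (FN (x2 :: x1 :: l) i k))
      (exN l (fun w => FN (w ++ [x1, x2]) i k)))
  | _ => 0

/-- coefficient of the weight relation -/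
def relN (k : ℕ) : ℕ := cond (Nat.blt k 6) 1 2

/-- left-hand side of a certificate -/
def lhsN (cs : List (List ℕ × ℕ)) (d : ℕ → ℕ) (i k : ℕ) : ℕ :=
  cs.foldr (fun p acc => Nat.add (Nat.mul p.2 (RJN p.1 i k)) acc) (Nat.mul (d i) (relN k))

/-- boolean check of a certificate -/
def certOK (cs : List (List ℕ × ℕ)) (d : ℕ → ℕ) (t : ℕ → ℕ → ℕ) : Bool :=
  [0, 1, 2, 3, 4, 5, 6].all (fun i => [0, 1, 2, 3, 4, 5, 6, 7, 8, 9, 10, 11].all (fun k =>
    Nat.beq (Nat.mod (lhsN cs d i k) 3) (Nat.mod (t i k) 3)))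

/-- target: the alternating sum of all weights -/
def tgtS (i k : ℕ) : ℕ := cond (Nat.blt k 6) (cond (Nat.beq (Nat.mod i 2) 0) 1 2) 0

/-- target: `τ_0 - (-1)^j τ_j` -/
def tgtD (j i k : ℕ) : ℕ :=
  cond (Nat.blt k 6) (cond (Nat.beq i 0) 1
    (cond (Nat.beq i j) (cond (Nat.beq (Nat.mod j 2) 0) 2 1) 0)) 0

def csS : List (List ℕ × ℕ) :=
  [([0,1,2,3,4,5,6],2), ([0,3,4,6,2,1,5],2), ([1,6,4,0,2,3,5],1), ([0,5,4,1,2,3,6],1),
   ([0,6,2,5,4,1,3],1)]

/-- transposition of `1` and `j` -/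
def tr1 (j a : ℕ) : ℕ := cond (Nat.beq a 1) j (cond (Nat.beq a j) 1 a)

def csD (j : ℕ) : List (List ℕ × ℕ) :=
  let c := cond (Nat.beq j 1) 1 2
  let c' := cond (Nat.beq j 1) 2 1
  [([0,1,2,3,4,5,6].map (tr1 j), c), ([0,1,3,4,2,5,6].map (tr1 j), c'),
   ([0,5,1,6,3,2,4].map (tr1 j), c), ([0,2,1,4,3,5,6].map (tr1 j), c),
   ([0,4,1,3,2,5,6].map (tr1 j), c'), ([0,6,1,5,3,2,4].map (tr1 j), c')]

def relD (j i : ℕ) : ℕ :=
  cond (Nat.beq i 0) 1 (cond (Nat.beq i j) (cond (Nat.beq (Nat.mod j 2) 0) 2 1) 0)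

lemma certS_ok : certOK csS (fun _ => 0) tgtS = true := by decide +kernel

lemma certD_ok : [1, 2, 3, 4, 5, 6].all (fun j => certOK (csD j) (relD j) (tgtD j)) = true := by
  decide +kernel

end Pool.Agent.Lib.MP_e8899b_al
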