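import Pool.Agent.Lib.MP_e8899b_al.Basic

/-! Finite combinatorial data (numbers are to be read modulo 3) and kernel checks. -/

namespace Pool.Agent.Lib.MP_e8899b_al

/-- number of entries smaller than `a` -/
def cntN (a : ℕ) : List ℕ → ℕ
  | [] => 0
  | b :: l => Nat.add (cond (Nat.blt b a) 1 0) (cntN a l)

/-- number of inversions -/
def invN : List ℕ → ℕ
  | [] => 0
  | a :: l => Nat.add (cntN a l) (invN l)

/-- sign modulo 3 (`1` or `2`) -/
def sgN (l : List ℕ) : ℕ := cond (Nat.beq (Nat.mod (invN l) 2) 0) 1 2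

/-- the one-factorisation of the complete graph on `0,…,5` attached to the projective line -/
def chi (a b : ℕ) : ℕ :=
  cond (Nat.beq a 5) (Nat.mod (Nat.mul 2 b) 5)
    (cond (Nat.beq b 5) (Nat.mod (Nat.mul 2 a) 5) (Nat.mod (Nat.add a b) 5))

/-- indicator -/
def bN (b : Bool) : ℕ := cond b 1 0

/-- permutations giving the six totals -/
def gT (T a : ℕ) : ℕ :=
  (([[0, 1, 2, 3, 4, 5], [0, 1, 2, 3, 5, 4], [0, 1, 2, 4, 3, 5], [0, 1, 2, 4, 5, 3],
   [0, 1, 2, 5, 3, 4], [0, 1, 2, 5, 4, 3]] : List (List ℕ)).getD T []).getD a 0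

/-- contribution of the basic total to the word `a b c d …` -/
def tq0 (a b c d : ℕ) : ℕ :=
  Nat.add (bN (Nat.beq (chi a d) (chi b c))) (Nat.mul 2 (bN (Nat.beq (chi a c) (chi b d))))

/-- contribution of the total `T` to the word `a b c d …` -/
def tq (T a b c d : ℕ) : ℕ := tq0 (gT T a) (gT T b) (gT T c) (gT T d)

/-- contribution of the total `T` -/
def tvN (T : ℕ) : List ℕ → ℕ
  | [a, b, c, d, _, _] => tq T a b c d
  | _ => 0

/-- contribution of the point `k` -/
def pvN (k : ℕ) : List ℕ → ℕ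
  | [_, _, _, d, e, f] => Nat.add (bN (Nat.beq d k)) (Nat.add (bN (Nat.beq e k)) (bN (Nat.beq f k)))
  | _ => 0

/-- the generating functional -/
def CfN : List ℕ → ℕ
  | [a, b, c, d, e, f] => Nat.mul (sgN [a, b, c, d, e, f])
      (Nat.add (Nat.add (bN (Nat.beq d 5)) (Nat.add (bN (Nat.beq e 5)) (bN (Nat.beq f 5))))
        (tq0 a b c d))
  | _ => 0

/-- the matrix expressing the sum-zero combinations of totals -/
def mm (T j : ℕ) : ℕ :=
  (([[1, 1, 2, 0, 2, 0], [2, 0, 1, 1, 2, 0], [2, 1, 0, 2, 1, 0], [0, 2, 2, 1, 1, 0],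
   [1, 2, 1, 2, 0, 0], [0, 0, 0, 0, 0, 0]] : List (List ℕ)).getD T []).getD j 0

/-- the action of adjacent transpositions on totals -/
def beta (k T : ℕ) : ℕ :=
  (([[5, 4, 3, 2, 1, 0], [1, 0, 4, 5, 2, 3], [4, 5, 3, 2, 0, 1], [2, 4, 0, 5, 1, 3],
   [1, 0, 3, 2, 5, 4]] : List (List ℕ)).getD k []).getD T 0

/-- adjacent transposition -/
def swN (k a : ℕ) : ℕ := cond (Nat.beq a k) (Nat.succ k) (cond (Nat.beq a (Nat.succ k)) k a)

/-- natural number version of `ex` modulo 3 -/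
def exN {α : Type} : List α → (List α → ℕ) → ℕ
  | [], _ => 0
  | [a], Φ => Φ [a]
  | a :: b :: l, Φ => Nat.add (exN (b :: l) (fun w => Φ (a :: w)))
      (Nat.mul 2 (exN (b :: l) (fun w => Φ (w ++ [a]))))

lemma exN_cast {α : Type} (l : List α) (Φ : List α → ℕ) :
    ((exN l Φ : ℕ) : ZMod 3) = ex l (fun w => ((Φ w : ℕ) : ZMod 3)) := by
  induction l generalizing Φ with
  | nil => simp [exN]
  | cons a l ih =>
    rcases l with _ | ⟨b, l⟩
    · rfl
    · have h1 := ih (fun w => Φ (a :: w))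
      have h2 := ih (fun w => Φ (w ++ [a]))
      rw [ex_cons_cons, ← h1, ← h2]
      show (((exN (b :: l) (fun w => Φ (a :: w))) + 2 * (exN (b :: l) (fun w => Φ (w ++ [a]))) : ℕ) :
        ZMod 3) = _
      push_cast
      have h3 : (2 : ZMod 3) = -1 := by decide
      rw [h3]; ring

/-- the Lie relation for `CfN` -/
lemma LF_check : (List.permutations' [0, 1, 2, 3, 4]).all (fun l => [0, 1, 2, 3, 4].all (fun k =>
    Nat.beq (Nat.mod (Nat.add (CfN (l.take k ++ 5 :: l.drop k))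
      (exN (l.drop k) (fun w => CfN (l.take k ++ w ++ [5])))) 3) 0)) = true := by
  decide +kernel

/-- distinctness of four numbers -/
def dis (a b c d : ℕ) : Bool :=
  !(Nat.beq a b) && !(Nat.beq a c) && !(Nat.beq a d) && !(Nat.beq b c) && !(Nat.beq b d)
    && !(Nat.beq c d)

lemma T_check : [0, 1, 2, 3, 4].all (fun k => [0, 1, 2, 3, 4, 5].all (fun T =>
    [0, 1, 2, 3, 4, 5].all (fun a => [0, 1, 2, 3, 4, 5].all (fun b => [0, 1, 2, 3, 4, 5].all (fun c =>
    [0, 1, 2, 3, 4, 5].all (fun d => !(dis a b c d) ||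
      Nat.beq (tq T (swN k a) (swN k b) (swN k c) (swN k d)) (tq (beta k T) a b c d))))))) = true := by
  decide +kernel

/-- difference of two entries of a row of `mm` -/
def mdif (T : ℕ) : List ℕ → ℕ
  | [_, _, _, _, e, f] => Nat.add (mm T e) (Nat.mul 2 (mm T f))
  | _ => 0

lemma m_check : (List.permutations' [0, 1, 2, 3, 4, 5]).all (fun s =>
    let g := sgN s
    let r := Nat.mod (Nat.add (Nat.mul g (tvN 0 s)) (Nat.mul 2 (mdif 0 s))) 3
    [1, 2, 3, 4, 5].all (fun T =>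
    Nat.beq (Nat.mod (Nat.add (Nat.mul g (tvN T s)) (Nat.mul 2 (mdif T s))) 3) r)) = true := by
  decide +kernel

end Pool.Agent.Lib.MP_e8899b_al
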