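import Mathlib

/-! Varieties of groups. -/

namespace Pool.Agent.Lib.MP_e8899b_al

open scoped commutatorElement

/-- A variety of groups: a class of groups defined by a set of laws, a law being an element of the
free group on countably many letters; `w` is a law of `G` if it vanishes under every homomorphism
to `G`. -/
structure Variety where
  /-- membership in the class -/
  Mem : (G : Type) → [Group G] → Prop
  exists_laws : ∃ L : Set (FreeGroup ℕ), ∀ (G : Type) [Group G],
    Mem G ↔ ∀ w ∈ L, ∀ φ : FreeGroup ℕ →* G, φ w = 1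

namespace Variety

/-- The laws that hold in all groups of the variety. -/
def laws (V : Variety) : Set (FreeGroup ℕ) :=
  {w | ∀ (G : Type) [Group G], V.Mem G → ∀ φ : FreeGroup ℕ →* G, φ w = 1}

/-- The verbal subgroup `V(G)`, generated by the values in `G` of the laws of `V`. -/
def verbal (V : Variety) (G : Type) [Group G] : Subgroup G :=
  Subgroup.closure {g | ∃ w ∈ V.laws, ∃ φ : FreeGroup ℕ →* G, φ w = g}

theorem verbal_normal' (V : Variety) (G : Type) [Group G] : (V.verbal G).Normal := by
  constructor
  intro n hn g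
  have h : (V.verbal G).map (MulAut.conj g).toMonoidHom ≤ V.verbal G := by
    unfold verbal
    rw [MonoidHom.map_closure, Subgroup.closure_le]
    rintro x ⟨y, ⟨w, hw, φ, rfl⟩, rfl⟩
    exact Subgroup.subset_closure ⟨w, hw, (MulAut.conj g).toMonoidHom.comp φ, rfl⟩
  have := h (Subgroup.mem_map_of_mem _ hn)
  simpa using this

instance verbal_normal (V : Variety) (G : Type) [Group G] : (V.verbal G).Normal :=
  verbal_normal' V G

/-- The free group of rank `k` of the variety. -/
abbrev free (V : Variety) (k : ℕ) : Type := FreeGroup (Fin k) ⧸ V.verbal (FreeGroup (Fin k))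

/-- The variety defined by a set of laws. -/
def ofLaws (L : Set (FreeGroup ℕ)) : Variety where
  Mem G _ := ∀ w ∈ L, ∀ φ : FreeGroup ℕ →* G, φ w = 1
  exists_laws := ⟨L, fun _ _ => Iff.rfl⟩

theorem gen_exists_laws (G : Type) [Group G] : ∃ L : Set (FreeGroup ℕ),
    ∀ (H : Type) [Group H], (∀ V : Variety, V.Mem G → V.Mem H) ↔
      ∀ w ∈ L, ∀ φ : FreeGroup ℕ →* H, φ w = 1 := by
  refine ⟨{w | ∀ φ : FreeGroup ℕ →* G, φ w = 1}, fun H _ => ⟨fun h => ?_, fun h V hV => ?_⟩⟩
  · exact h (ofLaws {w | ∀ φ : FreeGroup ℕ →* G, φ w = 1}) (fun w hw φ => hw φ)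
  · obtain ⟨L, hL⟩ := V.exists_laws
    rw [hL] at hV ⊢
    exact fun w hw φ => h w (fun ψ => hV w hw ψ) φ

/-- The variety `var G` generated by a group `G`: a group belongs to it if it belongs to every
variety containing `G`. -/
def gen (G : Type) [Group G] : Variety where
  Mem H _ := ∀ V : Variety, V.Mem G → V.Mem H
  exists_laws := gen_exists_laws G

/-- The commutator variety `[U, V]`, defined by the laws in `[U(F), V(F)]`, where `F` is the
absolutely free group of countable rank. -/
def comm (U V : Variety) : Variety :=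
  ofLaws (⁅U.verbal (FreeGroup ℕ), V.verbal (FreeGroup ℕ)⁆ : Subgroup (FreeGroup ℕ))

theorem triv_exists_laws : ∃ L : Set (FreeGroup ℕ), ∀ (G : Type) [Group G],
    Subsingleton G ↔ ∀ w ∈ L, ∀ φ : FreeGroup ℕ →* G, φ w = 1 := by
  refine ⟨Set.univ, fun G _ => ⟨fun _ w _ φ => Subsingleton.elim _ _, fun h => ⟨fun a b => ?_⟩⟩⟩
  have h1 : ∀ a : G, a = 1 := by
    intro a
    have := h (FreeGroup.of 0) trivial (FreeGroup.lift (fun _ => a))
    simpa using this
  rw [h1 a, h1 b]

/-- The variety of trivial groups. -/
def triv : Variety where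
  Mem G _ := Subsingleton G
  exists_laws := triv_exists_laws

end Variety

end Pool.Agent.Lib.MP_e8899b_al
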