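import Pool.Agent.Lib.MP_e8899b_al.Deg7

/-! The sixth term: words with support of size six. -/

namespace Pool.Agent.Lib.MP_e8899b_al

open Equiv
open scoped commutatorElement

lemma five_adj (i : Fin 5) (z : Fin 6 → FF) (h : z i.castSucc = z i.succ) : Five z := by
  refine ⟨fun k => FreeGroup.of (i.predAbove k),
    FreeGroup.lift (fun m => z (i.succ.succAbove m)), fun k => ?_⟩
  rw [FreeGroup.lift_apply_of]
  by_cases hk : k = i.succ
  · subst hk
    have : ∀ i : Fin 5, i.succ.succAbove (i.predAbove i.succ) = i.castSucc := by decide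
    rw [this, h]
  · have : ∀ (i : Fin 5) (k : Fin 6), k ≠ i.succ → i.succ.succAbove (i.predAbove k) = k := by
      decide
    rw [this i k hk]

section

variable {f : FF → ℤ} (hf : TopHom 6 f) (c : Perm (Fin 6) → ℤ)

/-- multilinear combination in degree six -/
def Hz (f : FF → ℤ) (c : Perm (Fin 6) → ℤ) (z : Fin 6 → FF) : ℤ :=
  ∑ σ, c σ * f (cc (List.ofFn (fun k => z (σ k))))

include hf in
lemma Hz_mul (g : Fin 6 → FF) (k : Fin 6) (a b : FF) :
    Hz f c (Function.update g k (a * b)) =
      Hz f c (Function.update g k a) + Hz f c (Function.update g k b) := by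
  unfold Hz
  rw [← Finset.sum_add_distrib]
  refine Finset.sum_congr rfl (fun σ _ => ?_)
  have e : ∀ x, (fun m => Function.update g k x (σ m)) =
      Function.update (fun m => g (σ m)) (σ⁻¹ k) x := by
    intro x
    funext m
    by_cases h : m = σ⁻¹ k
    · subst h; simp
    · rw [Function.update_of_ne h, Function.update_of_ne]
      intro h2; apply h; rw [← h2]; simp
  rw [e, e, e, cc_update hf, mul_add]

include hf in
lemma Hz_adj (h5 : ∀ z, Five z → Hz f c z = 0) (i : Fin 5) (z : Fin 6 → FF) :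
    Hz f c (fun k => z ((swap i.castSucc i.succ : Perm (Fin 6)) k)) = - Hz f c z := by
  have hne : i.castSucc ≠ i.succ := by
    revert i; decide
  set Φ : FF → FF → ℤ := fun a b =>
    Hz f c (Function.update (Function.update z i.castSucc a) i.succ b) with hΦ
  have m1 : ∀ a b b', Φ a (b * b') = Φ a b + Φ a b' := fun a b b' => Hz_mul hf c _ _ _ _
  have m0 : ∀ a a' b, Φ (a * a') b = Φ a b + Φ a' b := by
    intro a a' b
    simp only [hΦ]
    rw [Function.update_comm hne, Function.update_comm hne, Function.update_comm hne]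
    exact Hz_mul hf c _ _ _ _
  have q0 : ∀ a, Φ a a = 0 := by
    intro a
    apply h5
    apply five_adj i
    rw [Function.update_of_ne hne, Function.update_self, Function.update_self]
  have q1 : Φ (z i.castSucc) (z i.succ) + Φ (z i.succ) (z i.castSucc) = 0 := by
    have := q0 (z i.castSucc * z i.succ)
    rw [m0, m1, m1, q0, q0] at this
    linear_combination this
  have e1 : Φ (z i.castSucc) (z i.succ) = Hz f c z := by
    simp only [hΦ]
    congr 1
    rw [Function.update_eq_self]
    exact Function.update_eq_self _ _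
  have e2 : Φ (z i.succ) (z i.castSucc) =
      Hz f c (fun k => z ((swap i.castSucc i.succ : Perm (Fin 6)) k)) := by
    simp only [hΦ]
    congr 1
    funext k
    by_cases h1 : k = i.succ
    · subst h1; simp
    · by_cases h2 : k = i.castSucc
      · subst h2; simp [Function.update_of_ne hne]
      · rw [Function.update_of_ne h1, Function.update_of_ne h2, swap_apply_of_ne_of_ne h2 h1]
  rw [← e2]
  linear_combination q1 - e1

include hf in
lemma Hz_perm (h5 : ∀ z, Five z → Hz f c z = 0) (τ : Perm (Fin 6)) :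
    ∀ z : Fin 6 → FF, Hz f c (fun k => z (τ k)) = (Perm.sign τ : ℤ) * Hz f c z := by
  have hg : τ ∈ Submonoid.closure (Set.range fun i : Fin 5 ↦ (swap i.castSucc i.succ : Perm (Fin 6))) := by
    rw [Equiv.Perm.mclosure_swap_castSucc_succ]; trivial
  induction hg using Submonoid.closure_induction with
  | mem x hx =>
    obtain ⟨i, rfl⟩ := hx
    intro z
    have hne : i.castSucc ≠ i.succ := by
      revert i; decide
    rw [Hz_adj hf c h5, Perm.sign_swap hne]
    simp
  | one => intro z; simp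
  | mul x y _ _ hx hy =>
    intro z
    have h1 := hy (fun k => z (x k))
    have h2 := hx z
    rw [h2] at h1
    have e : (fun k => z ((x * y : Perm (Fin 6)) k)) = fun k => z (x (y k)) := rfl
    rw [e, h1, Perm.sign_mul]
    push_cast
    ring

/-- the Jacobi identity on the last three entries -/
lemma jac3 {A : Type} [AddCommGroup A] {f : FF → A} (hf : TopHom 6 f) (a b c x y w : FF) :
    f (cc [a, b, c, x, y, w]) - f (cc [a, b, c, y, x, w]) + f (cc [a, b, c, w, x, y]) = 0 := by
  have hf1 : TopHom 3 (fun z => f (rn [a, b, c] z)) := TopHom.rn (o := [a, b, c]) hf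
  have h1 := hf1.jacobi (i := 1) (j := 1) (k := 1) (by norm_num) (x := x) (y := y) (z := w)
    (Subgroup.mem_top _) (Subgroup.mem_top _) (Subgroup.mem_top _)
  have hxy : ⁅x, y⁆ ∈ gam FF 2 := comm_mem_one x (n := 1) (Subgroup.mem_top _)
  have h2 := hf1.antisymm (k := 1) (m := 2) (by norm_num) (a := w) (Subgroup.mem_top _) hxy
  beta_reduce at h1 h2
  rw [h2] at h1
  have e1 : f (cc [a, b, c, x, y, w]) = f (rn [a, b, c] ⁅x, ⁅y, w⁆⁆) := rfl
  have e2 : f (cc [a, b, c, y, x, w]) = f (rn [a, b, c] ⁅y, ⁅x, w⁆⁆) := rfl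
  have e3 : f (cc [a, b, c, w, x, y]) = f (rn [a, b, c] ⁅w, ⁅x, y⁆⁆) := rfl
  rw [e1, e2, e3, ← h1]; abel

include hf in
lemma alt_zero (z : Fin 6 → FF) :
    3 * ∑ τ : Perm (Fin 6), (Perm.sign τ : ℤ) * f (cc (List.ofFn (fun k => z (τ k)))) = 0 := by
  set g : Perm (Fin 6) → ℤ := fun τ => f (cc (List.ofFn (fun k => z (τ k)))) with hg
  set ρ : Perm (Fin 6) := swap 3 4 * swap 3 5 with hρ
  have hj : ∀ τ, g τ - g (τ * swap 3 4) + g (τ * ρ) = 0 := by
    intro τ
    have h1 := jac3 hf (z (τ 0)) (z (τ 1)) (z (τ 2)) (z (τ 3)) (z (τ 4)) (z (τ 5))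
    have e0 : List.ofFn (fun k => z (τ k)) =
        [z (τ 0), z (τ 1), z (τ 2), z (τ 3), z (τ 4), z (τ 5)] := by
      simp [List.ofFn_succ]
    have e1 : List.ofFn (fun k => z ((τ * swap 3 4 : Perm (Fin 6)) k)) =
        [z (τ 0), z (τ 1), z (τ 2), z (τ 4), z (τ 3), z (τ 5)] := by
      have : ∀ k, (τ * swap 3 4 : Perm (Fin 6)) k = τ ((![0, 1, 2, 4, 3, 5] : Fin 6 → Fin 6) k) := by
        intro k
        rw [Perm.mul_apply]
        congr 1
        revert k; decide
      simp only [this]
      simp [List.ofFn_succ]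
    have e2 : List.ofFn (fun k => z ((τ * ρ) k)) =
        [z (τ 0), z (τ 1), z (τ 2), z (τ 5), z (τ 3), z (τ 4)] := by
      have : ∀ k, (τ * ρ) k = τ ((![0, 1, 2, 5, 3, 4] : Fin 6 → Fin 6) k) := by
        intro k
        rw [Perm.mul_apply]
        congr 1
        rw [hρ]
        revert k; decide
      simp only [this]
      simp [List.ofFn_succ]
    simp only [hg]
    rw [e0, e1, e2]
    exact h1
  have s1 : ∑ τ : Perm (Fin 6), (Perm.sign τ : ℤ) * g (τ * swap 3 4) =
      - ∑ τ : Perm (Fin 6), (Perm.sign τ : ℤ) * g τ := by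
    rw [← Equiv.sum_comp (Equiv.mulRight (swap (3 : Fin 6) 4)) (fun τ => (Perm.sign τ : ℤ) * g τ),
      ← Finset.sum_neg_distrib]
    refine Finset.sum_congr rfl (fun τ _ => ?_)
    rw [Equiv.coe_mulRight, Perm.sign_mul, Perm.sign_swap (by decide)]
    push_cast; ring
  have s2 : ∑ τ : Perm (Fin 6), (Perm.sign τ : ℤ) * g (τ * ρ) =
      ∑ τ : Perm (Fin 6), (Perm.sign τ : ℤ) * g τ := by
    rw [← Equiv.sum_comp (Equiv.mulRight ρ) (fun τ => (Perm.sign τ : ℤ) * g τ)]
    refine Finset.sum_congr rfl (fun τ _ => ?_)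
    rw [Equiv.coe_mulRight, Perm.sign_mul, hρ, Perm.sign_mul, Perm.sign_swap (by decide),
      Perm.sign_swap (by decide)]
    push_cast; ring
  have s3 : ∑ τ : Perm (Fin 6), (Perm.sign τ : ℤ) * (g τ - g (τ * swap 3 4) + g (τ * ρ)) = 0 :=
    Finset.sum_eq_zero (fun τ _ => by rw [hj τ, mul_zero])
  have s4 : ∑ τ : Perm (Fin 6), (Perm.sign τ : ℤ) * (g τ - g (τ * swap 3 4) + g (τ * ρ)) =
      ∑ τ : Perm (Fin 6), (Perm.sign τ : ℤ) * g τ -
      ∑ τ : Perm (Fin 6), (Perm.sign τ : ℤ) * g (τ * swap 3 4) +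
      ∑ τ : Perm (Fin 6), (Perm.sign τ : ℤ) * g (τ * ρ) := by
    rw [← Finset.sum_sub_distrib, ← Finset.sum_add_distrib]
    exact Finset.sum_congr rfl (fun τ _ => by ring)
  rw [s4, s1, s2] at s3
  linear_combination s3

include hf in
theorem Hz_zero (h5 : ∀ z, Five z → Hz f c z = 0) (z : Fin 6 → FF) : Hz f c z = 0 := by
  have h1 : ∑ τ : Perm (Fin 6), (Perm.sign τ : ℤ) * Hz f c (fun k => z (τ k)) = 720 * Hz f c z := by
    have : ∀ τ : Perm (Fin 6), (Perm.sign τ : ℤ) * Hz f c (fun k => z (τ k)) = Hz f c z := by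
      intro τ
      rw [Hz_perm hf c h5, ← mul_assoc]
      have : (Perm.sign τ : ℤ) * (Perm.sign τ : ℤ) = 1 := by
        rcases Int.units_eq_one_or (Perm.sign τ) with h | h <;> simp [h]
      rw [this, one_mul]
    rw [Finset.sum_congr rfl (fun τ _ => this τ), Finset.sum_const, Finset.card_univ,
      Fintype.card_perm, Fintype.card_fin]
    norm_num [Nat.factorial]
  have h2 : ∑ τ : Perm (Fin 6), (Perm.sign τ : ℤ) * Hz f c (fun k => z (τ k)) =
      (∑ σ : Perm (Fin 6), c σ * (Perm.sign σ : ℤ)) *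
        ∑ τ : Perm (Fin 6), (Perm.sign τ : ℤ) * f (cc (List.ofFn (fun k => z (τ k)))) := by
    rw [Finset.sum_mul]
    have e0 : ∑ τ : Perm (Fin 6), (Perm.sign τ : ℤ) * Hz f c (fun k => z (τ k)) =
        ∑ τ : Perm (Fin 6), ∑ σ : Perm (Fin 6),
          (Perm.sign τ : ℤ) * (c σ * f (cc (List.ofFn (fun k => z (τ (σ k)))))) := by
      refine Finset.sum_congr rfl (fun τ _ => ?_)
      unfold Hz
      rw [Finset.mul_sum]
    rw [e0, Finset.sum_comm]
    refine Finset.sum_congr rfl (fun σ _ => ?_)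
    rw [Finset.mul_sum, ← Equiv.sum_comp (Equiv.mulRight σ) (fun τ => c σ * (Perm.sign σ : ℤ) *
      ((Perm.sign τ : ℤ) * f (cc (List.ofFn (fun k => z (τ k))))))]
    refine Finset.sum_congr rfl (fun τ _ => ?_)
    rw [Equiv.coe_mulRight, Perm.sign_mul]
    have : (Perm.sign σ : ℤ) * (Perm.sign σ : ℤ) = 1 := by
      rcases Int.units_eq_one_or (Perm.sign σ) with h | h <;> simp [h]
    have e : (fun k => z ((τ * σ : Perm (Fin 6)) k)) = fun k => z (τ (σ k)) := rfl
    rw [e]
    push_cast
    linear_combination (-(c σ * (Perm.sign τ : ℤ) * f (cc (List.ofFn (fun k => z (τ (σ k))))))) * this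
  have h3 := alt_zero hf z
  have h4 : 2160 * Hz f c z = 0 := by
    rw [h2] at h1
    linear_combination (-3) * h1 + (∑ σ : Perm (Fin 6), c σ * (Perm.sign σ : ℤ)) * h3
  omega

end

/-- every right-normed commutator is a combination of those ending in the letter `5` -/
lemma basis_exp {A : Type} [AddCommGroup A] {f : FF → A} (hf : TopHom 6 f) (y : ℕ → FF)
    {u : List ℕ} (hu : u.Perm L6) :
    f (cc (u.map y)) = ∑ w : Perm (Fin 6), (if w 5 = 5 then
      mag (zx_inj w) ℤ 0 6 (cc (u.map FreeGroup.of)) • f (cc ((lw w).map y)) else 0) := by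
  have hlast : ∀ v : List ℕ, (v ++ [5]).Perm L6 → ∀ w : Perm (Fin 6), w 5 = 5 →
      mag (zx_inj w) ℤ 0 6 (cc ((v ++ [5]).map FreeGroup.of)) = if v ++ [5] = lw w then 1 else 0 := by
    intro v hv w hw
    have hlen : (v ++ [5]).length = 6 := by
      have := hv.length_eq
      simpa using this
    have h5 : (5 : ℕ) ∉ v := by
      have hnd : (v ++ [5]).Nodup := hv.nodup_iff.2 (by decide)
      intro h
      rw [List.nodup_append] at hnd
      exact hnd.2.2 5 h 5 (by simp) rfl
    rw [mag_word ℤ w _ hlen (by norm_num), ex_last 5 v h5]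
    intro u y hy
    rw [if_neg]
    intro hc
    rw [lw6_last, hw] at hc
    have h1 := congrArg List.getLast? hc
    rw [List.getLast?_append] at h1
    simp at h1
    exact hy h1
  -- the case of words ending in `5`
  have base : ∀ v : List ℕ, (v ++ [5]).Perm L6 → f (cc ((v ++ [5]).map y)) =
      ∑ w : Perm (Fin 6), (if w 5 = 5 then
        mag (zx_inj w) ℤ 0 6 (cc ((v ++ [5]).map FreeGroup.of)) • f (cc ((lw w).map y)) else 0) := by
    intro v hv
    obtain ⟨z0, hz0⟩ := exists_lw (n := 6) hv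
    have hz5 : z0 5 = 5 := by
      rw [lw6_last] at hz0
      have h1 := congrArg List.getLast? hz0
      rw [List.getLast?_append] at h1
      simp at h1
      exact Fin.ext h1
    rw [Finset.sum_eq_single z0]
    · rw [if_pos hz5, hlast v hv z0 hz5, if_pos hz0.symm, one_smul, hz0]
    · intro w _ hw
      by_cases h : w 5 = 5
      · rw [if_pos h, hlast v hv w h, if_neg, zero_smul]
        intro hc
        exact hw (lw_inj (hc.symm.trans hz0.symm))
      · rw [if_neg h]
    · intro h; exact absurd (Finset.mem_univ _) h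
  have h5 : 5 ∈ u := hu.mem_iff.2 (by decide)
  obtain ⟨p, l, rfl⟩ := List.append_of_mem h5
  by_cases hl : l = []
  · subst hl; exact base p hu
  · have hlen : p.length + 1 + l.length = 6 := by
      have := hu.length_eq
      simp at this; omega
    have mv : ∀ {B : Type} [AddCommGroup B] {h : FF → B} (_ : TopHom 6 h) (x : ℕ → FF),
        h (cc ((p ++ 5 :: l).map x)) = - ex l (fun v => h (cc ((p ++ v ++ [5]).map x))) := by
      intro B _ h hh x
      have h1 := TopHom.cc_move (f := h) (p.map x) (x 5) (l.map x) (by simpa using hl) (by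
        rw [List.length_map, List.length_map, hlen]; exact hh)
      rw [List.map_append, List.map_cons, h1, ex_map]
      simp only [List.map_append, List.map_cons, List.map_nil]
    have hperm : ∀ v : List ℕ, v.Perm l → (p ++ v ++ [5]).Perm L6 := by
      intro v hv
      have h4 : (p ++ v ++ [5]).Perm (p ++ 5 :: l) := by
        have : (p ++ v ++ [5]).Perm (p ++ l ++ [5]) := (hv.append_left p).append_right [5]
        refine this.trans ?_
        rw [List.append_assoc]
        exact List.Perm.append_left p (List.perm_append_comm)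
      exact h4.trans hu
    rw [mv hf y, ex_congr l _ _ (fun v hv => base (p ++ v) (hperm v hv)), ex_sum,
      ← Finset.sum_neg_distrib]
    refine Finset.sum_congr rfl (fun w _ => ?_)
    by_cases h : w 5 = 5
    · simp only [if_pos h]
      rw [mv (mag_topHom (zx_inj w) 0 (by norm_num))]
      have := ex_comp l ((AddMonoidHom.flip (AddMonoidHom.mk' (fun n : ℤ =>
        AddMonoidHom.mk' (fun a : A => n • a) (by intro a b; exact smul_add n a b))
          (by intro a b; ext x; exact add_smul a b x))) (f (cc ((lw w).map y))))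
        (fun v => mag (zx_inj w) ℤ 0 6 (cc ((p ++ v ++ [5]).map FreeGroup.of)))
      rw [neg_smul]
      exact congrArg Neg.neg this.symm
    · simp only [if_neg h]
      rw [ex_zero, neg_zero]

/-- The multilinear case in degree six. -/
theorem prop66 {c : Perm (Fin 6) → ℤ}
    (h5 : ∀ f : FF → ℤ, TopHom 6 f → ∀ z : Fin 6 → FF, Five z → Hz f c z = 0)
    {A : Type} [AddCommGroup A] {f : FF → A} (hf : TopHom 6 f) (y : ℕ → FF) :
    ∑ σ, c σ • f (cc ((lw σ).map y)) = 0 := by
  have h1 : ∀ σ : Perm (Fin 6), f (cc ((lw σ).map y)) = ∑ w : Perm (Fin 6), (if w 5 = 5 then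
      mag (zx_inj w) ℤ 0 6 (cc ((lw σ).map FreeGroup.of)) • f (cc ((lw w).map y)) else 0) :=
    fun σ => basis_exp hf y (lw_perm σ)
  rw [Finset.sum_congr rfl (fun σ _ => by rw [h1 σ])]
  simp only [Finset.smul_sum]
  rw [Finset.sum_comm]
  refine Finset.sum_eq_zero (fun w _ => ?_)
  by_cases hw : w 5 = 5
  · simp only [if_pos hw, smul_smul]
    rw [← Finset.sum_smul]
    have h2 : ∑ σ : Perm (Fin 6), c σ * mag (zx_inj w) ℤ 0 6 (cc ((lw σ).map FreeGroup.of)) = 0 := by
      have h3 := Hz_zero (mag_topHom (R := ℤ) (zx_inj w) 0 (m := 6) (by norm_num)) c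
        (h5 _ (mag_topHom (R := ℤ) (zx_inj w) 0 (m := 6) (by norm_num)))
        (fun k => FreeGroup.of (k : ℕ))
      rw [← h3]
      unfold Hz
      refine Finset.sum_congr rfl (fun σ _ => ?_)
      unfold lw
      rw [List.map_ofFn]
      rfl
    rw [h2, zero_smul]
  · simp only [if_neg hw, smul_zero, Finset.sum_const_zero]

end Pool.Agent.Lib.MP_e8899b_al
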