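import Pool.Agent.Lib.MP_e8899b_al.Supp

/-! The seventh term: words with support of size seven and six. -/

namespace Pool.Agent.Lib.MP_e8899b_al

open Equiv
open scoped commutatorElement

lemma p77L {T : Finset ℕ} (hT : T.card = 7) {L : List (ℤ × List ℕ)}
    (hL : ∀ p ∈ L, p.2.length = 7 ∧ p.2.toFinset = T) {f : FF → ZMod 3} (hf : TopHom 7 f)
    (hk : Kil f) (h5 : ∀ y, FiveOn T y → evw L (fun w => f (cc (w.map y))) = 0) (y : ℕ → FF) :
    evw L (fun w => f (cc (w.map y))) = 0 := by
  obtain ⟨c, t, ht, hTt, htT, hc⟩ := list_to_perm T hT L hL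
  have key : ∀ y : ℕ → FF, evw L (fun w => f (cc (w.map y))) =
      Hc (fun σ => (c σ : ZMod 3)) f (fun k => y (t k)) := by
    intro y
    rw [hc (ZMod 3) (fun w => f (cc (w.map y)))]
    unfold Hc
    refine Finset.sum_congr rfl (fun σ _ => ?_)
    rw [zsmul_eq_mul, List.map_ofFn]
    rfl
  rw [key]
  refine prop77 hf hk (fun z hz => ?_) _
  obtain ⟨φ, ψ, h⟩ := hz
  have h1 := h5 (Function.extend t z (fun _ => 1)) ⟨Function.extend t φ (fun _ => 1), ψ, fun i hi => by
    obtain ⟨k, rfl⟩ := hTt i hi
    rw [ht.extend_apply, ht.extend_apply, h]⟩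
  rw [key] at h1
  have h2 : (fun k => Function.extend t z (fun _ => (1 : FF)) (t k)) = z := by
    funext k; rw [ht.extend_apply]
  rw [h2] at h1
  exact h1

/-- expansion of a word with a repeated letter -/
lemma expand2 {f : FF → ZMod 3} {n : ℕ} (hf : TopHom n f) (y : ℕ → FF) (s r : ℕ) (a b c : List ℕ)
    (hn : (a ++ s :: (b ++ s :: c)).length = n) (hsa : s ∉ a) (hsb : s ∉ b) (hsc : s ∉ c) :
    f (cc ((a ++ s :: (b ++ s :: c)).map (Function.update y s (y s * y r)))) =
      f (cc ((a ++ s :: (b ++ s :: c)).map y)) +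
      f (cc ((a ++ s :: (b ++ s :: c)).map (Function.update y s (y r)))) +
      (f (cc ((a ++ r :: (b ++ s :: c)).map y)) + f (cc ((a ++ s :: (b ++ r :: c)).map y))) := by
  have u : ∀ (l : List ℕ) (x : FF), s ∉ l → l.map (Function.update y s x) = l.map y := by
    intro l x hs
    refine List.map_congr_left (fun i hi => ?_)
    rw [Function.update_of_ne]
    rintro rfl; exact hs hi
  have hlen : a.length + 1 + (b.length + 1 + c.length) = n := by
    rw [← hn]; simp; omega
  simp only [List.map_append, List.map_cons, Function.update_self, u a _ hsa, u b _ hsb, u c _ hsc]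
  have hf1 : ∀ x : FF, f (cc (a.map y ++ (y s * y r) :: (b.map y ++ x :: c.map y))) =
      f (cc (a.map y ++ y s :: (b.map y ++ x :: c.map y))) +
      f (cc (a.map y ++ y r :: (b.map y ++ x :: c.map y))) := by
    intro x
    apply TopHom.cc_mul
    simp only [List.length_map, List.length_append, List.length_cons]
    rwa [show a.length + 1 + (b.length + (c.length + 1)) = n by omega]
  have hf2 : ∀ x : FF, f (cc (a.map y ++ x :: (b.map y ++ (y s * y r) :: c.map y))) =
      f (cc (a.map y ++ x :: (b.map y ++ y s :: c.map y))) +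
      f (cc (a.map y ++ x :: (b.map y ++ y r :: c.map y))) := by
    intro x
    have e : ∀ z : FF, a.map y ++ x :: (b.map y ++ z :: c.map y) =
        (a.map y ++ x :: b.map y) ++ z :: c.map y := by intro z; simp
    rw [e, e, e]
    apply TopHom.cc_mul
    simp only [List.length_map, List.length_append, List.length_cons]
    rwa [show a.length + (b.length + 1) + 1 + c.length = n by omega]
  rw [hf1, hf2, hf2]
  ring

lemma expand1 {f : FF → ZMod 3} {n : ℕ} (hf : TopHom n f) (y : ℕ → FF) (s r : ℕ) (a c : List ℕ)
    (hn : (a ++ s :: c).length = n) (hsa : s ∉ a) (hsc : s ∉ c) :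
    f (cc ((a ++ s :: c).map (Function.update y s (y s * y r)))) =
      f (cc ((a ++ s :: c).map y)) +
      f (cc ((a ++ s :: c).map (Function.update y s (y r)))) := by
  have u : ∀ (l : List ℕ) (x : FF), s ∉ l → l.map (Function.update y s x) = l.map y := by
    intro l x hs
    refine List.map_congr_left (fun i hi => ?_)
    rw [Function.update_of_ne]
    rintro rfl; exact hs hi
  have hlen : a.length + 1 + c.length = n := by
    rw [← hn]; simp; omega
  simp only [List.map_append, List.map_cons, Function.update_self, u a _ hsa, u c _ hsc]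
  apply TopHom.cc_mul
  simp only [List.length_map]
  rwa [hlen]

/-- splitting a word at the occurrences of `s` -/
lemma split1 {s : ℕ} {w : List ℕ} (h : w.count s = 1) :
    ∃ a c, w = a ++ s :: c ∧ s ∉ a ∧ s ∉ c := by
  have hs : s ∈ w := by
    rw [← List.count_pos_iff]; omega
  obtain ⟨a, c, rfl, ha⟩ := List.eq_append_cons_of_mem hs
  refine ⟨a, c, rfl, ha, ?_⟩
  intro hc
  rw [List.count_append, List.count_cons_self] at h
  have := List.count_pos_iff.2 hc
  omega

lemma split2 {s : ℕ} {w : List ℕ} (h : w.count s = 2) :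
    ∃ a b c, w = a ++ s :: (b ++ s :: c) ∧ s ∉ a ∧ s ∉ b ∧ s ∉ c := by
  have hs : s ∈ w := by
    rw [← List.count_pos_iff]; omega
  obtain ⟨a, d, rfl, ha⟩ := List.eq_append_cons_of_mem hs
  have h1 : d.count s = 1 := by
    rw [List.count_append, List.count_cons_self, List.count_eq_zero.2 ha] at h
    omega
  obtain ⟨b, c, rfl, hb, hc⟩ := split1 h1
  exact ⟨a, b, c, rfl, ha, hb, hc⟩

/-- in a word of length seven with support of size six exactly one letter is repeated -/
lemma one_repeated {T : Finset ℕ} (hT : T.card = 6) {w : List ℕ} (hw : w.length = 7)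
    (hwT : w.toFinset = T) : ∃ s0 ∈ T, w.count s0 = 2 ∧ ∀ s ∈ T, s ≠ s0 → w.count s = 1 := by
  have hpos : ∀ s ∈ T, 1 ≤ w.count s := by
    intro s hs
    have : s ∈ w := by rw [← List.mem_toFinset, hwT]; exact hs
    exact List.count_pos_iff.2 this
  have hsum : ∑ s ∈ T, w.count s = 7 := by
    rw [← hwT, List.sum_toFinset_count_eq_length, hw]
  have hsum2 : ∑ s ∈ T, (w.count s - 1) = 1 := by
    have h1 : ∑ s ∈ T, (w.count s - 1) + ∑ s ∈ T, 1 = ∑ s ∈ T, w.count s := by
      rw [← Finset.sum_add_distrib]
      refine Finset.sum_congr rfl (fun s hs => ?_)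
      have := hpos s hs
      omega
    rw [hsum, Finset.sum_const, hT, smul_eq_mul, mul_one] at h1
    omega
  have hex : ∃ s0 ∈ T, w.count s0 - 1 ≠ 0 := by
    by_contra hc
    push Not at hc
    rw [Finset.sum_eq_zero hc] at hsum2
    exact absurd hsum2 (by norm_num)
  obtain ⟨s0, hs0, h0⟩ := hex
  have h1 := Finset.add_sum_erase T (fun s => w.count s - 1) hs0
  rw [hsum2] at h1
  refine ⟨s0, hs0, by omega, fun s hs hne => ?_⟩
  have h2 : ∑ s ∈ T.erase s0, (w.count s - 1) = 0 := by omega
  rw [Finset.sum_eq_zero_iff] at h2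
  have h3 := h2 s (Finset.mem_erase.2 ⟨hne, hs⟩)
  have := hpos s hs
  omega

lemma polar {T : Finset ℕ} (hT : T.card = 6) {r s : ℕ} (hr : r ∉ T) (hs : s ∈ T)
    {f : FF → ZMod 3} (hf : TopHom 7 f) (L : List (ℤ × List ℕ))
    (hL : ∀ p ∈ L, p.2.length = 7 ∧ p.2.toFinset = T) :
    ∃ L' : List (ℤ × List ℕ), (∀ p ∈ L', p.2.length = 7 ∧ p.2.toFinset = insert r T) ∧
      (∀ y : ℕ → FF, evw L (fun w => f (cc (w.map (Function.update y s (y s * y r))))) =
        evw L (fun w => f (cc (w.map y))) +
        evw L (fun w => f (cc (w.map (Function.update y s (y r))))) +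
        evw L' (fun w => f (cc (w.map y)))) ∧
      (∀ y : ℕ → FF, y r = y s → evw L' (fun w => f (cc (w.map y))) =
        2 * evw (L.filter (fun p => p.2.count s = 2)) (fun w => f (cc (w.map y)))) := by
  induction L with
  | nil => exact ⟨[], by simp, fun y => by simp [evw_nil], fun y _ => by simp [evw_nil]⟩
  | cons p L ih =>
    obtain ⟨L', h1, h2, h3⟩ := ih (fun q hq => hL q (List.mem_cons_of_mem _ hq))
    obtain ⟨hp1, hp2⟩ := hL p List.mem_cons_self
    obtain ⟨s0, hs0, hc2, hc1⟩ := one_repeated hT hp1 hp2
    by_cases hss : s = s0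
    · subst hss
      obtain ⟨a, b, c, hw, ha, hb, hc⟩ := split2 hc2
      have hrw : r ∉ p.2 := by
        rw [← List.mem_toFinset, hp2]; exact hr
      have hlen : (a ++ s :: (b ++ s :: c)).length = 7 := by rw [← hw]; exact hp1
      refine ⟨(p.1, a ++ r :: (b ++ s :: c)) :: (p.1, a ++ s :: (b ++ r :: c)) :: L', ?_, ?_, ?_⟩
      · intro q hq
        simp only [List.length_append, List.length_cons] at hlen
        rcases List.mem_cons.1 hq with rfl | hq
        · refine ⟨by simp; omega, ?_⟩
          rw [← hp2, hw]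
          ext x
          simp
        · rcases List.mem_cons.1 hq with rfl | hq
          · refine ⟨by simp; omega, ?_⟩
            rw [← hp2, hw]
            ext x
            simp
            tauto
          · exact h1 q hq
      · intro y
        rw [evw_cons, evw_cons, evw_cons, evw_cons, evw_cons, h2 y, hw,
          expand2 hf y s r a b c hlen ha hb hc]
        simp only [smul_add]
        abel
      · intro y hy
        rw [evw_cons, evw_cons, h3 y hy, List.filter_cons_of_pos (by simpa using hc2), evw_cons]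
        have e : ∀ z, z ∈ [a ++ r :: (b ++ s :: c), a ++ s :: (b ++ r :: c)] →
            z.map y = p.2.map y := by
          intro z hz
          rw [hw]
          simp only [List.mem_cons, List.not_mem_nil, or_false] at hz
          rcases hz with rfl | rfl <;> simp [hy]
        have e1 := e (a ++ r :: (b ++ s :: c)) (by simp)
        have e2 := e (a ++ s :: (b ++ r :: c)) (by simp)
        rw [e1, e2]
        simp only [zsmul_eq_mul]
        ring
    · have hc := hc1 s hs hss
      obtain ⟨a, c, hw, ha, hc'⟩ := split1 hc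
      have hlen : (a ++ s :: c).length = 7 := by rw [← hw]; exact hp1
      refine ⟨L', h1, ?_, ?_⟩
      · intro y
        rw [evw_cons, evw_cons, evw_cons, h2 y, hw, expand1 hf y s r a c hlen ha hc']
        simp only [smul_add]
        abel
      · intro y hy
        rw [h3 y hy, List.filter_cons_of_neg (by simp [hc])]

lemma evw_split {T : Finset ℕ} (hT : T.card = 6) (L : List (ℤ × List ℕ))
    (hL : ∀ p ∈ L, p.2.length = 7 ∧ p.2.toFinset = T) (Φ : List ℕ → ZMod 3) :
    evw L Φ = ∑ s ∈ T, evw (L.filter (fun p => p.2.count s = 2)) Φ := by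
  induction L with
  | nil => simp [evw_nil]
  | cons p L ih =>
    obtain ⟨hp1, hp2⟩ := hL p List.mem_cons_self
    obtain ⟨s0, hs0, hc2, hc1⟩ := one_repeated hT hp1 hp2
    rw [evw_cons, ih (fun q hq => hL q (List.mem_cons_of_mem _ hq))]
    have e : ∀ s ∈ T, evw ((p :: L).filter (fun p => p.2.count s = 2)) Φ =
        (if s = s0 then p.1 • Φ p.2 else 0) + evw (L.filter (fun p => p.2.count s = 2)) Φ := by
      intro s hs
      by_cases h : s = s0
      · subst h
        rw [List.filter_cons_of_pos (by simpa using hc2), evw_cons, if_pos rfl]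
      · rw [List.filter_cons_of_neg (by simp [hc1 s hs h]), if_neg h, zero_add]
    rw [Finset.sum_congr rfl e, Finset.sum_add_distrib, Finset.sum_ite_eq', if_pos hs0]

lemma p76L {T : Finset ℕ} (hT : T.card = 6) {L : List (ℤ × List ℕ)}
    (hL : ∀ p ∈ L, p.2.length = 7 ∧ p.2.toFinset = T) {f : FF → ZMod 3} (hf : TopHom 7 f)
    (hk : Kil f) (h5 : ∀ y, FiveOn T y → evw L (fun w => f (cc (w.map y))) = 0) (y : ℕ → FF) :
    evw L (fun w => f (cc (w.map y))) = 0 := by
  rw [evw_split hT L hL]
  refine Finset.sum_eq_zero (fun s hs => ?_)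
  obtain ⟨r, hr⟩ := Infinite.exists_notMem_finset T
  obtain ⟨L', h1, h2, h3⟩ := polar hT hr hs hf L hL
  have hT' : (insert r T).card = 7 := by rw [Finset.card_insert_of_notMem hr, hT]
  have hrs : r ≠ s := by rintro rfl; exact hr hs
  have h4 : ∀ y, FiveOn (insert r T) y → evw L' (fun w => f (cc (w.map y))) = 0 := by
    intro y hy
    have e1 : FiveOn T y := hy.mono (Finset.subset_insert r T)
    obtain ⟨φ, ψ, hφ⟩ := hy
    have hφs := hφ s (Finset.mem_insert_of_mem hs)
    have hφr := hφ r (Finset.mem_insert_self r T)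
    have e2 : FiveOn T (Function.update y s (y s * y r)) := by
      refine ⟨Function.update φ s (φ s * φ r), ψ, fun i hi => ?_⟩
      by_cases h : i = s
      · subst h; rw [Function.update_self, Function.update_self, map_mul, hφs, hφr]
      · rw [Function.update_of_ne h, Function.update_of_ne h]
        exact hφ i (Finset.mem_insert_of_mem hi)
    have e3 : FiveOn T (Function.update y s (y r)) := by
      refine ⟨Function.update φ s (φ r), ψ, fun i hi => ?_⟩
      by_cases h : i = s
      · subst h; rw [Function.update_self, Function.update_self, hφr]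
      · rw [Function.update_of_ne h, Function.update_of_ne h]
        exact hφ i (Finset.mem_insert_of_mem hi)
    have := h2 y
    rw [h5 _ e1, h5 _ e2, h5 _ e3] at this
    simpa using this.symm
  have h6 := p77L hT' h1 hf hk h4 (Function.update y r (y s))
  rw [h3 _ (by rw [Function.update_self, Function.update_of_ne (Ne.symm hrs)])] at h6
  have h7 : evw (L.filter (fun p => p.2.count s = 2)) (fun w => f (cc (w.map (Function.update y r (y s))))) =
      evw (L.filter (fun p => p.2.count s = 2)) (fun w => f (cc (w.map y))) := by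
    refine evw_congr _ _ _ (fun p hp => ?_)
    have hp' := (hL p (List.mem_of_mem_filter hp)).2
    congr 2
    refine List.map_congr_left (fun i hi => ?_)
    rw [Function.update_of_ne]
    rintro rfl
    apply hr
    rw [← hp']; exact List.mem_toFinset.2 hi
  rw [h7] at h6
  have h3 := three_zero
  linear_combination (-1) * h6 +
    (evw (L.filter (fun p => p.2.count s = 2)) (fun w => f (cc (w.map y)))) * h3

end Pool.Agent.Lib.MP_e8899b_al
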