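import Mathlib

/-! Linear algebra with pairs of 7 by 7 matrices over the field with three elements. -/

namespace Pool.Agent.Lib.MP_e8899b_al

open Equiv

/-- matrices -/
abbrev M7 := Fin 7 → Fin 7 → ZMod 3

/-- relabelling -/
def act (π : Perm (Fin 7)) : M7 →ₗ[ZMod 3] M7 where
  toFun U := fun i j => U (π i) (π j)
  map_add' _ _ := rfl
  map_smul' _ _ := rfl

/-- sign modulo three -/
def sg (π : Perm (Fin 7)) : ZMod 3 := ((Perm.sign π : ℤ) : ZMod 3)

/-- action on pairs -/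
def pa (π : Perm (Fin 7)) : (M7 × M7) →ₗ[ZMod 3] (M7 × M7) :=
  LinearMap.prodMap (sg π • act π) (act π)

lemma act_apply (π : Perm (Fin 7)) (U : M7) (i j : Fin 7) : act π U i j = U (π i) (π j) := rfl

lemma pa_fst (π : Perm (Fin 7)) (x : M7 × M7) : (pa π x).1 = sg π • act π x.1 := rfl
lemma pa_snd (π : Perm (Fin 7)) (x : M7 × M7) : (pa π x).2 = act π x.2 := rfl

lemma sg_mul (π τ : Perm (Fin 7)) : sg (π * τ) = sg π * sg τ := by
  simp [sg]

lemma sg_swap {a b : Fin 7} (h : a ≠ b) : sg (swap a b) = -1 := by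
  simp [sg, Perm.sign_swap h]

lemma sg_sq (π : Perm (Fin 7)) : sg π * sg π = 1 := by
  rw [← sg_mul]
  rcases Int.units_eq_one_or (Perm.sign π) with h | h <;> simp [sg, h]

lemma sg_ne (π : Perm (Fin 7)) : sg π ≠ 0 := by
  intro h
  have := sg_sq π
  rw [h] at this
  simp at this

lemma pa_mul (π τ : Perm (Fin 7)) (x : M7 × M7) : pa (τ * π) x = pa π (pa τ x) := by
  refine Prod.ext ?_ ?_
  · rw [pa_fst, pa_fst, pa_fst, sg_mul]
    funext i j
    simp only [Pi.smul_apply, act_apply, Perm.mul_apply, smul_eq_mul, map_smul]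
    ring
  · rfl

/-- a good pair of matrices -/
structure Good (x : M7 × M7) : Prop where
  anti : ∀ i j, x.1 i j = - x.1 j i
  diag : ∀ i, x.1 i i = 0
  row : ∀ i, ∑ j, x.1 i j = 0
  symm : ∀ i j, x.2 i j = x.2 j i
  diag' : ∀ i, x.2 i i = 0
  row' : ∀ i, ∑ j, x.2 i j = 0

/-- the operator attached to the transpositions `(a b)` and `(c d)` -/
def EE (a b c d : Fin 7) (x : M7 × M7) : M7 × M7 :=
  x + pa (swap a b) x + pa (swap c d) x + pa (swap a b) (pa (swap c d) x)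

/-- the basic antisymmetric matrix -/
def X0 : M7 := fun i j =>
  ((if i = 0 then 1 else 0) - (if i = 1 then 1 else 0)) *
    ((if j = 2 then 1 else 0) - (if j = 3 then 1 else 0)) -
  ((if i = 2 then 1 else 0) - (if i = 3 then 1 else 0)) *
    ((if j = 0 then 1 else 0) - (if j = 1 then 1 else 0))

lemma EE_fst {a b c d : Fin 7} (hab : a ≠ b) (hcd : c ≠ d) (x : M7 × M7) (i j : Fin 7) :
    (EE a b c d x).1 i j = x.1 i j - x.1 (swap a b i) (swap a b j) - x.1 (swap c d i) (swap c d j) +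
      x.1 (swap c d (swap a b i)) (swap c d (swap a b j)) := by
  unfold EE
  simp only [Prod.fst_add, pa_fst, sg_swap hab, sg_swap hcd, Pi.add_apply, Pi.smul_apply, act_apply,
    smul_eq_mul]
  ring

lemma EE_snd (a b c d : Fin 7) (x : M7 × M7) (i j : Fin 7) :
    (EE a b c d x).2 i j = x.2 i j + x.2 (swap a b i) (swap a b j) + x.2 (swap c d i) (swap c d j) +
      x.2 (swap c d (swap a b i)) (swap c d (swap a b j)) := rfl

lemma EE0_fst (x : M7 × M7) (ha : ∀ i j, x.1 i j = - x.1 j i) (hd : ∀ i, x.1 i i = 0) :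
    (EE 0 1 2 3 x).1 = (x.1 0 2 - x.1 1 2 - x.1 0 3 + x.1 1 3) • X0 := by
  funext i j
  rw [EE_fst (by decide) (by decide)]
  simp only [Pi.smul_apply, smul_eq_mul]
  have h20 := ha 2 0
  have h21 := ha 2 1
  have h30 := ha 3 0
  have h31 := ha 3 1
  fin_cases i <;> fin_cases j <;> simp [swap_apply_def, X0, hd] <;>
    first | done | ring1 | linear_combination h20 - h21 - h30 + h31 |
      linear_combination - h20 + h21 + h30 - h31

/-- the antisymmetriser over the permutations of `0, 2, 4` -/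
def NN (x : M7 × M7) : M7 × M7 :=
  x - pa (swap 0 2) x - pa (swap 0 4) x - pa (swap 2 4) x + pa (swap 0 2) (pa (swap 0 4) x) +
    pa (swap 0 4) (pa (swap 0 2) x)

lemma NN_fst (x : M7 × M7) (i j : Fin 7) :
    (NN x).1 i j = x.1 i j + x.1 (swap 0 2 i) (swap 0 2 j) + x.1 (swap 0 4 i) (swap 0 4 j) +
      x.1 (swap 2 4 i) (swap 2 4 j) + x.1 (swap 0 4 (swap 0 2 i)) (swap 0 4 (swap 0 2 j)) +
      x.1 (swap 0 2 (swap 0 4 i)) (swap 0 2 (swap 0 4 j)) := by
  unfold NN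
  have h1 : sg (swap 0 2) = -1 := sg_swap (by decide)
  have h2 : sg (swap 0 4) = -1 := sg_swap (by decide)
  have h3 : sg (swap 2 4) = -1 := sg_swap (by decide)
  simp only [Prod.fst_add, Prod.fst_sub, pa_fst, h1, h2, h3, Pi.add_apply, Pi.sub_apply,
    Pi.smul_apply, act_apply, smul_eq_mul]
  ring

lemma NN_snd (x : M7 × M7) (hs : ∀ i j, x.2 i j = x.2 j i) (i j : Fin 7) : (NN x).2 i j = 0 := by
  have e : (NN x).2 i j = x.2 i j - x.2 (swap 0 2 i) (swap 0 2 j) - x.2 (swap 0 4 i) (swap 0 4 j) -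
      x.2 (swap 2 4 i) (swap 2 4 j) + x.2 (swap 0 4 (swap 0 2 i)) (swap 0 4 (swap 0 2 j)) +
      x.2 (swap 0 2 (swap 0 4 i)) (swap 0 2 (swap 0 4 j)) := rfl
  rw [e]
  have h20 := hs 2 0
  have h40 := hs 4 0
  have h42 := hs 4 2
  fin_cases i <;> fin_cases j <;> simp [swap_apply_def, h20, h40, h42] <;> ring1

/-- a symmetric matrix supported on the rows and columns `4` and `5` -/
def Zd (δ : Fin 7 → ZMod 3) : M7 := fun i j =>
  δ i * ((if j = 4 then 1 else 0) - (if j = 5 then 1 else 0)) +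
  δ j * ((if i = 4 then 1 else 0) - (if i = 5 then 1 else 0))

lemma act_Zd (π : Perm (Fin 7)) (h4 : π 4 = 4) (h5 : π 5 = 5) (δ : Fin 7 → ZMod 3) :
    act π (Zd δ) = Zd (fun i => δ (π i)) := by
  funext i j
  have e4 : ∀ k, (π k = 4) = (k = 4) := fun k =>
    propext ⟨fun h => π.injective (h.trans h4.symm), fun h => by rw [h, h4]⟩
  have e5 : ∀ k, (π k = 5) = (k = 5) := fun k =>
    propext ⟨fun h => π.injective (h.trans h5.symm), fun h => by rw [h, h5]⟩
  simp only [act_apply, Zd, e4, e5]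

lemma Zd_add (δ δ' : Fin 7 → ZMod 3) : Zd δ + Zd δ' = Zd (fun i => δ i + δ' i) := by
  funext i j
  simp only [Pi.add_apply, Zd]; ring

lemma Zd_smul (c : ZMod 3) (δ : Fin 7 → ZMod 3) : c • Zd δ = Zd (fun i => c * δ i) := by
  funext i j
  simp only [Pi.smul_apply, Zd, smul_eq_mul]; ring

/-- the basic vector -/
def ζ : Fin 7 → ZMod 3 := ![1, 1, 1, 1, 0, 0, -1]

lemma YY_snd (x : M7 × M7) (hs : ∀ i j, x.2 i j = x.2 j i) (hd : ∀ i, x.2 i i = 0) :
    (x - pa (swap 4 5) x).2 =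
      Zd ![x.2 0 4 - x.2 0 5, x.2 1 4 - x.2 1 5, x.2 2 4 - x.2 2 5, x.2 3 4 - x.2 3 5, 0, 0,
        x.2 6 4 - x.2 6 5] := by
  funext i j
  have e : (x - pa (swap 4 5) x).2 i j = x.2 i j - x.2 (swap 4 5 i) (swap 4 5 j) := rfl
  rw [e]
  have h1 := hs 4 0
  have h2 := hs 4 1
  have h3 := hs 4 2
  have h4 := hs 4 3
  have h5 := hs 5 0
  have h6 := hs 5 1
  have h7 := hs 5 2
  have h8 := hs 5 3
  have h9 := hs 4 6
  have h10 := hs 5 6
  have h11 := hs 5 4
  fin_cases i <;> fin_cases j <;> simp [swap_apply_def, Zd, h1, h2, h3, h4, h5, h6, h7, h8, h9,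
    h10, h11, hd]

lemma ex_perm4 {i j k l : Fin 7} (h : Function.Injective ![i, j, k, l]) :
    ∃ τ : Perm (Fin 7), τ 0 = i ∧ τ 1 = j ∧ τ 2 = k ∧ τ 3 = l := by
  have := Equiv.Perm.isMultiplyPretransitive (Fin 7) 4
  obtain ⟨g, hg⟩ := this.exists_smul_eq (⟨![0, 1, 2, 3], by decide⟩ : Fin 4 ↪ Fin 7) ⟨![i, j, k, l], h⟩
  have e : ∀ t, g ((![0, 1, 2, 3] : Fin 4 → Fin 7) t) = (![i, j, k, l] : Fin 4 → Fin 7) t := by
    intro t
    exact congrArg (fun f : Fin 4 ↪ Fin 7 => f t) hg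
  exact ⟨g, e 0, e 1, e 2, e 3⟩

/-- elementary matrices -/
def Es (i j : Fin 7) : M7 := fun i' j' => if i' = i ∧ j' = j then 1 else 0

lemma lin_exp (f : M7 →ₗ[ZMod 3] ZMod 3) (U : M7) : f U = ∑ i, ∑ j, U i j * f (Es i j) := by
  have : U = ∑ i, ∑ j, U i j • Es i j := by
    funext i j
    simp only [Finset.sum_apply, Pi.smul_apply, Es, smul_eq_mul, mul_ite, mul_one, mul_zero]
    rw [Finset.sum_eq_single i, Finset.sum_eq_single j]
    · simp
    · intro b _ hb; rw [if_neg]; rintro ⟨_, h⟩; exact hb h.symm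
    · simp
    · intro b _ hb
      refine Finset.sum_eq_zero (fun c _ => ?_)
      rw [if_neg]; rintro ⟨h, _⟩; exact hb h.symm
    · simp
  conv_lhs => rw [this]
  simp only [map_sum, map_smul, smul_eq_mul]

lemma three0 : (3 : ZMod 3) = 0 := by decide

section main

variable (P : Submodule (ZMod 3) (M7 × M7))
  (hperm : ∀ π, ∀ x ∈ P, pa π x ∈ P) (hgood : ∀ x ∈ P, Good x)
  (L : (M7 × M7) →ₗ[ZMod 3] ZMod 3)
  (hL : ∀ σ, ∀ x ∈ P, L (pa σ (EE 0 1 2 3 x)) = 0)

include hperm hgood hL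

lemma partA1 (x : M7 × M7) (hx : x ∈ P) (σ : Perm (Fin 7)) :
    ((x.1 0 3 + x.1 2 3 + x.1 4 3) - (x.1 0 1 + x.1 2 1 + x.1 4 1)) * L (pa σ (X0, 0)) = 0 := by
  have hn : NN x ∈ P := by
    unfold NN
    exact P.add_mem (P.add_mem (P.sub_mem (P.sub_mem (P.sub_mem hx (hperm _ _ hx)) (hperm _ _ hx))
      (hperm _ _ hx)) (hperm _ _ (hperm _ _ hx))) (hperm _ _ (hperm _ _ hx))
  have hg := hgood x hx
  have hgn := hgood _ hn
  have h1 := hL σ _ hn
  have h2 : EE 0 1 2 3 (NN x) =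
      ((NN x).1 0 2 - (NN x).1 1 2 - (NN x).1 0 3 + (NN x).1 1 3) • ((X0, 0) : M7 × M7) := by
    refine Prod.ext (EE0_fst _ hgn.anti hgn.diag) ?_
    funext i j
    rw [EE_snd]
    simp only [NN_snd x hg.symm]
    simp
  rw [h2, map_smul, map_smul, smul_eq_mul] at h1
  have h3 : (NN x).1 0 2 - (NN x).1 1 2 - (NN x).1 0 3 + (NN x).1 1 3 =
      (x.1 0 3 + x.1 2 3 + x.1 4 3) - (x.1 0 1 + x.1 2 1 + x.1 4 1) := by
    simp only [NN_fst]
    have a1 := hg.anti 2 0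
    have a2 := hg.anti 4 0
    have a3 := hg.anti 4 2
    have a4 := hg.anti 1 0
    have a5 := hg.anti 1 2
    have a6 := hg.anti 1 4
    have h3 := three0
    simp [swap_apply_def, a1, a2, a3, a4]
    linear_combination (-2) * a5 + (-2) * a6 + (x.1 0 1 - x.1 0 3 - x.1 2 3 - x.1 4 3 +
      2 * x.1 1 3 + x.1 2 1 + x.1 4 1) * h3
  rw [← h3]; exact h1

omit hgood hL in
/-- transfer to another place -/
lemma place (φ : M7 → ZMod 3) (hφ : ∀ (c : ZMod 3) (U : M7), φ (c • U) = c * φ U)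
    (h : ∀ x ∈ P, φ x.1 = 0) (x : M7 × M7) (hx : x ∈ P) (τ : Perm (Fin 7)) : φ (act τ x.1) = 0 := by
  have h1 := h _ (hperm τ x hx)
  rw [pa_fst, hφ] at h1
  exact (mul_eq_zero.1 h1).resolve_left (sg_ne τ)

lemma partA2 (σ : Perm (Fin 7)) (h0 : L (pa σ (X0, 0)) ≠ 0) (x : M7 × M7) (hx : x ∈ P) :
    x.1 = 0 := by
  have hg := hgood x hx
  have h3 := three0
  have w : ∀ τ : Perm (Fin 7), x.1 (τ 0) (τ 3) + x.1 (τ 2) (τ 3) + x.1 (τ 4) (τ 3) =
      x.1 (τ 0) (τ 1) + x.1 (τ 2) (τ 1) + x.1 (τ 4) (τ 1) := by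
    intro τ
    have := place P hperm (fun U => (U 0 3 + U 2 3 + U 4 3) - (U 0 1 + U 2 1 + U 4 1))
      (fun c U => by simp only [Pi.smul_apply, smul_eq_mul]; ring) (fun y hy =>
      (mul_eq_zero.1 (partA1 P hperm hgood L hL y hy σ)).resolve_right h0) x hx τ
    simp only [act_apply] at this
    exact sub_eq_zero.1 this
  have w' : ∀ τ : Perm (Fin 7), x.1 (τ 0) (τ 1) + x.1 (τ 2) (τ 1) + x.1 (τ 4) (τ 1) = 0 := by
    intro τ
    have w1 := w τ
    have w2 := w (τ * swap 3 5)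
    have w3 := w (τ * swap 3 6)
    have c : ∀ a b c : Fin 7, (τ * swap a b) c = τ (swap a b c) := fun _ _ _ => rfl
    simp only [c] at w2 w3
    have e1 : swap (3 : Fin 7) 5 0 = 0 := by decide
    have e2 : swap (3 : Fin 7) 5 1 = 1 := by decide
    have e3 : swap (3 : Fin 7) 5 2 = 2 := by decide
    have e4 : swap (3 : Fin 7) 5 3 = 5 := by decide
    have e5 : swap (3 : Fin 7) 5 4 = 4 := by decide
    have f1 : swap (3 : Fin 7) 6 0 = 0 := by decide
    have f2 : swap (3 : Fin 7) 6 1 = 1 := by decide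
    have f3 : swap (3 : Fin 7) 6 2 = 2 := by decide
    have f4 : swap (3 : Fin 7) 6 3 = 6 := by decide
    have f5 : swap (3 : Fin 7) 6 4 = 4 := by decide
    rw [e1, e2, e3, e4, e5] at w2
    rw [f1, f2, f3, f4, f5] at w3
    have r : ∀ i, x.1 i (τ 0) + x.1 i (τ 1) + x.1 i (τ 2) + x.1 i (τ 3) + x.1 i (τ 4) +
        x.1 i (τ 5) + x.1 i (τ 6) = 0 := by
      intro i
      rw [← Fin.sum_univ_seven (fun k => x.1 i (τ k)), Equiv.sum_comp τ (fun k => x.1 i k)]
      exact hg.row i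
    have r0 := r (τ 0)
    have r2 := r (τ 2)
    have r4 := r (τ 4)
    have d0 := hg.diag (τ 0)
    have d2 := hg.diag (τ 2)
    have d4 := hg.diag (τ 4)
    have a1 := hg.anti (τ 0) (τ 2)
    have a2 := hg.anti (τ 0) (τ 4)
    have a3 := hg.anti (τ 2) (τ 4)
    linear_combination r0 + r2 + r4 - w1 - w2 - w3 - d0 - d2 - d4 - a1 - a2 - a3 -
      (x.1 (τ 0) (τ 1) + x.1 (τ 2) (τ 1) + x.1 (τ 4) (τ 1)) * h3
  have c : ∀ τ : Perm (Fin 7), x.1 (τ 4) (τ 1) = x.1 (τ 5) (τ 1) := by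
    intro τ
    have w1 := w' τ
    have w2 := w' (τ * swap 4 5)
    have c : ∀ a b c : Fin 7, (τ * swap a b) c = τ (swap a b c) := fun _ _ _ => rfl
    simp only [c] at w2
    have e1 : swap (4 : Fin 7) 5 0 = 0 := by decide
    have e2 : swap (4 : Fin 7) 5 1 = 1 := by decide
    have e3 : swap (4 : Fin 7) 5 2 = 2 := by decide
    have e4 : swap (4 : Fin 7) 5 4 = 5 := by decide
    rw [e1, e2, e3, e4] at w2
    linear_combination w1 - w2
  have z : ∀ τ : Perm (Fin 7), x.1 (τ 4) (τ 1) = 0 := by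
    intro τ
    have c1 := c τ
    have c2 := c (τ * swap 1 5)
    have c3 := c (τ * swap 1 4)
    have cc : ∀ a b c : Fin 7, (τ * swap a b) c = τ (swap a b c) := fun _ _ _ => rfl
    simp only [cc] at c2 c3
    have e1 : swap (1 : Fin 7) 5 4 = 4 := by decide
    have e2 : swap (1 : Fin 7) 5 1 = 5 := by decide
    have e3 : swap (1 : Fin 7) 5 5 = 1 := by decide
    have f1 : swap (1 : Fin 7) 4 4 = 1 := by decide
    have f2 : swap (1 : Fin 7) 4 1 = 4 := by decide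
    have f3 : swap (1 : Fin 7) 4 5 = 5 := by decide
    rw [e1, e2, e3] at c2
    rw [f1, f2, f3] at c3
    have a1 := hg.anti (τ 5) (τ 1)
    have a2 := hg.anti (τ 4) (τ 5)
    have a3 := hg.anti (τ 1) (τ 4)
    -- x41 = x51 = -x15 = -x45 = x54 = x14 = -x41
    have h2 : x.1 (τ 4) (τ 1) = - x.1 (τ 4) (τ 1) := by
      linear_combination c1 + a1 + c2 - a2 - c3 + a3
    linear_combination (-1) * h2 + (x.1 (τ 4) (τ 1)) * h3
  funext i j
  by_cases hij : i = j
  · subst hij; exact hg.diag i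
  · have : ∃ τ : Perm (Fin 7), τ 4 = i ∧ τ 1 = j := by
      refine ⟨swap (swap 4 i 1) j * swap 4 i, ?_, ?_⟩
      · simp only [Perm.mul_apply, swap_apply_left]
        refine swap_apply_of_ne_of_ne ?_ hij
        intro h
        have h4 : swap 4 i 4 = i := swap_apply_left 4 i
        have := (swap 4 i).injective (h4.trans h)
        exact absurd this (by decide)
      · simp only [Perm.mul_apply, swap_apply_left]
    obtain ⟨τ, h1, h2⟩ := this
    rw [← h1, ← h2]; exact z τ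

end main

end Pool.Agent.Lib.MP_e8899b_al
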