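import Pool.Agent.Lib.MP_e8899b_al.LA

/-! Linear algebra with pairs of 7 by 7 matrices, part 2. -/

namespace Pool.Agent.Lib.MP_e8899b_al

open Equiv

lemma inj4 {i j k l : Fin 7} (h1 : i ≠ j) (h2 : i ≠ k) (h3 : i ≠ l) (h4 : j ≠ k) (h5 : j ≠ l)
    (h6 : k ≠ l) : Function.Injective ![i, j, k, l] := by
  intro a b h
  fin_cases a <;> fin_cases b <;> simp at h ⊢ <;>
    first | exact absurd h h1 | exact absurd h h2 | exact absurd h h3 | exact absurd h h4 |
      exact absurd h h5 | exact absurd h h6 | exact absurd h.symm h1 | exact absurd h.symm h2 |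
      exact absurd h.symm h3 | exact absurd h.symm h4 | exact absurd h.symm h5 |
      exact absurd h.symm h6

lemma fourth (i j k : Fin 7) : ∃ d : Fin 7, d ≠ i ∧ d ≠ j ∧ d ≠ k := by
  revert i j k; decide

lemma sum2_comp (τ : Perm (Fin 7)) (g : Fin 7 → Fin 7 → ZMod 3) :
    ∑ i, ∑ j, g (τ i) (τ j) = ∑ i, ∑ j, g i j := by
  rw [← Equiv.sum_comp τ (fun i => ∑ j, g i j)]
  exact Finset.sum_congr rfl (fun i _ => Equiv.sum_comp τ (fun j => g (τ i) j))

lemma sum2_act (σ : Perm (Fin 7)) (W : M7) (g : Fin 7 → Fin 7 → ZMod 3) :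
    ∑ i, ∑ j, W (σ i) (σ j) * g i j = ∑ i, ∑ j, W i j * g (σ⁻¹ i) (σ⁻¹ j) := by
  rw [← sum2_comp σ (fun i j => W i j * g (σ⁻¹ i) (σ⁻¹ j))]
  simp

lemma X0_sum (g : Fin 7 → Fin 7 → ZMod 3) : ∑ i, ∑ j, X0 i j * g i j =
    (g 0 2 - g 2 0) - (g 1 2 - g 2 1) - (g 0 3 - g 3 0) + (g 1 3 - g 3 1) := by
  simp [Fin.sum_univ_seven, X0]
  ring

lemma partA3 (f : M7 →ₗ[ZMod 3] ZMod 3) (hf : ∀ σ, f (act σ X0) = 0) (U : M7)
    (ha : ∀ i j, U i j = - U j i) (hr : ∀ i, ∑ j, U i j = 0) : f U = 0 := by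
  have h3 := three0
  set α : Fin 7 → Fin 7 → ZMod 3 := fun i j => f (Es i j) with hα
  set αa : Fin 7 → Fin 7 → ZMod 3 := fun i j => α i j - α j i with hαa
  have h4 : ∀ τ : Perm (Fin 7), αa (τ 0) (τ 2) - αa (τ 1) (τ 2) - αa (τ 0) (τ 3) +
      αa (τ 1) (τ 3) = 0 := by
    intro τ
    have h1 := hf τ⁻¹
    rw [lin_exp] at h1
    simp only [act_apply] at h1
    rw [sum2_act τ⁻¹ X0 (fun i j => f (Es i j)), X0_sum] at h1
    simp only [inv_inv] at h1
    exact h1
  have tri : ∀ τ : Perm (Fin 7), αa (τ 0) (τ 1) + αa (τ 1) (τ 2) + αa (τ 2) (τ 0) = 0 := by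
    intro τ
    have q1 := h4 (τ * swap 1 2)
    have q2 := h4 (τ * swap 0 1)
    have q3 := h4 (τ * swap 0 2)
    have cc : ∀ a b c : Fin 7, (τ * swap a b) c = τ (swap a b c) := fun _ _ _ => rfl
    simp only [cc] at q1 q2 q3
    have e1 : swap (1 : Fin 7) 2 0 = 0 := by decide
    have e2 : swap (1 : Fin 7) 2 1 = 2 := by decide
    have e3 : swap (1 : Fin 7) 2 2 = 1 := by decide
    have e4 : swap (1 : Fin 7) 2 3 = 3 := by decide
    have f1 : swap (0 : Fin 7) 1 0 = 1 := by decide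
    have f2 : swap (0 : Fin 7) 1 1 = 0 := by decide
    have f3 : swap (0 : Fin 7) 1 2 = 2 := by decide
    have f4 : swap (0 : Fin 7) 1 3 = 3 := by decide
    have g1 : swap (0 : Fin 7) 2 0 = 2 := by decide
    have g2 : swap (0 : Fin 7) 2 1 = 1 := by decide
    have g3 : swap (0 : Fin 7) 2 2 = 0 := by decide
    have g4 : swap (0 : Fin 7) 2 3 = 3 := by decide
    rw [e1, e2, e3, e4] at q1
    rw [f1, f2, f3, f4] at q2
    rw [g1, g2, g3, g4] at q3
    simp only [hαa] at q1 q2 q3 ⊢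
    linear_combination 2 * q1 + 2 * q2 + 2 * q3 - ((α (τ 0) (τ 1) - α (τ 1) (τ 0)) +
      (α (τ 1) (τ 2) - α (τ 2) (τ 1)) + (α (τ 2) (τ 0) - α (τ 0) (τ 2))) * h3
  have hs : ∀ i j, αa i j = αa i 0 - αa j 0 := by
    intro i j
    by_cases hij : i = j
    · subst hij; simp [hαa]
    by_cases hi : i = 0
    · subst hi; simp [hαa]
    by_cases hj : j = 0
    · subst hj; simp [hαa]
    obtain ⟨d, d1, d2, d3⟩ := fourth i j 0
    obtain ⟨τ, t1, t2, t3, -⟩ := ex_perm4 (inj4 hij hi (Ne.symm d1) hj (Ne.symm d2) (Ne.symm d3))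
    have := tri τ
    rw [t1, t2, t3] at this
    simp only [hαa] at this ⊢
    linear_combination this
  have h2 : 2 * f U = 0 := by
    have e1 : f U = ∑ i, ∑ j, U i j * α i j := lin_exp f U
    have e2 : f U = ∑ i, ∑ j, U j i * α j i := by
      rw [e1, Finset.sum_comm]
    have e3 : 2 * f U = ∑ i, ∑ j, U i j * αa i j := by
      rw [two_mul]
      nth_rewrite 1 [e1]
      rw [e2, ← Finset.sum_add_distrib]
      refine Finset.sum_congr rfl (fun i _ => ?_)
      rw [← Finset.sum_add_distrib]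
      refine Finset.sum_congr rfl (fun j _ => ?_)
      rw [ha j i]; simp only [hαa]; ring
    have e4 : ∑ i, ∑ j, U i j * αa i j = ∑ i, (∑ j, U i j) * αa i 0 - ∑ j, (∑ i, U i j) * αa j 0 := by
      simp only [Finset.sum_mul]
      rw [Finset.sum_comm (f := fun j i => U i j * αa j 0), ← Finset.sum_sub_distrib]
      refine Finset.sum_congr rfl (fun i _ => ?_)
      rw [← Finset.sum_sub_distrib]
      refine Finset.sum_congr rfl (fun j _ => ?_)
      rw [hs i j]; ring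
    have e5 : ∀ j, ∑ i, U i j = 0 := by
      intro j
      have : ∑ i, U i j = - ∑ i, U j i := by
        rw [← Finset.sum_neg_distrib]
        exact Finset.sum_congr rfl (fun i _ => ha i j)
      rw [this, hr j, neg_zero]
    rw [e3, e4]
    simp [hr, e5]
  linear_combination (-1) * h2 + (f U) * h3

end Pool.Agent.Lib.MP_e8899b_al
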