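import Pool.Agent.Lib.MP_e8899b_al.LA2

/-! Linear algebra with pairs of 7 by 7 matrices, part 3. -/

namespace Pool.Agent.Lib.MP_e8899b_al

open Equiv

lemma EE_snd' (a b c d : Fin 7) (x : M7 × M7) : (EE a b c d x).2 =
    x.2 + act (swap a b) x.2 + act (swap c d) x.2 + act (swap a b) (act (swap c d) x.2) := rfl

lemma EE_Zd {a b c d : Fin 7} (h1 : swap a b 4 = 4) (h2 : swap a b 5 = 5) (h3 : swap c d 4 = 4)
    (h4 : swap c d 5 = 5) (x : M7 × M7) (δ : Fin 7 → ZMod 3) (hx : x.2 = Zd δ) :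
    (EE a b c d x).2 = Zd (fun i => δ i + δ (swap a b i) + δ (swap c d i) +
      δ (swap c d (swap a b i))) := by
  rw [EE_snd', hx, act_Zd _ h1 h2, act_Zd _ h3 h4, act_Zd _ h1 h2, Zd_add, Zd_add, Zd_add]

section main

variable (P : Submodule (ZMod 3) (M7 × M7))
  (hperm : ∀ π, ∀ x ∈ P, pa π x ∈ P) (hgood : ∀ x ∈ P, Good x)
  (L : (M7 × M7) →ₗ[ZMod 3] ZMod 3)
  (hL : ∀ σ, ∀ x ∈ P, L (pa σ (EE 0 1 2 3 x)) = 0)

include hperm in
lemma EE_mem (a b c d : Fin 7) (x : M7 × M7) (hx : x ∈ P) : EE a b c d x ∈ P := by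
  unfold EE
  exact P.add_mem (P.add_mem (P.add_mem hx (hperm _ _ hx)) (hperm _ _ hx)) (hperm _ _ (hperm _ _ hx))

include hperm hgood hL

lemma partA (x : M7 × M7) (hx : x ∈ P) : L (x.1, 0) = 0 := by
  by_cases h : ∃ σ, L (pa σ (X0, 0)) ≠ 0
  · obtain ⟨σ, hσ⟩ := h
    rw [partA2 P hperm hgood L hL σ hσ x hx]
    exact map_zero L
  · push Not at h
    have hg := hgood x hx
    refine partA3 (L ∘ₗ LinearMap.inl (ZMod 3) M7 M7) ?_ x.1 hg.anti hg.row
    intro σ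
    have h1 := h σ
    have h2 : pa σ (X0, 0) = sg σ • (LinearMap.inl (ZMod 3) M7 M7 (act σ X0)) := by
      refine Prod.ext rfl ?_
      simp [pa_snd]
    rw [h2, map_smul] at h1
    exact (smul_eq_zero.1 h1).resolve_left (sg_ne σ)

lemma partB1 (x : M7 × M7) (hx : x ∈ P) (σ : Perm (Fin 7)) :
    (x.2 6 4 - x.2 6 5) * L (pa σ (0, Zd ζ)) = 0 := by
  have hg := hgood x hx
  have h3 := three0
  set y : M7 × M7 := x - pa (swap 4 5) x with hy
  have hyP : y ∈ P := P.sub_mem hx (hperm _ _ hx)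
  have hgy := hgood y hyP
  set z : M7 × M7 := EE 0 2 1 3 (EE 0 1 2 3 y) with hz
  have hzP : z ∈ P := EE_mem P hperm _ _ _ _ _ (EE_mem P hperm _ _ _ _ _ hyP)
  have hz1 : z.1 = 0 := by
    funext i j
    rw [hz, EE_fst (by decide) (by decide), EE0_fst _ hgy.anti hgy.diag]
    simp only [Pi.smul_apply, smul_eq_mul]
    have key : ∀ i j : Fin 7, X0 i j - X0 (swap 0 2 i) (swap 0 2 j) - X0 (swap 1 3 i) (swap 1 3 j) +
        X0 (swap 1 3 (swap 0 2 i)) (swap 1 3 (swap 0 2 j)) = 0 := by decide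
    have := key i j
    simp only [Pi.zero_apply]
    linear_combination (y.1 0 2 - y.1 1 2 - y.1 0 3 + y.1 1 3) * this
  have hz2 : z.2 = Zd (fun i => - (x.2 6 4 - x.2 6 5) * ζ i) := by
    have e0 := YY_snd x hg.symm hg.diag'
    have e1 := EE_Zd (a := 0) (b := 1) (c := 2) (d := 3) (by decide) (by decide) (by decide)
      (by decide) y _ e0
    have e2 := EE_Zd (a := 0) (b := 2) (c := 1) (d := 3) (by decide) (by decide) (by decide)
      (by decide) (EE 0 1 2 3 y) _ e1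
    rw [hz, e2]
    congr 1
    have r4 := hg.row' 4
    have r5 := hg.row' 5
    rw [Fin.sum_univ_seven] at r4 r5
    have a1 := hg.symm 4 0
    have a2 := hg.symm 4 1
    have a3 := hg.symm 4 2
    have a4 := hg.symm 4 3
    have a5 := hg.symm 5 0
    have a6 := hg.symm 5 1
    have a7 := hg.symm 5 2
    have a8 := hg.symm 5 3
    have a9 := hg.symm 4 6
    have a10 := hg.symm 5 6
    have a11 := hg.symm 4 5
    have d4 := hg.diag' 4
    have d5 := hg.diag' 5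
    have hσ : (x.2 0 4 - x.2 0 5) + (x.2 1 4 - x.2 1 5) + (x.2 2 4 - x.2 2 5) +
        (x.2 3 4 - x.2 3 5) + (x.2 6 4 - x.2 6 5) = 0 := by
      linear_combination r4 - r5 - a1 - a2 - a3 - a4 + a5 + a6 + a7 + a8 - a9 + a10 - a11 - d4 + d5
    funext i
    fin_cases i <;> simp [swap_apply_def, ζ] <;>
    first
    | done
    | linear_combination hσ + ((x.2 0 4 - x.2 0 5) + (x.2 1 4 - x.2 1 5) + (x.2 2 4 - x.2 2 5) +
        (x.2 3 4 - x.2 3 5)) * h3
    | linear_combination 5 * (x.2 6 4 - x.2 6 5) * h3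
  have hz3 : EE 0 1 2 3 z = (- (x.2 6 4 - x.2 6 5)) • ((0, Zd ζ) : M7 × M7) := by
    refine Prod.ext ?_ ?_
    · funext i j
      rw [EE_fst (by decide) (by decide), hz1]
      simp
    · rw [EE_Zd (a := 0) (b := 1) (c := 2) (d := 3) (by decide) (by decide) (by decide)
        (by decide) z _ hz2, Prod.smul_snd, Zd_smul]
      congr 1
      funext i
      fin_cases i <;> simp [swap_apply_def, ζ] <;>
      first
      | done
      | linear_combination (-(x.2 6 4 - x.2 6 5)) * h3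
      | linear_combination ((x.2 6 4 - x.2 6 5)) * h3
  have h1 := hL σ z hzP
  rw [hz3, map_smul, map_smul, smul_eq_mul] at h1
  linear_combination (-1) * h1

lemma partB2 (σ : Perm (Fin 7)) (h0 : L (pa σ (0, Zd ζ)) ≠ 0) (x : M7 × M7) (hx : x ∈ P) :
    L (0, x.2) = 0 := by
  have hg := hgood x hx
  have h3 := three0
  have w : ∀ τ : Perm (Fin 7), x.2 (τ 6) (τ 4) = x.2 (τ 6) (τ 5) := by
    intro τ
    have h1 := (mul_eq_zero.1 (partB1 P hperm hgood L hL _ (hperm τ x hx) σ)).resolve_right h0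
    rw [pa_snd] at h1
    simp only [act_apply] at h1
    exact sub_eq_zero.1 h1
  have w2 : ∀ i j k : Fin 7, i ≠ j → i ≠ k → x.2 i j = x.2 i k := by
    intro i j k hij hik
    by_cases hjk : j = k
    · rw [hjk]
    · obtain ⟨d, d1, d2, d3⟩ := fourth i j k
      obtain ⟨τ, t1, t2, t3, -⟩ := ex_perm4 (inj4 hij hik (Ne.symm d1) hjk (Ne.symm d2) (Ne.symm d3))
      have e1 : (swap 0 6 * swap 1 4 * swap 2 5 : Perm (Fin 7)) 6 = 0 := by decide
      have e2 : (swap 0 6 * swap 1 4 * swap 2 5 : Perm (Fin 7)) 4 = 1 := by decide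
      have e3 : (swap 0 6 * swap 1 4 * swap 2 5 : Perm (Fin 7)) 5 = 2 := by decide
      have := w (τ * (swap 0 6 * swap 1 4 * swap 2 5))
      rw [Perm.mul_apply τ _ 6, Perm.mul_apply τ _ 4, Perm.mul_apply τ _ 5, e1, e2, e3, t1, t2,
        t3] at this
      exact this
  have fifth : ∀ i j : Fin 7, ∃ k : Fin 7, k ≠ 0 ∧ k ≠ 1 ∧ k ≠ i ∧ k ≠ j := by decide
  have w3 : ∀ i j : Fin 7, i ≠ j → x.2 i j = x.2 0 1 := by
    intro i j hij
    obtain ⟨k, k0, k1, ki, kj⟩ := fifth i j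
    rw [w2 i j k hij (Ne.symm ki), hg.symm i k]
    by_cases hi : i = 0
    · subst hi
      rw [hg.symm k 0]
      exact w2 0 k 1 (Ne.symm k0) (by decide)
    · rw [w2 k i 0 ki k0, hg.symm k 0]
      exact w2 0 k 1 (Ne.symm k0) (by decide)
  have hact : ∀ π : Perm (Fin 7), act π x.2 = x.2 := by
    intro π
    funext i j
    rw [act_apply]
    by_cases hij : i = j
    · subst hij; rw [hg.diag', hg.diag']
    · rw [w3 _ _ (fun h => hij (π.injective h)), w3 _ _ hij]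
  have hE2 : (EE 0 1 2 3 x).2 = x.2 := by
    rw [EE_snd']
    simp only [hact]
    funext i j
    simp only [Pi.add_apply]
    linear_combination (x.2 i j) * h3
  have h1 := hL 1 x hx
  have h2 : pa 1 (EE 0 1 2 3 x) = EE 0 1 2 3 x := by
    refine Prod.ext ?_ ?_
    · rw [pa_fst]
      simp [sg, act]
    · rfl
  rw [h2] at h1
  have h4 := partA P hperm hgood L hL _ (EE_mem P hperm 0 1 2 3 x hx)
  have h5 : EE 0 1 2 3 x = ((EE 0 1 2 3 x).1, 0) + (0, x.2) := by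
    refine Prod.ext ?_ ?_
    · simp
    · simp [hE2]
  rw [h5, map_add, h4, zero_add] at h1
  exact h1

end main

lemma Zd_sum (g : Fin 7 → Fin 7 → ZMod 3) : ∑ i, ∑ j, Zd ζ i j * g i j =
    ((g 0 4 + g 4 0) + (g 1 4 + g 4 1) + (g 2 4 + g 4 2) + (g 3 4 + g 4 3) - (g 6 4 + g 4 6)) -
    ((g 0 5 + g 5 0) + (g 1 5 + g 5 1) + (g 2 5 + g 5 2) + (g 3 5 + g 5 3) - (g 6 5 + g 5 6)) := by
  simp [Fin.sum_univ_seven, Zd, ζ]
  ring

lemma partB3 (f : M7 →ₗ[ZMod 3] ZMod 3) (hf : ∀ σ, f (act σ (Zd ζ)) = 0) (V : M7)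
    (hs : ∀ i j, V i j = V j i) (hd : ∀ i, V i i = 0) (hr : ∀ i, ∑ j, V i j = 0) : f V = 0 := by
  have h3 := three0
  set β : Fin 7 → Fin 7 → ZMod 3 := fun i j => f (Es i j) with hβ
  set b : Fin 7 → Fin 7 → ZMod 3 := fun i j => if i = j then 0 else β i j + β j i with hb
  have bsymm : ∀ i j, b i j = b j i := by
    intro i j
    by_cases hij : i = j
    · subst hij; rfl
    · simp only [hb, if_neg hij, if_neg (Ne.symm hij)]; ring
  have bne : ∀ (τ : Perm (Fin 7)) (i j : Fin 7), i ≠ j →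
      β (τ i) (τ j) + β (τ j) (τ i) = b (τ i) (τ j) := by
    intro τ i j hij
    have : τ i ≠ τ j := fun h => hij (τ.injective h)
    simp only [hb, if_neg this]
  set B : Fin 7 → ZMod 3 := fun i => ∑ j, b i j with hB
  have h4 : ∀ τ : Perm (Fin 7), b (τ 6) (τ 4) + B (τ 4) = b (τ 6) (τ 5) + B (τ 5) := by
    intro τ
    have h1 := hf τ⁻¹
    rw [lin_exp] at h1
    simp only [act_apply] at h1
    rw [sum2_act τ⁻¹ (Zd ζ) (fun i j => f (Es i j)), Zd_sum] at h1
    simp only [inv_inv] at h1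
    change ((β (τ 0) (τ 4) + β (τ 4) (τ 0)) + (β (τ 1) (τ 4) + β (τ 4) (τ 1)) +
      (β (τ 2) (τ 4) + β (τ 4) (τ 2)) + (β (τ 3) (τ 4) + β (τ 4) (τ 3)) -
      (β (τ 6) (τ 4) + β (τ 4) (τ 6))) -
      ((β (τ 0) (τ 5) + β (τ 5) (τ 0)) + (β (τ 1) (τ 5) + β (τ 5) (τ 1)) +
      (β (τ 2) (τ 5) + β (τ 5) (τ 2)) + (β (τ 3) (τ 5) + β (τ 5) (τ 3)) -
      (β (τ 6) (τ 5) + β (τ 5) (τ 6))) = 0 at h1
    rw [bne τ 0 4 (by decide), bne τ 1 4 (by decide), bne τ 2 4 (by decide), bne τ 3 4 (by decide),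
      bne τ 6 4 (by decide), bne τ 0 5 (by decide), bne τ 1 5 (by decide), bne τ 2 5 (by decide),
      bne τ 3 5 (by decide), bne τ 6 5 (by decide)] at h1
    have B4 : B (τ 4) = b (τ 4) (τ 0) + b (τ 4) (τ 1) + b (τ 4) (τ 2) + b (τ 4) (τ 3) +
        b (τ 4) (τ 4) + b (τ 4) (τ 5) + b (τ 4) (τ 6) := by
      rw [← Fin.sum_univ_seven (fun k => b (τ 4) (τ k)), Equiv.sum_comp τ (fun k => b (τ 4) k)]
    have B5 : B (τ 5) = b (τ 5) (τ 0) + b (τ 5) (τ 1) + b (τ 5) (τ 2) + b (τ 5) (τ 3) +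
        b (τ 5) (τ 4) + b (τ 5) (τ 5) + b (τ 5) (τ 6) := by
      rw [← Fin.sum_univ_seven (fun k => b (τ 5) (τ k)), Equiv.sum_comp τ (fun k => b (τ 5) k)]
    have z4 : b (τ 4) (τ 4) = 0 := by simp [hb]
    have z5 : b (τ 5) (τ 5) = 0 := by simp [hb]
    rw [B4, B5, z4, z5, bsymm (τ 4) (τ 0), bsymm (τ 4) (τ 1), bsymm (τ 4) (τ 2), bsymm (τ 4) (τ 3),
      bsymm (τ 4) (τ 6), bsymm (τ 5) (τ 0), bsymm (τ 5) (τ 1), bsymm (τ 5) (τ 2),
      bsymm (τ 5) (τ 3), bsymm (τ 5) (τ 4), bsymm (τ 5) (τ 6)]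
    linear_combination h1 + (b (τ 6) (τ 4) - b (τ 6) (τ 5)) * h3
  have h5 : ∀ i j k : Fin 7, i ≠ j → i ≠ k → b i j + B j = b i k + B k := by
    intro i j k hij hik
    by_cases hjk : j = k
    · rw [hjk]
    · obtain ⟨d, d1, d2, d3⟩ := fourth i j k
      obtain ⟨τ, t1, t2, t3, -⟩ := ex_perm4 (inj4 hij hik (Ne.symm d1) hjk (Ne.symm d2) (Ne.symm d3))
      have e1 : (swap 0 6 * swap 1 4 * swap 2 5 : Perm (Fin 7)) 6 = 0 := by decide
      have e2 : (swap 0 6 * swap 1 4 * swap 2 5 : Perm (Fin 7)) 4 = 1 := by decide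
      have e3 : (swap 0 6 * swap 1 4 * swap 2 5 : Perm (Fin 7)) 5 = 2 := by decide
      have := h4 (τ * (swap 0 6 * swap 1 4 * swap 2 5))
      rw [Perm.mul_apply τ _ 6, Perm.mul_apply τ _ 4, Perm.mul_apply τ _ 5, e1, e2, e3, t1, t2,
        t3] at this
      exact this
  set c : Fin 7 → ZMod 3 := fun i => b i (if i = 0 then 1 else 0) + B (if i = 0 then 1 else 0) with hc
  have h6 : ∀ i j : Fin 7, i ≠ j → b i j = c i - B j := by
    intro i j hij
    have h0 : i ≠ (if i = 0 then 1 else 0) := by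
      by_cases h : i = 0
      · subst h; decide
      · rw [if_neg h]; exact h
    have := h5 i j _ hij h0
    simp only [hc]
    linear_combination this
  have h2 : 2 * f V = 0 := by
    have e1 : f V = ∑ i, ∑ j, V i j * β i j := lin_exp f V
    have e2 : f V = ∑ i, ∑ j, V j i * β j i := by
      rw [e1, Finset.sum_comm]
    have e3 : 2 * f V = ∑ i, ∑ j, V i j * (c i - B j) := by
      rw [two_mul]
      nth_rewrite 1 [e1]
      rw [e2, ← Finset.sum_add_distrib]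
      refine Finset.sum_congr rfl (fun i _ => ?_)
      rw [← Finset.sum_add_distrib]
      refine Finset.sum_congr rfl (fun j _ => ?_)
      by_cases hij : i = j
      · subst hij; rw [hd]; ring
      · rw [← h6 i j hij, hs j i]; simp only [hb, if_neg hij]; ring
    have e4 : ∑ i, ∑ j, V i j * (c i - B j) = ∑ i, (∑ j, V i j) * c i - ∑ j, (∑ i, V i j) * B j := by
      simp only [Finset.sum_mul]
      rw [Finset.sum_comm (f := fun j i => V i j * B j), ← Finset.sum_sub_distrib]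
      refine Finset.sum_congr rfl (fun i _ => ?_)
      rw [← Finset.sum_sub_distrib]
      refine Finset.sum_congr rfl (fun j _ => ?_)
      ring
    have e5 : ∀ j, ∑ i, V i j = 0 := by
      intro j
      rw [← hr j]
      exact Finset.sum_congr rfl (fun i _ => hs i j)
    rw [e3, e4]
    simp [hr, e5]
  linear_combination (-1) * h2 + (f V) * h3

/-- The main linear algebra statement. -/
theorem LA_main (P : Submodule (ZMod 3) (M7 × M7))
    (hperm : ∀ π, ∀ x ∈ P, pa π x ∈ P) (hgood : ∀ x ∈ P, Good x)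
    (L : (M7 × M7) →ₗ[ZMod 3] ZMod 3)
    (hL : ∀ σ, ∀ x ∈ P, L (pa σ (EE 0 1 2 3 x)) = 0) (x : M7 × M7) (hx : x ∈ P) : L x = 0 := by
  have h1 := partA P hperm hgood L hL x hx
  have h2 : L (0, x.2) = 0 := by
    by_cases h : ∃ σ, L (pa σ (0, Zd ζ)) ≠ 0
    · obtain ⟨σ, hσ⟩ := h
      exact partB2 P hperm hgood L hL σ hσ x hx
    · push Not at h
      have hg := hgood x hx
      refine partB3 (L ∘ₗ LinearMap.inr (ZMod 3) M7 M7) ?_ x.2 hg.symm hg.diag' hg.row'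
      intro σ
      have h3 := h σ
      have h4 : pa σ (0, Zd ζ) = LinearMap.inr (ZMod 3) M7 M7 (act σ (Zd ζ)) := by
        refine Prod.ext ?_ rfl
        simp [pa_fst]
      rw [h4] at h3
      exact h3
  have h3 : x = (x.1, 0) + (0, x.2) := by
    refine Prod.ext ?_ ?_ <;> simp
  rw [h3, map_add, h1, h2, add_zero]

end Pool.Agent.Lib.MP_e8899b_al
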