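import Pool.Agent.Lib.MP_e8899b_al.Struct3

/-! The structure of the functionals of degree seven, part 4. -/

namespace Pool.Agent.Lib.MP_e8899b_al

open Finset

lemma y4_solve (y : ℕ → ℕ → ZMod 3) (hs : ∀ i j, y i j = y j i)
    (h4 : ∀ r s t u : ℕ, [r, s, t, u].Nodup → r < 7 → s < 7 → t < 7 → u < 7 →
      y r t - y s t - y r u + y s u = 0) :
    ∃ r : ℕ → ZMod 3, ∀ i < 7, ∀ j < 7, i ≠ j → y i j = r i + r j := by
  set r0 : ZMod 3 := -(y 0 1 + y 0 2 - y 1 2) with hr0
  have h3 := three_zero
  -- the differences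
  have hD : ∀ i < 7, ∀ j < 7, ∀ k < 7, i ≠ 0 → j ≠ 0 → k ≠ 0 → i ≠ j → i ≠ k →
      y 0 j - y i j = y 0 k - y i k := by
    intro i hi j hj k hk i0 j0 k0 hij hik
    by_cases hjk : j = k
    · rw [hjk]
    · have := h4 0 i j k (by simp; omega) (by omega) hi hj hk
      linear_combination this
  have hD2 : ∀ i < 7, ∀ j < 7, i ≠ 0 → j ≠ 0 → i ≠ j → y 0 i + y 0 j - y i j = -r0 := by
    intro i hi j hj i0 j0 hij
    have h12 : y 0 1 + y 0 2 - y 1 2 = -r0 := by rw [hr0]; ring
    by_cases i1 : i = 1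
    · subst i1
      have := hD 1 hi j hj 2 (by omega) (by omega) j0 (by omega) hij (by omega)
      linear_combination h12 + this
    · have e1 := hD i hi j hj 1 (by omega) i0 j0 (by omega) hij i1
      have e2 := hD 1 (by omega) i hi 2 (by omega) (by omega) i0 (by omega) (Ne.symm i1) (by omega)
      have e3 := hs i 1
      linear_combination h12 + e1 + e2 - e3
  refine ⟨fun j => if j = 0 then r0 else y 0 j - r0, fun i hi j hj hij => ?_⟩
  by_cases i0 : i = 0
  · subst i0
    have j0 : j ≠ 0 := Ne.symm hij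
    simp only [if_true, if_neg j0]; ring
  · by_cases j0 : j = 0
    · subst j0
      simp only [if_true, if_neg i0]; rw [hs i 0]; ring
    · simp only [if_neg i0, if_neg j0]
      have := hD2 i hi j hj i0 j0 hij
      linear_combination -this + r0 * h3

lemma eta4_solve (V : ℕ → ℕ → ZMod 3)
    (h4 : ∀ r s t u : ℕ, [r, s, t, u].Nodup → r < 7 → s < 7 → t < 7 → u < 7 →
      BB V r s t u = 0) :
    ∃ ρ : ℕ → ZMod 3, ∀ i < 7, ∀ j < 7, i ≠ j → V i j - V j i = ρ i - ρ j := by
  have h3 := three_zero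
  refine ⟨fun i => V i 0 - V 0 i, fun i hi j hj hij => ?_⟩
  by_cases i0 : i = 0
  · subst i0; ring
  · by_cases j0 : j = 0
    · subst j0; ring
    · have : ∃ d, d < 7 ∧ d ≠ 0 ∧ d ≠ i ∧ d ≠ j := by
        obtain ⟨m, hm, hlen⟩ := exists_compl [0, i, j] (by simp; omega) (by simp; omega)
        have hlen' : m.length = 4 := by simp at hlen; omega
        match m, hlen' with
        | [m1, m2, m3, m4], _ =>
          refine ⟨m1, ?_, ?_⟩
          · have : ∀ x ∈ L7, x < 7 := by decide
            exact this m1 (hm.mem_iff.1 (by simp))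
          · have hnd := hm.nodup_iff.2 (by decide)
            simp at hnd
            omega
      obtain ⟨d, hd, d0, di, dj⟩ := this
      -- a→b→c→d→a : (a,c;b,d)
      have q1 := h4 0 j i d (by simp; omega) (by omega) hj hi hd
      have q2 := h4 i 0 j d (by simp; omega) hi (by omega) hj hd
      have q3 := h4 j i 0 d (by simp; omega) hj hi (by omega) hd
      unfold BB at q1 q2 q3
      linear_combination 2 * q1 + 2 * q2 + 2 * q3 -
        ((V 0 i - V i 0) + (V i j - V j i) + (V j 0 - V 0 j)) * h3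

lemma zrs_shift {U : ℕ → ℕ → ZMod 3} (hU : Zrs U) (r : ℕ → ZMod 3) :
    Zrs (fun i j => if i = j then 0 else U i j - r i) := by
  refine ⟨fun i _ => by simp, fun i hi => ?_⟩
  have e : ∀ j ∈ range 7, (if i = j then 0 else U i j - r i) =
      (U i j - r i) + (if i = j then r i else 0) := by
    intro j _
    by_cases h : i = j
    · subst h; simp [hU.1 i hi]
    · simp [h]
  rw [Finset.sum_congr rfl e, Finset.sum_add_distrib, Finset.sum_sub_distrib, hU.2 i hi,
    Finset.sum_ite_eq, if_pos (Finset.mem_range.2 hi)]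
  simp only [Finset.sum_const, Finset.card_range, nsmul_eq_mul, Nat.cast_ofNat]
  have h3 := three_zero
  linear_combination (-2 * r i) * h3

/-- The structure theorem. -/
theorem exists_str {F : List ℕ → ZMod 3} (hF : SH F) :
    ∃ U V : ℕ → ℕ → ZMod 3, Zrs U ∧ Zrs V ∧ (∀ i < 7, ∀ j < 7, U i j = - U j i) ∧
      (∀ i < 7, ∀ j < 7, V i j = V j i) ∧ Str F U V := by
  obtain ⟨U, V, hU, hV, hS⟩ := exists_str0 hF
  obtain ⟨r, hr⟩ := y4_solve (fun i j => U i j + U j i) (fun i j => add_comm _ _) (by
    intro r s t u hnd hr hs ht hu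
    exact hS.y4 hF hnd hr hs ht hu)
  obtain ⟨ρ, hρ⟩ := eta4_solve V (by
    intro r s t u hnd hr hs ht hu
    exact hS.eta4 hF hnd hr hs ht hu)
  have h3 := three_zero
  refine ⟨fun i j => if i = j then 0 else U i j - r i, fun i j => if i = j then 0 else V i j - ρ i,
    zrs_shift hU r, zrs_shift hV ρ, ?_, ?_, ?_⟩
  · intro i hi j hj
    by_cases h : i = j
    · simp [h]
    · simp only [if_neg h, if_neg (Ne.symm h)]
      have := hr i hi j hj h
      linear_combination this
  · intro i hi j hj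
    by_cases h : i = j
    · simp [h]
    · simp only [if_neg h, if_neg (Ne.symm h)]
      have := hρ i hi j hj h
      linear_combination this
  · intro z0 z1 z2 z3 z4 z5 z6 hz
    have hnd : [z0, z1, z2, z3, z4, z5, z6].Nodup := hz.nodup_iff.2 (by decide)
    have n4 : z0 ≠ z4 := by
      intro h; subst h; simp at hnd
    have n5 : z0 ≠ z5 := by
      intro h; subst h; simp at hnd
    have n6 : z0 ≠ z6 := by
      intro h; subst h; simp at hnd
    rw [hS _ _ _ _ _ _ _ hz]
    simp only [if_neg n4, if_neg n5, if_neg n6]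
    linear_combination (sgz [z0, z1, z2, z3, z4, z5, z6] * r z0) * h3

end Pool.Agent.Lib.MP_e8899b_al
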