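import Pool.Agent.Lib.MP_e8899b_al.Magnus
import Pool.Agent.Lib.MP_e8899b_al.Struct4

/-! The functional on the sixth term of the lower central series. -/

namespace Pool.Agent.Lib.MP_e8899b_al

open Equiv

/-- the word of a permutation -/
def lw {n : ℕ} (z : Perm (Fin n)) : List ℕ := List.ofFn (fun k => (z k : ℕ))

lemma lw_length {n : ℕ} (z : Perm (Fin n)) : (lw z).length = n := by simp [lw]

lemma lw_perm {n : ℕ} (z : Perm (Fin n)) : (lw z).Perm (List.range n) := by
  rw [List.perm_ext_iff_of_nodup]
  · intro a
    simp only [lw, List.mem_ofFn, List.mem_range]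
    constructor
    · rintro ⟨k, rfl⟩; exact (z k).2
    · intro h; exact ⟨z.symm ⟨a, h⟩, by simp⟩
  · exact List.nodup_ofFn.2 (fun i j h => z.injective (Fin.ext h))
  · exact List.nodup_range

lemma lw_inj {n : ℕ} {z z' : Perm (Fin n)} (h : lw z = lw z') : z = z' := by
  have := List.ofFn_injective h
  ext k
  exact congrFun this k

lemma exists_lw {n : ℕ} {w : List ℕ} (h : w.Perm (List.range n)) : ∃ z : Perm (Fin n), lw z = w := by
  have hlen : w.length = n := by simpa using h.length_eq
  have hnd : w.Nodup := h.nodup_iff.2 List.nodup_range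
  subst hlen
  have hlt : ∀ k : Fin w.length, w[(k : ℕ)] < w.length := fun k =>
    List.mem_range.1 (h.mem_iff.1 (List.getElem_mem _))
  let f : Fin w.length → Fin w.length := fun k => ⟨w[(k : ℕ)], hlt k⟩
  have hf : Function.Injective f := by
    intro i j hij
    have : w[(i : ℕ)] = w[(j : ℕ)] := congrArg Fin.val hij
    exact Fin.ext ((List.Nodup.getElem_inj_iff hnd).1 this)
  refine ⟨Equiv.ofBijective f (Finite.injective_iff_bijective.1 hf), ?_⟩
  unfold lw
  apply List.ext_getElem
  · simp
  · intro i h1 h2
    simp [f]

/-- extension of a permutation to the natural numbers -/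
def zx {n : ℕ} (z : Perm (Fin n)) (a : ℕ) : ℕ := if h : a < n then (z ⟨a, h⟩ : ℕ) else a

lemma zx_inj {n : ℕ} (z : Perm (Fin n)) : Function.Injective (zx z) := by
  intro a b h
  unfold zx at h
  by_cases ha : a < n
  · by_cases hb : b < n
    · rw [dif_pos ha, dif_pos hb] at h
      have := z.injective (Fin.ext h)
      simpa using this
    · rw [dif_pos ha, dif_neg hb] at h
      exact absurd (h ▸ (z ⟨a, ha⟩).2) hb
  · by_cases hb : b < n
    · rw [dif_neg ha, dif_pos hb] at h
      exact absurd (h ▸ (z ⟨b, hb⟩).2 : a < n) ha
    · rw [dif_neg ha, dif_neg hb] at h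
      exact h

/-- value of the coefficient function -/
def CC (z : Perm (Fin 6)) : ZMod 3 := ((CfN (lw z) : ℕ) : ZMod 3)

/-- the functional -/
def Lam (v : FreeGroup ℕ) : ZMod 3 :=
  ∑ z : Perm (Fin 6), (if z 5 = 5 then CC z else 0) * mag (zx_inj z) (ZMod 3) 0 6 v

lemma Lam_topHom : TopHom 6 Lam := by
  constructor
  · intro a ha b hb
    unfold Lam
    rw [← Finset.sum_add_distrib]
    refine Finset.sum_congr rfl (fun z _ => ?_)
    rw [(mag_topHom (zx_inj z) 0 (by norm_num)).add a ha b hb, mul_add]
  · intro a ha
    unfold Lam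
    refine Finset.sum_eq_zero (fun z _ => ?_)
    rw [(mag_topHom (zx_inj z) 0 (by norm_num)).van a ha, mul_zero]

/-- exponent sum modulo three -/
def eps (j : ℕ) (g : FreeGroup ℕ) : ZMod 3 := (ee (ZMod 3) j g).toAdd

lemma eps_mul (j : ℕ) (g h : FreeGroup ℕ) : eps j (g * h) = eps j g + eps j h := by
  simp [eps]

lemma eps_of (i j : ℕ) : eps j (FreeGroup.of i) = if i = j then 1 else 0 := ee_of i j

lemma eps_one (j : ℕ) : eps j 1 = 0 := by simp [eps]

lemma eps_inv (j : ℕ) (g : FreeGroup ℕ) : eps j g⁻¹ = - eps j g := by simp [eps]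

lemma prf_of (R : Type*) [CommRing R] (z : ℕ → ℕ) (a : ℕ) (w : List ℕ) :
    prf R z a (w.map FreeGroup.of) =
      if w = (List.range w.length).map (fun i => z (a + i)) then 1 else 0 := by
  induction w generalizing a with
  | nil => simp [prf]
  | cons x w ih =>
    rw [List.map_cons, prf, ih, ee_of, List.length_cons, List.range_succ_eq_map, List.map_cons,
      List.map_map]
    have e : (fun i => z (a + i)) ∘ Nat.succ = fun i => z (a + 1 + i) := by
      funext i; simp [Nat.succ_eq_add_one, add_assoc, add_comm 1]
    rw [e]
    have hiff : (x :: w = z (a + 0) :: (List.range w.length).map (fun i => z (a + 1 + i))) ↔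
        (x = z a ∧ w = (List.range w.length).map (fun i => z (a + 1 + i))) := by
      rw [List.cons.injEq, Nat.add_zero]
    by_cases h1 : x = z a
    · by_cases h2 : w = (List.range w.length).map (fun i => z (a + 1 + i))
      · rw [if_pos h1, if_pos h2, if_pos (hiff.2 ⟨h1, h2⟩), one_mul]
      · rw [if_neg h2, if_neg (fun h => h2 (hiff.1 h).2), mul_zero]
    · rw [if_neg h1, if_neg (fun h => h1 (hiff.1 h).1), zero_mul]

lemma mag_word {n : ℕ} (R : Type*) [CommRing R] (z : Perm (Fin n)) (w : List ℕ)
    (hw : w.length = n) (hn : n ≠ 0) :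
    mag (zx_inj z) R 0 n (cc (w.map FreeGroup.of)) =
      ex w (fun u => if u = lw z then (1 : R) else 0) := by
  have hne : w.map (FreeGroup.of : ℕ → FreeGroup ℕ) ≠ [] := by
    intro h
    rw [List.map_eq_nil_iff] at h
    subst h
    exact hn hw.symm
  have h1 := mag_cc (R := R) (zx_inj z) (w.map FreeGroup.of) hne 0
  rw [List.length_map, hw] at h1
  rw [h1, ex_map]
  refine ex_congr _ _ _ (fun u hu => ?_)
  have hul : u.length = n := hu.length_eq.trans hw
  rw [prf_of]
  have : (List.range u.length).map (fun i => zx z (0 + i)) = lw z := by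
    rw [hul]
    unfold lw
    apply List.ext_getElem
    · simp
    · intro i h1 h2
      simp only [List.length_map, List.length_range] at h1
      simp [zx, h1]
  rw [this]

lemma ex_last {α A : Type*} [AddCommGroup A] (x : α) (w : List α) (hx : x ∉ w) (Φ : List α → A)
    (hΦ : ∀ u : List α, ∀ y, y ≠ x → Φ (u ++ [y]) = 0) : ex (w ++ [x]) Φ = Φ (w ++ [x]) := by
  induction w generalizing Φ with
  | nil => rfl
  | cons a w ih =>
    rw [List.cons_append, ex_cons _ (by simp)]
    have hax : a ≠ x := fun h => hx (by simp [h])
    rw [ih (fun h => hx (List.mem_cons_of_mem _ h)) (fun u => Φ (a :: u)) (by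
      intro u y hy
      have := hΦ (a :: u) y hy
      rwa [List.cons_append] at this)]
    have : ex (w ++ [x]) (fun u => Φ (u ++ [a])) = 0 := by
      have h1 : ∀ u : List α, u.Perm (w ++ [x]) → Φ (u ++ [a]) = 0 := fun u _ => hΦ u a hax
      rw [ex_congr _ _ (fun _ => 0) h1, ex_zero]
    rw [this, sub_zero]

/-- value on a right-normed commutator of generators -/
def Lw (w : List ℕ) : ZMod 3 := Lam (cc (w.map FreeGroup.of))

lemma range6 : List.range 6 = L6 := rfl

lemma Lw_eq_sum {w : List ℕ} (hw : w.length = 6) :
    Lw w = ∑ z : Perm (Fin 6), (if z 5 = 5 then CC z else 0) *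
      ex w (fun u => if u = lw z then (1 : ZMod 3) else 0) := by
  unfold Lw Lam
  refine Finset.sum_congr rfl (fun z _ => ?_)
  rw [mag_word (ZMod 3) z w hw (by norm_num)]

lemma Lw_not_perm {w : List ℕ} (hw : w.length = 6) (hp : ¬ w.Perm L6) : Lw w = 0 := by
  rw [Lw_eq_sum hw]
  refine Finset.sum_eq_zero (fun z _ => ?_)
  have : ex w (fun u => if u = lw z then (1 : ZMod 3) else 0) = 0 := by
    rw [ex_congr w _ (fun _ => (0 : ZMod 3)), ex_zero]
    intro u hu
    rw [if_neg]
    intro h
    exact hp (hu.symm.trans (h ▸ lw_perm z))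
  rw [this, mul_zero]

lemma lw6_last (z : Perm (Fin 6)) : lw z = [(z 0 : ℕ), z 1, z 2, z 3, z 4, z 5] := by
  simp [lw, List.ofFn_succ]

lemma Lw_end {w : List ℕ} (hw : (w ++ [5]).Perm L6) : Lw (w ++ [5]) = ((CfN (w ++ [5]) : ℕ) : ZMod 3) := by
  obtain ⟨z0, hz0⟩ := exists_lw (n := 6) hw
  have hlen : w.length = 5 := by
    have := hw.length_eq
    simpa using this
  have h5 : (5 : ℕ) ∉ w := by
    have hnd : (w ++ [5]).Nodup := hw.nodup_iff.2 (by decide)
    intro h
    rw [List.nodup_append] at hnd
    exact hnd.2.2 5 h 5 (by simp) rfl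
  have key : ∀ z : Perm (Fin 6), (if z 5 = 5 then CC z else 0) *
      ex (w ++ [5]) (fun u => if u = lw z then (1 : ZMod 3) else 0) =
      if z = z0 then CC z0 else 0 := by
    intro z
    by_cases hz : z 5 = 5
    · rw [if_pos hz, ex_last 5 w h5]
      · by_cases h : z = z0
        · subst h
          rw [if_pos hz0.symm, if_pos rfl, mul_one]
        · rw [if_neg h, if_neg, mul_zero]
          intro hc
          exact h (lw_inj (hc.symm.trans hz0.symm))
      · intro u y hy
        rw [if_neg]
        intro hc
        rw [lw6_last, hz] at hc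
        have h1 := congrArg List.getLast? hc
        rw [List.getLast?_append] at h1
        simp at h1
        exact hy h1
    · have hne : z ≠ z0 := by
        rintro rfl
        apply hz
        rw [lw6_last] at hz0
        have h1 := congrArg List.getLast? hz0
        rw [List.getLast?_append] at h1
        simp at h1
        exact Fin.ext h1
      rw [if_neg hz, if_neg hne, zero_mul]
  rw [Lw_eq_sum (by simp [hlen]), Finset.sum_congr rfl (fun z _ => key z), Finset.sum_ite_eq',
    if_pos (Finset.mem_univ _), CC, hz0]

lemma Lw_eq {w : List ℕ} (hw : w.Perm L6) : Lw w = ((CfN w : ℕ) : ZMod 3) := by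
  have h5 : 5 ∈ w := hw.mem_iff.2 (by decide)
  obtain ⟨p, l, rfl⟩ := List.append_of_mem h5
  by_cases hl : l = []
  · subst hl; exact Lw_end hw
  · have hlen : p.length + 1 + l.length = 6 := by
      have := hw.length_eq
      simp at this; omega
    have hf : TopHom ((p.map (FreeGroup.of : ℕ → FreeGroup ℕ)).length + 1 +
        (l.map (FreeGroup.of : ℕ → FreeGroup ℕ)).length) Lam := by
      rw [List.length_map, List.length_map, hlen]; exact Lam_topHom
    have h1 := TopHom.cc_move (f := Lam) (p.map FreeGroup.of) (FreeGroup.of 5) (l.map FreeGroup.of)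
      (by simpa using hl) hf
    have h2 : Lw (p ++ 5 :: l) = - ex l (fun u => Lw (p ++ u ++ [5])) := by
      unfold Lw
      rw [List.map_append, List.map_cons, h1, ex_map]
      simp only [List.map_append, List.map_cons, List.map_nil]
    have hperm : (p ++ l).Perm [0, 1, 2, 3, 4] := by
      have h3 : (5 :: (p ++ l)).Perm (5 :: [0, 1, 2, 3, 4]) := by
        refine (List.perm_middle.symm.trans hw).trans ?_
        decide
      exact (List.perm_cons 5).1 h3
    have h3 : ex l (fun u => Lw (p ++ u ++ [5])) =
        ex l (fun u => ((CfN (p ++ u ++ [5]) : ℕ) : ZMod 3)) := by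
      apply ex_congr
      intro u hu
      apply Lw_end
      have h4 : (p ++ u ++ [5]).Perm (p ++ 5 :: l) := by
        have : (p ++ u ++ [5]).Perm (p ++ l ++ [5]) := (hu.append_left p).append_right [5]
        refine this.trans ?_
        rw [List.append_assoc]
        exact List.Perm.append_left p (List.perm_append_comm)
      exact h4.trans hw
    have hcheck := LF_check
    rw [List.all_eq_true] at hcheck
    have h4 := hcheck (p ++ l) (List.mem_permutations'.2 hperm)
    rw [List.all_eq_true] at h4
    have hk : p.length ∈ [0, 1, 2, 3, 4] := by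
      have : l.length ≠ 0 := fun h => hl (List.length_eq_zero_iff.1 h)
      have : p.length < 5 := by omega
      interval_cases p.length <;> decide
    have h5 := Nat.eq_of_beq_eq_true (h4 _ hk)
    rw [List.take_left' rfl, List.drop_left' rfl] at h5
    have h6 : (((CfN (p ++ 5 :: l) + exN l (fun w => CfN (p ++ w ++ [5])) : ℕ)) : ZMod 3) = 0 := by
      rw [ZMod.natCast_eq_zero_iff]
      exact Nat.dvd_of_mod_eq_zero h5
    rw [Nat.cast_add, exN_cast] at h6
    rw [h2, h3]
    linear_combination (-1) * h6

/-- induction on generators for functions additive in every slot -/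
lemma multi_zero {n : ℕ} {A : Type*} [AddCommGroup A] (H : (Fin n → FreeGroup ℕ) → A)
    (hH : ∀ g k a b, H (Function.update g k (a * b)) =
      H (Function.update g k a) + H (Function.update g k b))
    (h0 : ∀ j : Fin n → ℕ, H (fun k => FreeGroup.of (j k)) = 0) (g : Fin n → FreeGroup ℕ) :
    H g = 0 := by
  have h1 : ∀ g k, H (Function.update g k 1) = 0 := by
    intro g k
    have := hH g k 1 1
    rw [one_mul] at this
    exact left_eq_add.1 this
  have hinv : ∀ g k a, H (Function.update g k a⁻¹) = - H (Function.update g k a) := by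
    intro g k a
    have := hH g k a a⁻¹
    rw [mul_inv_cancel, h1] at this
    exact (neg_eq_of_add_eq_zero_right this.symm).symm
  have key : ∀ S : Finset (Fin n), ∀ g : Fin n → FreeGroup ℕ,
      (∀ k, k ∉ S → ∃ j, g k = FreeGroup.of j) → H g = 0 := by
    intro S
    induction S using Finset.induction_on with
    | empty =>
      intro g hg
      choose j hj using fun k => hg k (Finset.notMem_empty k)
      have : g = fun k => FreeGroup.of (j k) := funext hj
      rw [this]; exact h0 j
    | insert k S hk ih =>
      intro g hg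
      have h2 : ∀ a : FreeGroup ℕ, H (Function.update g k a) = 0 := by
        intro a
        induction a using FreeGroup.induction_on with
        | C1 => exact h1 g k
        | of j =>
          apply ih
          intro m hm
          by_cases hmk : m = k
          · subst hmk; exact ⟨j, by simp⟩
          · rw [Function.update_of_ne hmk]
            exact hg m (by simp [hmk, hm])
        | inv_of j h => rw [hinv, h, neg_zero]
        | mul x y hx hy => rw [hH, hx, hy, add_zero]
      have := h2 (g k)
      rwa [Function.update_eq_self] at this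
  exact key Finset.univ g (fun k hk => absurd (Finset.mem_univ k) hk)

lemma cc_update {n : ℕ} {A : Type*} [AddCommGroup A] {f : FreeGroup ℕ → A} (hf : TopHom n f)
    (g : Fin n → FreeGroup ℕ) (k : Fin n) (a b : FreeGroup ℕ) :
    f (cc (List.ofFn (Function.update g k (a * b)))) =
      f (cc (List.ofFn (Function.update g k a))) + f (cc (List.ofFn (Function.update g k b))) := by
  have e : ∀ x, List.ofFn (Function.update g k x) =
      (List.ofFn g).take k ++ x :: (List.ofFn g).drop (k + 1) := by
    intro x
    apply List.ext_getElem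
    · simp; omega
    · intro i h1 h2
      simp only [List.getElem_ofFn, List.getElem_append, List.length_take, List.length_ofFn,
        List.getElem_take, List.getElem_cons, List.getElem_drop]
      simp only [List.length_ofFn] at h1
      by_cases hik : i = k
      · subst hik
        have : ¬ (k : ℕ) < min (k : ℕ) n := by omega
        rw [dif_neg this]
        have : (k : ℕ) - min (k : ℕ) n = 0 := by omega
        simp
      · by_cases hlt : i < k
        · rw [dif_pos (by omega), Function.update_of_ne]
          intro h; apply hik; rw [← h]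
        · rw [dif_neg (by omega), dif_neg (by omega), Function.update_of_ne]
          · congr 1
            ext
            simp; omega
          · intro h; apply hik; rw [← h]
  rw [e, e, e]
  apply TopHom.cc_mul
  have : ((List.ofFn g).take k).length + 1 + ((List.ofFn g).drop (k + 1)).length = n := by
    rw [List.length_take, List.length_drop, List.length_ofFn]; omega
  rw [this]; exact hf

lemma Lam_cc (g : Fin 6 → FreeGroup ℕ) :
    Lam (cc (List.ofFn g)) = ∑ l : Perm (Fin 6), CC l * ∏ k, eps (l k) (g k) := by
  have := multi_zero (fun g : Fin 6 → FreeGroup ℕ =>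
    Lam (cc (List.ofFn g)) - ∑ l : Perm (Fin 6), CC l * ∏ k, eps (l k) (g k)) ?_ ?_ g
  · exact sub_eq_zero.1 this
  · intro g k a b
    have e : ∀ (l : Perm (Fin 6)) x, ∏ m, eps (l m) (Function.update g k x m) =
        eps (l k) x * ∏ m ∈ Finset.univ \ {k}, eps (l m) (g m) := by
      intro l x
      have : (fun m => eps (l m) (Function.update g k x m)) =
          Function.update (fun m => eps (l m) (g m)) k (eps (l k) x) := by
        funext m
        by_cases hm : m = k
        · subst hm; simp
        · simp [Function.update_of_ne hm]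
      rw [this, Finset.prod_update_of_mem (Finset.mem_univ k)]
    simp only [e, eps_mul]
    rw [cc_update Lam_topHom]
    have : ∀ l : Perm (Fin 6), CC l * ((eps (l k) a + eps (l k) b) *
        ∏ m ∈ Finset.univ \ {k}, eps (l m) (g m)) =
        CC l * (eps (l k) a * ∏ m ∈ Finset.univ \ {k}, eps (l m) (g m)) +
        CC l * (eps (l k) b * ∏ m ∈ Finset.univ \ {k}, eps (l m) (g m)) := by
      intro l; ring
    rw [Finset.sum_congr rfl (fun l _ => this l), Finset.sum_add_distrib]
    ring
  · intro j
    have e1 : List.ofFn (fun k => (FreeGroup.of (j k) : FreeGroup ℕ)) = (List.ofFn j).map FreeGroup.of := by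
      rw [List.map_ofFn]; rfl
    rw [e1]
    change Lw (List.ofFn j) - _ = 0
    have e2 : ∀ l : Perm (Fin 6), ∏ k, eps (l k) (FreeGroup.of (j k)) =
        if lw l = List.ofFn j then 1 else 0 := by
      intro l
      by_cases h : lw l = List.ofFn j
      · rw [if_pos h]
        have h2 := List.ofFn_injective h
        refine Finset.prod_eq_one (fun k _ => ?_)
        rw [eps_of, if_pos (congrFun h2 k).symm]
      · rw [if_neg h]
        have : ∃ k, (l k : ℕ) ≠ j k := by
          by_contra hc
          push Not at hc
          exact h (congrArg List.ofFn (funext hc))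
        obtain ⟨k, hk⟩ := this
        refine Finset.prod_eq_zero (Finset.mem_univ k) ?_
        rw [eps_of, if_neg (Ne.symm hk)]
    simp only [e2]
    by_cases hp : (List.ofFn j).Perm L6
    · obtain ⟨z, hz⟩ := exists_lw (n := 6) hp
      rw [Lw_eq hp, Finset.sum_eq_single z]
      · rw [if_pos hz, mul_one, CC, hz, sub_self]
      · intro l _ hl
        rw [if_neg (fun h => hl (lw_inj (h.trans hz.symm))), mul_zero]
      · intro h; exact absurd (Finset.mem_univ z) h
    · rw [Lw_not_perm (by simp) hp, zero_sub, neg_eq_zero]
      refine Finset.sum_eq_zero (fun l _ => ?_)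
      rw [if_neg, mul_zero]
      intro h
      exact hp (h ▸ lw_perm l)

end Pool.Agent.Lib.MP_e8899b_al
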