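import Pool.Agent.Lib.MP_e8899b_al.Deg6

/-! The laws of the free group of rank five. -/

namespace Pool.Agent.Lib.MP_e8899b_al

open Equiv
open scoped commutatorElement

lemma exists_quot {n : ℕ} (hn : 1 ≤ n) (K : Subgroup FF) [K.Normal] (hK : gam FF (n + 1) ≤ K) :
    ∃ (A : Type) (_ : AddCommGroup A) (f : FF → A), TopHom n f ∧
      (∀ x ∈ gam FF n, f x = 0 ↔ x ∈ K) ∧ (∀ a : A, ∃ x ∈ gam FF n, f x = a) := by
  classical
  let Q := (gam FF n) ⧸ (K.subgroupOf (gam FF n))
  have hcomm : ∀ a b : Q, a * b = b * a := by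
    intro a b
    induction a using QuotientGroup.induction_on with
    | H a =>
      induction b using QuotientGroup.induction_on with
      | H b =>
        rw [← QuotientGroup.mk_mul, ← QuotientGroup.mk_mul, QuotientGroup.eq,
          Subgroup.mem_subgroupOf]
        have h1 : ⁅(b : FF)⁻¹, (a : FF)⁻¹⁆ ∈ K := by
          apply hK
          refine gam_anti (show n + 1 ≤ n + n by omega) (comm_mem (inv_mem b.2) (inv_mem a.2))
        have h2 : ((a * b)⁻¹ * (b * a) : FF) = ⁅(b : FF)⁻¹, (a : FF)⁻¹⁆ := by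
          simp [commutatorElement_def, mul_assoc]
        have h3 : (((a * b)⁻¹ * (b * a) : gam FF n) : FF) = ((a * b)⁻¹ * (b * a) : FF) := by
          simp
        rw [h3, h2]; exact h1
  let cg : CommGroup Q := { (inferInstance : Group Q) with mul_comm := hcomm }
  let ac : AddCommGroup (Additive Q) := Additive.addCommGroup
  refine ⟨Additive Q, ac, fun x => if h : x ∈ gam FF n then
    Additive.ofMul (QuotientGroup.mk ⟨x, h⟩ : Q) else 0, ⟨?_, ?_⟩, ?_, ?_⟩
  · intro a ha b hb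
    rw [dif_pos ha, dif_pos hb, dif_pos (mul_mem ha hb)]
    rfl
  · intro a ha
    rw [dif_pos (gam_succ_le n ha)]
    have : (QuotientGroup.mk ⟨a, gam_succ_le n ha⟩ : Q) = 1 := by
      rw [QuotientGroup.eq_one_iff, Subgroup.mem_subgroupOf]
      exact hK ha
    rw [this]; rfl
  · intro x hx
    beta_reduce
    rw [dif_pos hx]
    constructor
    · intro h
      have h1 : (QuotientGroup.mk ⟨x, hx⟩ : Q) = 1 := h
      rw [QuotientGroup.eq_one_iff, Subgroup.mem_subgroupOf] at h1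
      exact h1
    · intro h
      have : (QuotientGroup.mk ⟨x, hx⟩ : Q) = 1 := by
        rw [QuotientGroup.eq_one_iff, Subgroup.mem_subgroupOf]
        exact h
      rw [this]; rfl
  · intro a
    obtain ⟨x, hx⟩ := QuotientGroup.mk_surjective (Additive.toMul a)
    refine ⟨x, x.2, ?_⟩
    beta_reduce
    rw [dif_pos x.2]
    exact congrArg Additive.ofMul hx

lemma fiveOn_of_card {T : Finset ℕ} (hT : T.card ≤ 5) (y : ℕ → FF) : FiveOn T y := by
  classical
  have h1 : Fintype.card T ≤ Fintype.card (Fin 5) := by simpa using hT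
  obtain ⟨e⟩ := Function.Embedding.nonempty_of_card_le h1
  refine ⟨fun i => if h : i ∈ T then FreeGroup.of (e ⟨i, h⟩) else 1,
    FreeGroup.lift (fun m => if h : ∃ i : T, e i = m then y (h.choose : ℕ) else 1), fun i hi => ?_⟩
  beta_reduce
  rw [dif_pos hi, FreeGroup.lift_apply_of]
  have h : ∃ j : T, e j = e ⟨i, hi⟩ := ⟨_, rfl⟩
  rw [dif_pos h]
  have := e.injective h.choose_spec
  rw [this]

lemma part_nil {n : ℕ} {v : FF} {L : List (ℤ × List ℕ)} (hL : Rp n v L) {T : Finset ℕ}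
    (hT : n < T.card) : part L T = [] := by
  rw [List.eq_nil_iff_forall_not_mem]
  intro p hp
  obtain ⟨h1, h2⟩ := mem_part.1 hp
  have h3 := List.toFinset_card_le p.2
  rw [h2, hL.1 p h1] at h3
  omega

/-- the commutator subgroup of `Nn` and everything -/
def Kk : Subgroup FF := ⁅Nn, (⊤ : Subgroup FF)⁆

instance Kk_normal : Kk.Normal := by
  unfold Kk; infer_instance

lemma Kk_le : Kk ≤ gam FF 7 := by
  unfold Kk
  rw [show (7 : ℕ) = 5 + 2 from rfl, gam_succ_succ]
  exact Subgroup.commutator_mono Nn_le le_rfl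

lemma gam8_le : gam FF 8 ≤ Kk := by
  unfold Kk
  rw [show (8 : ℕ) = 6 + 2 from rfl, gam_succ_succ]
  exact Subgroup.commutator_mono gam7_le le_rfl

lemma comm_Kk {v : FF} (hv : v ∈ Nn) (g : FF) : ⁅g, v⁆ ∈ Kk := by
  unfold Kk
  rw [Subgroup.commutator_comm]
  exact Subgroup.commutator_mem_commutator (Subgroup.mem_top _) hv

lemma law5_low {v : FF} (h : ∀ (φ : FF →* FreeGroup (Fin 5)) (ψ : FreeGroup (Fin 5) →* FF),
    ψ (φ v) ∈ Kk) {n : ℕ} (h1 : 1 ≤ n) (h6 : n ≤ 6) (hv : v ∈ gam FF n) : v ∈ gam FF (n + 1) := by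
  obtain ⟨A, _, f, hf, hf0, -⟩ := exists_quot h1 (gam FF (n + 1)) le_rfl
  rw [← hf0 v hv]
  obtain ⟨L, hL⟩ := Rp.exists n h1 v hv
  have hzero : ∀ {B : Type} [AddCommGroup B] {g : FF → B}, TopHom n g →
      ∀ (φ : FF →* FreeGroup (Fin 5)) (ψ : FreeGroup (Fin 5) →* FF), g (ψ (φ v)) = 0 := by
    intro B _ g hg φ ψ
    exact hg.van _ (gam_anti (by omega) (Kk_le (h φ ψ)))
  refine eval_zero hL hf (fun T => ?_)
  rcases Nat.lt_or_ge n T.card with hT | hT
  · rw [part_nil hL hT]; rfl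
  rcases Nat.lt_or_ge T.card 6 with hT' | hT'
  · exact W_zero hL hf (hzero hf) T _ (fiveOn_of_card (by omega) _)
  have hn : n = 6 := by omega
  subst hn
  have hT6 : T.card = 6 := by omega
  obtain ⟨c, t, ht, hTt, htT, hc⟩ := list_to_perm T hT6 (part L T) (fun p hp => by
    obtain ⟨h1, h2⟩ := mem_part.1 hp
    exact ⟨hL.1 p h1, h2⟩)
  have h5 : ∀ g : FF → ℤ, TopHom 6 g → ∀ z : Fin 6 → FF, Five z → Hz g c z = 0 := by
    intro g hg z hz
    obtain ⟨φ, ψ, hφ⟩ := hz
    have h2 := W_zero hL hg (hzero hg) T (Function.extend t z (fun _ => 1))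
      ⟨Function.extend t φ (fun _ => 1), ψ, fun i hi => by
        obtain ⟨k, rfl⟩ := hTt i hi
        rw [ht.extend_apply, ht.extend_apply, hφ]⟩
    rw [hc ℤ (fun w => g (cc (w.map (Function.extend t z (fun _ => 1)))))] at h2
    rw [← h2]
    unfold Hz
    refine Finset.sum_congr rfl (fun σ _ => ?_)
    rw [List.map_ofFn, smul_eq_mul]
    congr 4
    funext k
    simp [ht.extend_apply]
  rw [hc A (fun w => f (cc (w.map FreeGroup.of)))]
  have h3 := prop66 h5 hf (fun k => if hk : k < 6 then FreeGroup.of (t ⟨k, hk⟩) else 1)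
  rw [← h3]
  refine Finset.sum_congr rfl (fun σ _ => ?_)
  unfold lw
  rw [List.map_ofFn, List.map_ofFn]
  congr 4
  funext k
  simp

theorem law5_Kk {v : FF} (h : ∀ (φ : FF →* FreeGroup (Fin 5)) (ψ : FreeGroup (Fin 5) →* FF),
    ψ (φ v) ∈ Kk) : v ∈ Kk := by
  have h1 : v ∈ gam FF 1 := Subgroup.mem_top _
  have h2 := law5_low h (by norm_num) (by norm_num) h1
  have h3 := law5_low h (by norm_num) (by norm_num) h2
  have h4 := law5_low h (by norm_num) (by norm_num) h3
  have h5 := law5_low h (by norm_num) (by norm_num) h4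
  have h6 := law5_low h (by norm_num) (by norm_num) h5
  have h7 : v ∈ gam FF 7 := law5_low h (by norm_num) (by norm_num) h6
  by_contra hv
  obtain ⟨A, _, f, hf, hf0, hfs⟩ := exists_quot (n := 7) (by norm_num) Kk gam8_le
  have h3' : ∀ x ∈ gam FF 7, 3 • f x = 0 := by
    intro x hx
    obtain ⟨L, hL⟩ := Rp.exists 7 (by norm_num) x hx
    have hf3 : TopHom 7 (fun x => 3 • f x) := hf.map (nsmulAddMonoidHom 3)
    rw [hL.2 A _ hf3]
    have : ∀ p ∈ L, 3 • f (cc (p.2.map FreeGroup.of)) = 0 := by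
      intro p hp
      have hlen := hL.1 p hp
      obtain ⟨i, l, hil⟩ := List.exists_cons_of_length_pos (show 0 < p.2.length by omega)
      rw [hil] at hlen ⊢
      have hl : l.length = 6 := by simpa using hlen
      rw [List.map_cons, cc_cons _ (by
        intro hc
        rw [List.map_eq_nil_iff] at hc
        rw [hc] at hl; simp at hl)]
      set u : FF := cc (l.map FreeGroup.of) with hu
      have hu6 : u ∈ gam FF 6 := by
        have := cc_mem (l.map (FreeGroup.of : ℕ → FF))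
        rwa [List.length_map, hl] at this
      have h8 := (hf.ad (FreeGroup.of i)).zpow hu6 3
      beta_reduce at h8
      have h9 : f ⁅FreeGroup.of i, u ^ (3 : ℤ)⁆ = 0 := by
        have hm : ⁅FreeGroup.of i, u ^ (3 : ℤ)⁆ ∈ Kk := by
          apply comm_Kk
          have := cube_mem hu6
          exact_mod_cast this
        exact (hf0 _ (Kk_le hm)).2 hm
      rw [h9] at h8
      rw [← natCast_zsmul]
      exact h8.symm
    rw [evw_congr L _ (fun _ => 0) this, evw_zero]
  have hA : ∀ a : A, 3 • a = 0 := by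
    intro a
    obtain ⟨x, hx, rfl⟩ := hfs a
    exact h3' x hx
  let _ : Module (ZMod 3) A := AddCommGroup.zmodModule hA
  have hne : f v ≠ 0 := fun hc => hv ((hf0 v h7).1 hc)
  obtain ⟨ℓ, hℓ⟩ : ∃ ℓ : A →ₗ[ZMod 3] ZMod 3, ℓ (f v) ≠ 0 := by
    by_contra hc
    push Not at hc
    exact hne ((Module.forall_dual_apply_eq_zero_iff (ZMod 3) (f v)).1 hc)
  have hg : TopHom 7 (fun x => ℓ (f x)) := hf.map ℓ.toAddMonoidHom
  have hk : Kil (fun x => ℓ (f x)) := by
    intro w hw g
    have hm := comm_Kk hw g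
    beta_reduce
    rw [(hf0 _ (Kk_le hm)).2 hm, map_zero]
  apply hℓ
  obtain ⟨L, hL⟩ := Rp.exists 7 (by norm_num) v h7
  have hzero : ∀ (φ : FF →* FreeGroup (Fin 5)) (ψ : FreeGroup (Fin 5) →* FF),
      (fun x => ℓ (f x)) (ψ (φ v)) = 0 := by
    intro φ ψ
    have hm := h φ ψ
    beta_reduce
    rw [(hf0 _ (Kk_le hm)).2 hm, map_zero]
  refine eval_zero hL hg (fun T => ?_)
  rcases Nat.lt_or_ge 7 T.card with hT | hT
  · rw [part_nil hL hT]; rfl
  rcases Nat.lt_or_ge T.card 6 with hT' | hT'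
  · exact W_zero hL hg hzero T _ (fiveOn_of_card (by omega) _)
  have hcases : T.card = 6 ∨ T.card = 7 := by omega
  have hpart : ∀ p ∈ part L T, p.2.length = 7 ∧ p.2.toFinset = T := by
    intro p hp
    obtain ⟨h1, h2⟩ := mem_part.1 hp
    exact ⟨hL.1 p h1, h2⟩
  rcases hcases with h8 | h8
  · exact p76L h8 hpart hg hk (fun y hy => W_zero hL hg hzero T y hy) _
  · exact p77L h8 hpart hg hk (fun y hy => W_zero hL hg hzero T y hy) _

end Pool.Agent.Lib.MP_e8899b_al
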