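import Pool.Agent.Lib.MP_e8899b_al.Basic

/-! Multilinear coefficients of the Magnus expansion. -/

namespace Pool.Agent.Lib.MP_e8899b_al

open Subgroup
open scoped commutatorElement

section ring

variable {S : Type*} [Ring S]

lemma ring_id1 (A B : S) : A * B - 1 = (A - 1) * (B - 1) + (A - 1) + (B - 1) := by
  simp only [sub_mul, mul_sub, one_mul, mul_one]; abel

lemma ring_id2 (A B : S) : (A - 1) * (B - 1) - (B - 1) * (A - 1) = A * B - B * A := by
  simp only [sub_mul, mul_sub, one_mul, mul_one]; abel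

lemma ring_id3 (C W : S) : C * W = C + C * (W - 1) := by
  simp only [mul_sub, mul_one]; abel

lemma ring_id4 (A B : S) (h : A * B = 1) : B - 1 = (-(A - 1)) * B := by
  rw [neg_mul, sub_mul, h, one_mul]; abel

end ring

section ops

variable (R : Type*) [CommRing R]

/-- operators on functions `ℕ → R` -/
abbrev Op := Module.End R (ℕ → R)

/-- the operator of the letter `j` -/
def Xop (z : ℕ → ℕ) (j : ℕ) : Op R where
  toFun := fun φ a => if z a = j then φ (a + 1) else 0
  map_add' := by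
    intro φ ψ; funext a; by_cases h : z a = j <;> simp [h]
  map_smul' := by
    intro c φ; funext a; by_cases h : z a = j <;> simp [h]

variable {R}

lemma Xop_apply (z : ℕ → ℕ) (j : ℕ) (φ : ℕ → R) (a : ℕ) :
    Xop R z j φ a = if z a = j then φ (a + 1) else 0 := rfl

lemma Xop_sq {z : ℕ → ℕ} (hz : Function.Injective z) (j : ℕ) : Xop R z j * Xop R z j = 0 := by
  ext φ a
  simp only [Module.End.mul_apply, Xop_apply, LinearMap.zero_apply, Pi.zero_apply]
  by_cases h : z a = j
  · by_cases h2 : z (a + 1) = j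
    · exact absurd (hz (h.trans h2.symm)) (by omega)
    · simp [h2]
  · simp [h]

/-- the unit `1 + X_j` -/
def Uop (R : Type*) [CommRing R] {z : ℕ → ℕ} (hz : Function.Injective z) (j : ℕ) : (Op R)ˣ where
  val := 1 + Xop R z j
  inv := 1 - Xop R z j
  val_inv := by
    rw [add_mul, mul_sub, mul_sub, Xop_sq hz]; simp
  inv_val := by
    rw [sub_mul, mul_add, mul_add, Xop_sq hz]; simp

/-- the Magnus representation -/
def rho (R : Type*) [CommRing R] {z : ℕ → ℕ} (hz : Function.Injective z) :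
    FreeGroup ℕ →* (Op R)ˣ := FreeGroup.lift (Uop R hz)

/-- `A φ a` only depends on the values `φ b` with `b ≥ a + m` -/
def Dl (m : ℕ) (A : Op R) : Prop := ∀ (a : ℕ) (φ : ℕ → R), (∀ b, a + m ≤ b → φ b = 0) → A φ a = 0

lemma Dl.mono {m m' : ℕ} (h : m ≤ m') {A : Op R} (hA : Dl m' A) : Dl m A :=
  fun a φ hφ => hA a φ (fun b hb => hφ b (by omega))

lemma Dl.add {m : ℕ} {A B : Op R} (hA : Dl m A) (hB : Dl m B) : Dl m (A + B) :=
  fun a φ hφ => by simp [hA a φ hφ, hB a φ hφ]

lemma Dl.sub {m : ℕ} {A B : Op R} (hA : Dl m A) (hB : Dl m B) : Dl m (A - B) :=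
  fun a φ hφ => by simp [hA a φ hφ, hB a φ hφ]

lemma Dl.neg {m : ℕ} {A : Op R} (hA : Dl m A) : Dl m (-A) :=
  fun a φ hφ => by simp [hA a φ hφ]

lemma Dl.mul {m k : ℕ} {A B : Op R} (hA : Dl m A) (hB : Dl k B) : Dl (m + k) (A * B) := by
  intro a φ hφ
  rw [Module.End.mul_apply]
  refine hA a _ (fun b hb => hB b φ (fun c hc => hφ c (by omega)))

lemma Dl_zero (m : ℕ) : Dl m (0 : Op R) := fun a φ _ => by simp

lemma Dl_one : Dl 0 (1 : Op R) := fun a φ hφ => by simpa using hφ a (by omega)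

/-- the symbol of an operator -/
def sy (m : ℕ) (A : Op R) (a : ℕ) : R := A (Pi.single (a + m) 1) a

lemma sy_add (m : ℕ) (A B : Op R) (a : ℕ) : sy m (A + B) a = sy m A a + sy m B a := rfl
lemma sy_sub (m : ℕ) (A B : Op R) (a : ℕ) : sy m (A - B) a = sy m A a - sy m B a := rfl

lemma sy_eq_zero {m : ℕ} {A : Op R} (hA : Dl (m + 1) A) (a : ℕ) : sy m A a = 0 :=
  hA a _ (fun b hb => by rw [Pi.single_eq_of_ne (by omega)])

lemma Dl.apply_eq {m : ℕ} {A : Op R} (hA : Dl m A) {a : ℕ} {φ : ℕ → R}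
    (hφ : ∀ b, a + m < b → φ b = 0) : A φ a = φ (a + m) * sy m A a := by
  have h := hA a (φ - φ (a + m) • (Pi.single (a + m) 1 : ℕ → R)) (by
    intro b hb
    rcases Nat.eq_or_lt_of_le hb with h | h
    · subst h; simp
    · simp only [Pi.sub_apply, Pi.smul_apply, hφ b h]
      rw [Pi.single_eq_of_ne (by omega)]; simp)
  rw [map_sub, map_smul] at h
  simp only [Pi.sub_apply, Pi.smul_apply, smul_eq_mul, sub_eq_zero] at h
  rw [h]; rfl

lemma sy_mul {m k : ℕ} {A B : Op R} (hA : Dl m A) (hB : Dl k B) (a : ℕ) :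
    sy (m + k) (A * B) a = sy m A a * sy k B (a + m) := by
  unfold sy
  rw [Module.End.mul_apply]
  rw [hA.apply_eq]
  · rw [mul_comm]
    congr 1
    rw [show a + (m + k) = a + m + k by omega]
  · intro b hb
    exact hB b _ (fun c hc => by rw [Pi.single_eq_of_ne (by omega)])

end ops

section rep

variable {R : Type*} [CommRing R] {z : ℕ → ℕ} (hz : Function.Injective z)

lemma Dl_Xop (j : ℕ) : Dl 1 (Xop R z j) := by
  intro a φ hφ
  rw [Xop_apply, hφ (a + 1) le_rfl]; simp

lemma Dl_mul_sub_one {m : ℕ} {A B : Op R} (hA : Dl m (A - 1)) (hB : Dl m (B - 1)) :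
    Dl m (A * B - 1) := by
  rw [ring_id1]
  exact (((hA.mul hB).mono (by omega)).add hA).add hB

lemma Dl_rho_one (v : FreeGroup ℕ) : Dl 1 ((rho R hz v : Op R) - 1) := by
  induction v using FreeGroup.induction_on with
  | C1 => simpa using Dl_zero 1
  | of j =>
    have : ((rho R hz (FreeGroup.of j) : (Op R)ˣ) : Op R) = 1 + Xop R z j := by
      simp [rho, Uop]
    rw [this, add_sub_cancel_left]
    exact Dl_Xop j
  | inv_of j _ =>
    have : ((rho R hz (FreeGroup.of j)⁻¹ : (Op R)ˣ) : Op R) = 1 - Xop R z j := by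
      simp [rho, Uop]
    rw [this, show (1 : Op R) - Xop R z j - 1 = - Xop R z j by abel]
    exact (Dl_Xop j).neg
  | mul x y hx hy =>
    rw [map_mul, Units.val_mul]
    exact Dl_mul_sub_one hx hy

lemma Dl_rho_zero (v : FreeGroup ℕ) : Dl 0 (rho R hz v : Op R) := by
  have := ((Dl_rho_one (R := R) hz v).mono (Nat.zero_le 1)).add Dl_one
  simpa using this

/-- the subgroup of elements of depth `m` -/
def Dsub (R : Type*) [CommRing R] (m : ℕ) : Subgroup (FreeGroup ℕ) where
  carrier := {v | Dl m ((rho R hz v : Op R) - 1)}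
  one_mem' := by simpa using Dl_zero m
  mul_mem' := by
    intro a b ha hb
    simp only [Set.mem_ofPred_eq, map_mul, Units.val_mul] at *
    exact Dl_mul_sub_one ha hb
  inv_mem' := by
    intro a ha
    simp only [Set.mem_ofPred_eq] at *
    have h1 : ((rho R hz a⁻¹ : (Op R)ˣ) : Op R) - 1 =
        (-(((rho R hz a : (Op R)ˣ) : Op R) - 1)) * ((rho R hz a⁻¹ : (Op R)ˣ) : Op R) := by
      have : ((rho R hz a : (Op R)ˣ) : Op R) * ((rho R hz a⁻¹ : (Op R)ˣ) : Op R) = 1 := by
        rw [← Units.val_mul, ← map_mul, mul_inv_cancel, map_one, Units.val_one]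
      exact ring_id4 _ _ this
    rw [h1]
    have := ha.neg.mul (Dl_rho_zero (R := R) hz a⁻¹)
    simpa using this

lemma rho_comm (g v : FreeGroup ℕ) : ((rho R hz ⁅g, v⁆ : (Op R)ˣ) : Op R) - 1 =
    (((rho R hz g : Op R) - 1) * ((rho R hz v : Op R) - 1) -
      ((rho R hz v : Op R) - 1) * ((rho R hz g : Op R) - 1)) *
      ((rho R hz (g⁻¹ * v⁻¹) : (Op R)ˣ) : Op R) := by
  have h2 : ((rho R hz v : Op R)) * (rho R hz g : Op R) * ((rho R hz (g⁻¹ * v⁻¹) : (Op R)ˣ) : Op R)
      = 1 := by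
    rw [← Units.val_mul, ← Units.val_mul, ← map_mul, ← map_mul,
      show v * g * (g⁻¹ * v⁻¹) = 1 by group, map_one, Units.val_one]
  have h3 : ((rho R hz g : Op R)) * (rho R hz v : Op R) * ((rho R hz (g⁻¹ * v⁻¹) : (Op R)ˣ) : Op R)
      = ((rho R hz ⁅g, v⁆ : (Op R)ˣ) : Op R) := by
    rw [← Units.val_mul, ← Units.val_mul, ← map_mul, ← map_mul, commutatorElement_def,
      show g * v * (g⁻¹ * v⁻¹) = g * v * g⁻¹ * v⁻¹ by group]
  rw [ring_id2, sub_mul, h2, h3]

lemma gam_le_Dsub (m : ℕ) : gam (FreeGroup ℕ) m ≤ Dsub hz R m := by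
  induction m with
  | zero => intro v _; exact (Dl_rho_one hz v).mono (Nat.zero_le 1)
  | succ m ih =>
    rcases m with _ | m
    · intro v _; exact Dl_rho_one hz v
    · rw [gam_succ_succ, commutator_le]
      intro a ha b _
      have ha' : Dl (m + 1) ((rho R hz a : Op R) - 1) := ih ha
      have hb' := Dl_rho_one (R := R) hz b
      change Dl (m + 1 + 1) _
      rw [rho_comm]
      have h1 := (ha'.mul hb').sub ((hb'.mul ha').mono (show m + 1 + 1 ≤ 1 + (m + 1) by omega))
      have h2 := h1.mul (Dl_rho_zero (R := R) hz (a⁻¹ * b⁻¹))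
      simpa using h2

/-- the coefficient of the word `z a, …, z (a + m - 1)` -/
def mag (R : Type*) [CommRing R] (a m : ℕ) (v : FreeGroup ℕ) : R :=
  sy m ((rho R hz v : Op R) - 1) a

lemma mag_topHom (a : ℕ) {m : ℕ} (hm : 1 ≤ m) : TopHom m (mag hz R a m) := by
  constructor
  · intro v hv w hw
    have hv' : Dl m ((rho R hz v : Op R) - 1) := gam_le_Dsub hz m hv
    have hw' : Dl m ((rho R hz w : Op R) - 1) := gam_le_Dsub hz m hw
    unfold mag
    have : ((rho R hz (v * w) : (Op R)ˣ) : Op R) - 1 =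
        ((rho R hz v : Op R) - 1) * ((rho R hz w : Op R) - 1) + ((rho R hz v : Op R) - 1)
          + ((rho R hz w : Op R) - 1) := by
      rw [map_mul, Units.val_mul]; exact ring_id1 _ _
    rw [this, sy_add, sy_add, sy_eq_zero ((hv'.mul hw').mono (by omega)), zero_add]
  · intro v hv
    exact sy_eq_zero (gam_le_Dsub hz (m + 1) hv) a

lemma mag_comm {m : ℕ} (a : ℕ) (g : FreeGroup ℕ) {v : FreeGroup ℕ}
    (hv : v ∈ gam (FreeGroup ℕ) m) :
    mag hz R a (m + 1) ⁅g, v⁆ =
      mag hz R a 1 g * mag hz R (a + 1) m v - mag hz R a m v * mag hz R (a + m) 1 g := by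
  have hv' : Dl m ((rho R hz v : Op R) - 1) := gam_le_Dsub hz m hv
  have hg' := Dl_rho_one (R := R) hz g
  unfold mag
  rw [rho_comm]
  set A := (rho R hz g : Op R) - 1 with hA
  set B := (rho R hz v : Op R) - 1 with hB
  set W := ((rho R hz (g⁻¹ * v⁻¹) : (Op R)ˣ) : Op R) with hW
  have hAB : Dl (m + 1) (A * B - B * A) :=
    ((hg'.mul hv').mono (by omega)).sub (hv'.mul hg')
  have h1 : (A * B - B * A) * W = (A * B - B * A) + (A * B - B * A) * (W - 1) := ring_id3 _ _
  rw [h1, sy_add, sy_eq_zero (hAB.mul (Dl_rho_one (R := R) hz (g⁻¹ * v⁻¹))), add_zero, sy_sub,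
    show m + 1 = 1 + m by omega, sy_mul hg' hv', show 1 + m = m + 1 by omega, sy_mul hv' hg']

/-- the exponent sum of the letter `j` -/
def ee (R : Type*) [CommRing R] (j : ℕ) : FreeGroup ℕ →* Multiplicative R :=
  FreeGroup.lift (fun i => Multiplicative.ofAdd (if i = j then 1 else 0))

lemma ee_of (i j : ℕ) : (ee R j (FreeGroup.of i)).toAdd = if i = j then 1 else 0 := by
  simp [ee]

lemma mag_one (a : ℕ) (g : FreeGroup ℕ) : mag hz R a 1 g = (ee R (z a) g).toAdd := by
  have h := mag_topHom (R := R) hz a (m := 1) le_rfl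
  have key : ∀ i, mag hz R a 1 (FreeGroup.of i) = if i = z a then 1 else 0 := by
    intro i
    unfold mag sy
    have : ((rho R hz (FreeGroup.of i) : (Op R)ˣ) : Op R) = 1 + Xop R z i := by
      simp [rho, Uop]
    rw [this, add_sub_cancel_left, Xop_apply]
    by_cases h : z a = i
    · simp [h]
    · simp [h, Ne.symm h]
  induction g using FreeGroup.induction_on with
  | C1 => rw [h.one]; simp
  | of i => rw [key, ee_of]
  | inv_of i _ => rw [h.inv (mem_top _), key, map_inv, toAdd_inv, ee_of]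
  | mul x y hx hy => rw [h.add _ (mem_top _) _ (mem_top _), hx, hy, map_mul, toAdd_mul]

/-- product of exponent sums along a word -/
def prf (R : Type*) [CommRing R] (z : ℕ → ℕ) : ℕ → List (FreeGroup ℕ) → R
  | _, [] => 1
  | a, g :: ws => (ee R (z a) g).toAdd * prf R z (a + 1) ws

lemma prf_append (a : ℕ) (ws : List (FreeGroup ℕ)) (g : FreeGroup ℕ) :
    prf R z a (ws ++ [g]) = prf R z a ws * (ee R (z (a + ws.length)) g).toAdd := by
  induction ws generalizing a with
  | nil => simp [prf]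
  | cons h ws ih =>
    rw [List.cons_append, prf, ih, prf, List.length_cons, mul_assoc,
      show a + 1 + ws.length = a + (ws.length + 1) by omega]

lemma ex_mul_left {α : Type*} (l : List α) (c : R) (Φ : List α → R) :
    c * ex l Φ = ex l (fun w => c * Φ w) := by
  have := ex_comp l (AddMonoidHom.mulLeft c) Φ
  simpa using this

lemma ex_mul_right {α : Type*} (l : List α) (c : R) (Φ : List α → R) :
    ex l Φ * c = ex l (fun w => Φ w * c) := by
  have := ex_comp l (AddMonoidHom.mulRight c) Φ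
  simpa using this

theorem mag_cc (gs : List (FreeGroup ℕ)) (hgs : gs ≠ []) (a : ℕ) :
    mag hz R a gs.length (cc gs) = ex gs (prf R z a) := by
  induction gs generalizing a with
  | nil => exact absurd rfl hgs
  | cons g gs ih =>
    rcases gs with _ | ⟨b, gs⟩
    · simp [prf, mag_one]
    · rw [cc_cons_cons, List.length_cons, mag_comm hz a g (cc_mem _), ih (by simp), ih (by simp),
        mag_one, mag_one, ex_cons_cons, ex_mul_left, ex_mul_right]
      congr 1
      apply ex_congr
      intro w hw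
      rw [prf_append, hw.length_eq]

end rep

end Pool.Agent.Lib.MP_e8899b_al
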