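import Pool.Agent.Lib.MP_e8899b_al.Lam

/-! The fully invariant subgroup and its annihilator. -/

namespace Pool.Agent.Lib.MP_e8899b_al

open Equiv
open scoped commutatorElement

/-- the free group of countable rank -/
abbrev FF := FreeGroup ℕ

/-- the fully invariant subgroup -/
def Nn : Subgroup FF where
  carrier := {v | v ∈ gam FF 6 ∧ ∀ θ : FF →* FF, Lam (θ v) = 0}
  one_mem' := ⟨one_mem _, fun θ => by rw [map_one, Lam_topHom.one]⟩
  mul_mem' := by
    rintro a b ⟨ha, ha'⟩ ⟨hb, hb'⟩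
    refine ⟨mul_mem ha hb, fun θ => ?_⟩
    rw [map_mul, Lam_topHom.add _ (gam_map θ 6 ha) _ (gam_map θ 6 hb), ha', hb', add_zero]
  inv_mem' := by
    rintro a ⟨ha, ha'⟩
    refine ⟨inv_mem ha, fun θ => ?_⟩
    rw [map_inv, Lam_topHom.inv (gam_map θ 6 ha), ha', neg_zero]

lemma mem_Nn {v : FF} : v ∈ Nn ↔ v ∈ gam FF 6 ∧ ∀ θ : FF →* FF, Lam (θ v) = 0 := Iff.rfl

lemma Nn_map {v : FF} (hv : v ∈ Nn) (θ : FF →* FF) : θ v ∈ Nn :=
  ⟨gam_map θ 6 hv.1, fun θ' => hv.2 (θ'.comp θ)⟩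

lemma Nn_le : Nn ≤ gam FF 6 := fun _ hv => hv.1

lemma gam7_le : gam FF 7 ≤ Nn := fun _ hv =>
  ⟨gam_succ_le 6 hv, fun θ => Lam_topHom.van _ (gam_map θ 7 hv)⟩

lemma cube_mem {v : FF} (hv : v ∈ gam FF 6) : v ^ 3 ∈ Nn := by
  refine ⟨pow_mem hv 3, fun θ => ?_⟩
  have hm := gam_map θ 6 hv
  have h1 : Lam (θ v * θ v * θ v) = Lam (θ v) + Lam (θ v) + Lam (θ v) := by
    rw [Lam_topHom.add _ (mul_mem hm hm) _ hm, Lam_topHom.add _ hm _ hm]
  rw [map_pow, pow_succ, pow_two, h1]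
  have h3 := three_zero
  linear_combination (Lam (θ v)) * h3

instance Nn_normal : Nn.Normal := ⟨fun v hv g => by
  have := Nn_map hv (MulAut.conj g).toMonoidHom
  simpa using this⟩

lemma TopHom.list_prod {G A ι : Type*} [Group G] [AddCommGroup A] {n : ℕ} {h : G → A}
    (hh : TopHom n h) (L : List ι) (c : ι → G) (k : ι → ℕ) (hc : ∀ i, c i ∈ gam G n) :
    (L.map (fun i => c i ^ k i)).prod ∈ gam G n ∧
      h ((L.map (fun i => c i ^ k i)).prod) = (L.map (fun i => k i • h (c i))).sum := by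
  induction L with
  | nil => exact ⟨one_mem _, by simpa using hh.one⟩
  | cons i L ih =>
    refine ⟨?_, ?_⟩
    · rw [List.map_cons, List.prod_cons]
      exact mul_mem (pow_mem (hc i) _) ih.1
    · rw [List.map_cons, List.prod_cons, List.map_cons, List.sum_cons,
        hh.add _ (pow_mem (hc i) _) _ ih.1, ih.2]
      have := hh.zpow (hc i) (k i)
      rw [zpow_natCast, natCast_zsmul] at this
      rw [this]

lemma cc_ofFn_mem {G : Type*} [Group G] {n : ℕ} (q : Fin n → G) : cc (List.ofFn q) ∈ gam G n := by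
  have := cc_mem (List.ofFn q)
  rwa [List.length_ofFn] at this

/-- Duality: the values of a functional killing the commutators of `Nn`. -/
lemma nrel_aux {h : FF → ZMod 3} (hh : TopHom 6 h) (hk : ∀ v ∈ Nn, h v = 0) (q : Fin 6 → FF) :
    ∃ κ : Perm (Fin 6) → ZMod 3, ∀ σ : Perm (Fin 6),
      h (cc (List.ofFn (fun k => q (σ k)))) = ∑ g, κ g * CC (g * σ) := by
  classical
  let K : (Perm (Fin 6) → ZMod 3) →ₗ[ZMod 3] ZMod 3 :=
    ∑ σ : Perm (Fin 6), (h (cc (List.ofFn (fun k => q (σ k))))) • LinearMap.proj σ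
  let Lg : Perm (Fin 6) → ((Perm (Fin 6) → ZMod 3) →ₗ[ZMod 3] ZMod 3) := fun g =>
    ∑ σ : Perm (Fin 6), (CC (g * σ)) • LinearMap.proj σ
  have hK : ∀ k : (Perm (Fin 6) → ZMod 3), K k = ∑ σ, h (cc (List.ofFn (fun m => q (σ m)))) * k σ := by
    intro k; simp [K]
  have hLg : ∀ g (k : Perm (Fin 6) → ZMod 3), Lg g k = ∑ σ, CC (g * σ) * k σ := by
    intro g k; simp [Lg]
  have key : ⨅ g, LinearMap.ker (Lg g) ≤ LinearMap.ker K := by
    intro k hk0
    rw [Submodule.mem_iInf] at hk0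
    rw [LinearMap.mem_ker]
    have hmem : ∀ σ : Perm (Fin 6), cc (List.ofFn (fun m => q (σ m))) ∈ gam FF 6 :=
      fun σ => cc_ofFn_mem _
    set L : List (Perm (Fin 6)) := (Finset.univ : Finset (Perm (Fin 6))).toList with hL
    have hsum : ∀ (e : Perm (Fin 6) → ZMod 3), (L.map (fun σ => (k σ).val • e σ)).sum =
        ∑ σ, e σ * k σ := by
      intro e
      rw [hL, Finset.sum_map_toList]
      refine Finset.sum_congr rfl (fun σ _ => ?_)
      rw [nsmul_eq_mul, ZMod.natCast_zmod_val, mul_comm]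
    have hv : (L.map (fun σ => cc (List.ofFn (fun m => q (σ m))) ^ (k σ).val)).prod ∈ Nn := by
      refine ⟨(Lam_topHom.list_prod L _ _ hmem).1, fun θ => ?_⟩
      have h1 := (Lam_topHom.comp θ).list_prod L _ (fun σ => (k σ).val) hmem
      rw [h1.2, hsum]
      have h2 : ∀ σ : Perm (Fin 6), Lam (θ (cc (List.ofFn (fun m => q (σ m))))) =
          ∑ g : Perm (Fin 6), CC (g * σ) * ∏ m, eps (g m) (θ (q m)) := by
        intro σ
        rw [cc_map, List.map_ofFn]
        have := Lam_cc (fun m => θ (q (σ m)))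
        rw [show (⇑θ ∘ fun m => q (σ m)) = fun m => θ (q (σ m)) from rfl, this,
          ← Equiv.sum_comp (Equiv.mulRight σ)]
        refine Finset.sum_congr rfl (fun g _ => ?_)
        rw [Equiv.coe_mulRight]
        exact congrArg (CC (g * σ) * ·) (Equiv.prod_comp σ (fun m => eps (g m) (θ (q m))))
      simp only [h2, Finset.sum_mul]
      rw [Finset.sum_comm]
      refine Finset.sum_eq_zero (fun g _ => ?_)
      have h3 := hk0 g
      rw [LinearMap.mem_ker, hLg] at h3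
      have : ∑ σ : Perm (Fin 6), (CC (g * σ) * ∏ m, eps (g m) (θ (q m))) * k σ =
          (∑ σ, CC (g * σ) * k σ) * ∏ m, eps (g m) (θ (q m)) := by
        rw [Finset.sum_mul]
        exact Finset.sum_congr rfl (fun σ _ => by ring)
      rw [this, h3, zero_mul]
    have h4 := hk _ hv
    rw [(hh.list_prod L _ (fun σ => (k σ).val) hmem).2, hsum] at h4
    rw [hK]; exact h4
  have h5 := mem_span_of_iInf_ker_le_ker key
  rw [Submodule.mem_span_range_iff_exists_fun] at h5
  obtain ⟨κ, hκ⟩ := h5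
  refine ⟨κ, fun σ => ?_⟩
  have h6 := congrArg (fun (M : (Perm (Fin 6) → ZMod 3) →ₗ[ZMod 3] ZMod 3) => M (Pi.single σ 1)) hκ
  simp only [LinearMap.sum_apply, LinearMap.smul_apply, smul_eq_mul] at h6
  rw [hK] at h6
  simp only [hLg, Pi.single_apply, mul_ite, mul_one, mul_zero, Finset.sum_ite_eq',
    Finset.mem_univ, if_true] at h6
  exact h6.symm

end Pool.Agent.Lib.MP_e8899b_al
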