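import Pool.Agent.Lib.MP_e8899b_al.Real
import Pool.Agent.Lib.MP_e8899b_al.LA3

/-! The multilinear case in degree seven. -/

namespace Pool.Agent.Lib.MP_e8899b_al

open Equiv
open scoped commutatorElement

/-- an assignment factoring through the free group of rank five -/
def Five {ι : Type*} (z : ι → FF) : Prop :=
  ∃ (φ : ι → FreeGroup (Fin 5)) (ψ : FreeGroup (Fin 5) →* FF), ∀ i, z i = ψ (φ i)

lemma Five.comp {ι κ : Type*} {z : ι → FF} (h : Five z) (σ : κ → ι) : Five (fun k => z (σ k)) := by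
  obtain ⟨φ, ψ, h⟩ := h
  exact ⟨fun k => φ (σ k), ψ, fun k => h (σ k)⟩

/-- additivity in every slot -/
def Mul {n : ℕ} (H : (Fin n → FF) → ZMod 3) : Prop :=
  ∀ g k a b, H (Function.update g k (a * b)) = H (Function.update g k a) + H (Function.update g k b)

lemma five_aux (z : Fin 7 → FF) (h1 : z 0 = z 1) (h2 : z 2 = z 3) : Five z := by
  refine ⟨fun i => FreeGroup.of ((![0, 0, 1, 1, 2, 3, 4] : Fin 7 → Fin 5) i),
    FreeGroup.lift (![z 0, z 2, z 4, z 5, z 6] : Fin 5 → FF), fun i => ?_⟩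
  rw [FreeGroup.lift_apply_of]
  fin_cases i <;> simp [h1, h2]

lemma E_identity {H : (Fin 7 → FF) → ZMod 3} (hm : Mul H) (h5 : ∀ z, Five z → H z = 0)
    (z : Fin 7 → FF) :
    H z + H (fun k => z (swap 0 1 k)) + H (fun k => z (swap 2 3 k)) +
      H (fun k => z (swap 2 3 (swap 0 1 k))) = 0 := by
  set Φ : FF → FF → FF → FF → ZMod 3 := fun a b c d => H ![a, b, c, d, z 4, z 5, z 6] with hΦ
  have u0 : ∀ a b c d x : FF, (![x, b, c, d, z 4, z 5, z 6] : Fin 7 → FF) =
      Function.update ![a, b, c, d, z 4, z 5, z 6] 0 x := by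
    intro a b c d x; funext i; fin_cases i <;> rfl
  have u1 : ∀ a b c d x : FF, (![a, x, c, d, z 4, z 5, z 6] : Fin 7 → FF) =
      Function.update ![a, b, c, d, z 4, z 5, z 6] 1 x := by
    intro a b c d x; funext i; fin_cases i <;> rfl
  have u2 : ∀ a b c d x : FF, (![a, b, x, d, z 4, z 5, z 6] : Fin 7 → FF) =
      Function.update ![a, b, c, d, z 4, z 5, z 6] 2 x := by
    intro a b c d x; funext i; fin_cases i <;> rfl
  have u3 : ∀ a b c d x : FF, (![a, b, c, x, z 4, z 5, z 6] : Fin 7 → FF) =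
      Function.update ![a, b, c, d, z 4, z 5, z 6] 3 x := by
    intro a b c d x; funext i; fin_cases i <;> rfl
  have m0 : ∀ a a' b c d, Φ (a * a') b c d = Φ a b c d + Φ a' b c d := by
    intro a a' b c d
    simp only [hΦ]
    rw [u0 1 b c d (a * a'), u0 1 b c d a, u0 1 b c d a', hm]
  have m1 : ∀ a b b' c d, Φ a (b * b') c d = Φ a b c d + Φ a b' c d := by
    intro a b b' c d
    simp only [hΦ]
    rw [u1 a 1 c d (b * b'), u1 a 1 c d b, u1 a 1 c d b', hm]
  have m2 : ∀ a b c c' d, Φ a b (c * c') d = Φ a b c d + Φ a b c' d := by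
    intro a b c c' d
    simp only [hΦ]
    rw [u2 a b 1 d (c * c'), u2 a b 1 d c, u2 a b 1 d c', hm]
  have m3 : ∀ a b c d d', Φ a b c (d * d') = Φ a b c d + Φ a b c d' := by
    intro a b c d d'
    simp only [hΦ]
    rw [u3 a b c 1 (d * d'), u3 a b c 1 d, u3 a b c 1 d', hm]
  have q0 : ∀ a c, Φ a a c c = 0 := fun a c => h5 _ (five_aux _ rfl rfl)
  have q1 : ∀ a b c, Φ a b c c + Φ b a c c = 0 := by
    intro a b c
    have h1 := q0 (a * b) c
    rw [m0, m1, m1, q0, q0] at h1
    linear_combination h1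
  have q2 : ∀ a b c d, Φ a b c d + Φ b a c d + Φ a b d c + Φ b a d c = 0 := by
    intro a b c d
    have h1 := q1 a b (c * d)
    rw [m2, m3, m3, m2, m3, m3] at h1
    have h2 := q1 a b c
    have h3 := q1 a b d
    linear_combination h1 - h2 - h3
  have e0 : z = ![z 0, z 1, z 2, z 3, z 4, z 5, z 6] := by funext i; fin_cases i <;> rfl
  have e1 : (fun k => z (swap 0 1 k)) = ![z 1, z 0, z 2, z 3, z 4, z 5, z 6] := by
    funext i; fin_cases i <;> simp [swap_apply_def]
  have e2 : (fun k => z (swap 2 3 k)) = ![z 0, z 1, z 3, z 2, z 4, z 5, z 6] := by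
    funext i; fin_cases i <;> simp [swap_apply_def]
  have e3 : (fun k => z (swap 2 3 (swap 0 1 k))) = ![z 1, z 0, z 3, z 2, z 4, z 5, z 6] := by
    funext i; fin_cases i <;> simp [swap_apply_def]
  rw [e1, e2, e3]
  have := q2 (z 0) (z 1) (z 2) (z 3)
  simp only [hΦ] at this
  rw [← e0] at this
  exact this

lemma sgz_lw_mul7 (g σ : Perm (Fin 7)) : sgz (lw (g * σ)) = sgz (lw g) * sgz (lw σ) := by
  have h1 := sgz_map_perm (lw_perm σ) (zx g) ((lw_perm σ).nodup_iff.2 List.nodup_range)
    (fun a _ b _ h => zx_inj g h)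
  have h2 : (List.range 7).map (zx g) = lw g := by
    have := lw_mul g (1 : Perm (Fin 7))
    rw [mul_one] at this
    rw [this]
    rfl
  rw [← lw_mul, h2] at h1
  have h3 : sgz (List.range 7) = 1 := by decide
  rw [h3, mul_one] at h1
  rw [← h1, mul_assoc, sgz_mul_self, mul_one]

lemma sgz_eq_sg (σ : Perm (Fin 7)) : sgz (lw σ) = sg σ := by
  induction σ using Equiv.Perm.swap_induction_on with
  | one =>
    have : sg (1 : Perm (Fin 7)) = 1 := by simp [sg]
    rw [this]; decide
  | swap_mul f x y hxy ih =>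
    rw [sgz_lw_mul7, sg_mul, ih, sg_swap hxy]
    congr 1
    revert x y
    decide

/-- the value of a pair of matrices on a permutation -/
def valx (x : M7 × M7) (σ : Perm (Fin 7)) : ZMod 3 :=
  sg σ * (x.1 (σ 0) (σ 4) + x.1 (σ 0) (σ 5) + x.1 (σ 0) (σ 6)) + (x.2 (σ 0) (σ 5) - x.2 (σ 0) (σ 6))

lemma valx_pa (x : M7 × M7) (π σ : Perm (Fin 7)) : valx (pa π x) σ = valx x (π * σ) := by
  unfold valx
  simp only [pa_fst, pa_snd, Pi.smul_apply, act_apply, smul_eq_mul, sg_mul, Perm.mul_apply]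
  ring

lemma valx_add (x y : M7 × M7) (σ : Perm (Fin 7)) : valx (x + y) σ = valx x σ + valx y σ := by
  unfold valx
  simp only [Prod.fst_add, Prod.snd_add, Pi.add_apply]; ring

lemma valx_smul (r : ZMod 3) (x : M7 × M7) (σ : Perm (Fin 7)) : valx (r • x) σ = r * valx x σ := by
  unfold valx
  simp only [Prod.smul_fst, Prod.smul_snd, Pi.smul_apply, smul_eq_mul]; ring

lemma lw7 (z : Perm (Fin 7)) : lw z = [(z 0 : ℕ), z 1, z 2, z 3, z 4, z 5, z 6] := by
  simp [lw, List.ofFn_succ]

lemma exists_good {f : FF → ZMod 3} (hf : TopHom 7 f) (hk : Kil f) (z : Fin 7 → FF) :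
    ∃ x : M7 × M7, Good x ∧ ∀ σ : Perm (Fin 7), f (cc (List.ofFn (fun k => z (σ k)))) = valx x σ := by
  set y : ℕ → FF := fun n => if h : n < 7 then z ⟨n, h⟩ else 1 with hy
  obtain ⟨U, V, hU, hV, ha, hs, hS⟩ := exists_str (Fw_SH hf hk y)
  refine ⟨(fun i j => U i j, fun i j => V i j), ⟨fun i j => ha i i.2 j j.2, fun i => hU.1 i i.2,
    fun i => ?_, fun i j => hs i i.2 j j.2, fun i => hV.1 i i.2, fun i => ?_⟩, fun σ => ?_⟩
  · have := hU.2 i i.2
    rwa [Finset.sum_range] at this
  · have := hV.2 i i.2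
    rwa [Finset.sum_range] at this
  · have hp : [(σ 0 : ℕ), σ 1, σ 2, σ 3, σ 4, σ 5, σ 6].Perm L7 := by
      rw [← lw7]; exact lw_perm σ
    have h1 := hS _ _ _ _ _ _ _ hp
    rw [← lw7, sgz_eq_sg] at h1
    have h2 : Fw f y (lw σ) = f (cc (List.ofFn (fun k => z (σ k)))) := by
      unfold Fw lw
      rw [List.map_ofFn]
      congr 3
      funext k
      simp [hy]
    rw [← h2, h1]
    rfl

/-- multilinear combination -/
def Hc (c : Perm (Fin 7) → ZMod 3) (f : FF → ZMod 3) (z : Fin 7 → FF) : ZMod 3 :=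
  ∑ σ, c σ * f (cc (List.ofFn (fun k => z (σ k))))

lemma Hc_mul {c : Perm (Fin 7) → ZMod 3} {f : FF → ZMod 3} (hf : TopHom 7 f) : Mul (Hc c f) := by
  intro g k a b
  unfold Hc
  rw [← Finset.sum_add_distrib]
  refine Finset.sum_congr rfl (fun σ _ => ?_)
  have e : ∀ x, (fun m => Function.update g k x (σ m)) =
      Function.update (fun m => g (σ m)) (σ⁻¹ k) x := by
    intro x
    funext m
    by_cases h : m = σ⁻¹ k
    · subst h; simp
    · rw [Function.update_of_ne h, Function.update_of_ne]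
      intro h2; apply h; rw [← h2]; simp
  rw [e, e, e, cc_update hf, mul_add]

lemma Mul.comp_perm {H : (Fin 7 → FF) → ZMod 3} (hm : Mul H) (σ : Perm (Fin 7)) :
    Mul (fun z => H (fun k => z (σ k))) := by
  intro g k a b
  have e : ∀ x, (fun m => Function.update g k x (σ m)) =
      Function.update (fun m => g (σ m)) (σ⁻¹ k) x := by
    intro x
    funext m
    by_cases h : m = σ⁻¹ k
    · subst h; simp
    · rw [Function.update_of_ne h, Function.update_of_ne]
      intro h2; apply h; rw [← h2]; simp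
  simp only [e]
  exact hm _ _ _ _

theorem prop77 {c : Perm (Fin 7) → ZMod 3} {f : FF → ZMod 3} (hf : TopHom 7 f) (hk : Kil f)
    (h5 : ∀ z, Five z → Hc c f z = 0) (z : Fin 7 → FF) : Hc c f z = 0 := by
  obtain ⟨x, hgood, hx⟩ := exists_good hf hk z
  let L : (M7 × M7) →ₗ[ZMod 3] ZMod 3 :=
    { toFun := fun x => ∑ σ, c σ * valx x σ
      map_add' := fun x y => by
        simp only [valx_add, mul_add, Finset.sum_add_distrib]
      map_smul' := fun r x => by
        simp only [valx_smul, RingHom.id_apply, smul_eq_mul, Finset.mul_sum]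
        exact Finset.sum_congr rfl (fun σ _ => by ring) }
  have hLdef : ∀ x, L x = ∑ σ, c σ * valx x σ := fun _ => rfl
  -- values at relabelled points
  have hLpa : ∀ π : Perm (Fin 7), L (pa π x) = Hc c f (fun k => z (π k)) := by
    intro π
    rw [hLdef]
    unfold Hc
    refine Finset.sum_congr rfl (fun σ _ => ?_)
    rw [valx_pa, ← hx (π * σ)]
    rfl
  let P : Submodule (ZMod 3) (M7 × M7) :=
    { carrier := {x | Good x ∧ ∀ π σ : Perm (Fin 7), L (pa σ (EE 0 1 2 3 (pa π x))) = 0}
      add_mem' := by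
        rintro a b ⟨ha, ha'⟩ ⟨hb, hb'⟩
        refine ⟨⟨fun i j => ?_, fun i => ?_, fun i => ?_, fun i j => ?_, fun i => ?_, fun i => ?_⟩,
          fun π σ => ?_⟩
        · simp only [Prod.fst_add, Pi.add_apply]; rw [ha.anti i j, hb.anti i j]; ring
        · simp only [Prod.fst_add, Pi.add_apply]; rw [ha.diag i, hb.diag i, add_zero]
        · simp only [Prod.fst_add, Pi.add_apply, Finset.sum_add_distrib, ha.row i, hb.row i,
            add_zero]
        · simp only [Prod.snd_add, Pi.add_apply]; rw [ha.symm i j, hb.symm i j]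
        · simp only [Prod.snd_add, Pi.add_apply]; rw [ha.diag' i, hb.diag' i, add_zero]
        · simp only [Prod.snd_add, Pi.add_apply, Finset.sum_add_distrib, ha.row' i, hb.row' i,
            add_zero]
        · have h1 := ha' π σ
          have h2 := hb' π σ
          unfold EE at h1 h2 ⊢
          simp only [map_add] at h1 h2 ⊢
          linear_combination h1 + h2
      zero_mem' := by
        refine ⟨⟨fun i j => ?_, fun i => rfl, fun i => ?_, fun i j => rfl, fun i => rfl,
          fun i => ?_⟩, fun π σ => ?_⟩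
        · simp
        · simp
        · simp
        · unfold EE; simp only [map_zero, add_zero]
      smul_mem' := by
        rintro r a ⟨ha, ha'⟩
        refine ⟨⟨fun i j => ?_, fun i => ?_, fun i => ?_, fun i j => ?_, fun i => ?_, fun i => ?_⟩,
          fun π σ => ?_⟩
        · simp only [Prod.smul_fst, Pi.smul_apply, smul_eq_mul]; rw [ha.anti i j]; ring
        · simp only [Prod.smul_fst, Pi.smul_apply, smul_eq_mul]; rw [ha.diag i, mul_zero]
        · simp only [Prod.smul_fst, Pi.smul_apply, smul_eq_mul, ← Finset.mul_sum, ha.row i,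
            mul_zero]
        · simp only [Prod.smul_snd, Pi.smul_apply, smul_eq_mul]; rw [ha.symm i j]
        · simp only [Prod.smul_snd, Pi.smul_apply, smul_eq_mul]; rw [ha.diag' i, mul_zero]
        · simp only [Prod.smul_snd, Pi.smul_apply, smul_eq_mul, ← Finset.mul_sum, ha.row' i,
            mul_zero]
        · have h1 := ha' π σ
          unfold EE at h1 ⊢
          simp only [map_add, map_smul, smul_eq_mul] at h1 ⊢
          linear_combination r * h1 }
  have hP : ∀ y, y ∈ P ↔ Good y ∧ ∀ π σ : Perm (Fin 7), L (pa σ (EE 0 1 2 3 (pa π y))) = 0 :=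
    fun _ => Iff.rfl
  have hperm : ∀ π, ∀ y ∈ P, pa π y ∈ P := by
    intro π y hy
    rw [hP] at hy ⊢
    obtain ⟨hy, hy'⟩ := hy
    refine ⟨⟨fun i j => ?_, fun i => ?_, fun i => ?_, fun i j => ?_, fun i => ?_, fun i => ?_⟩,
      fun π' σ => ?_⟩
    · simp only [pa_fst, Pi.smul_apply, act_apply, smul_eq_mul]; rw [hy.anti (π i) (π j)]; ring
    · simp only [pa_fst, Pi.smul_apply, act_apply, smul_eq_mul]; rw [hy.diag (π i), mul_zero]
    · simp only [pa_fst, Pi.smul_apply, act_apply, smul_eq_mul, ← Finset.mul_sum]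
      rw [Equiv.sum_comp π (fun j => y.1 (π i) j), hy.row, mul_zero]
    · simp only [pa_snd, act_apply]; exact hy.symm _ _
    · simp only [pa_snd, act_apply]; exact hy.diag' _
    · simp only [pa_snd, act_apply]
      rw [Equiv.sum_comp π (fun j => y.2 (π i) j), hy.row']
    · rw [← pa_mul]; exact hy' _ _
  have hxP : x ∈ P := by
    rw [hP]
    refine ⟨hgood, fun π σ => ?_⟩
    unfold EE
    simp only [map_add]
    rw [← pa_mul (swap 2 3) π, ← pa_mul (swap 0 1) π, ← pa_mul (swap 0 1), ← pa_mul σ,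
      ← pa_mul σ, ← pa_mul σ, ← pa_mul σ, hLpa, hLpa, hLpa, hLpa]
    have hm : Mul (fun z => Hc c f (fun k => z (σ k))) := (Hc_mul hf).comp_perm σ
    have := E_identity hm (fun z hz => h5 _ (hz.comp σ)) (fun k => z (π k))
    simp only [Perm.mul_apply]
    beta_reduce at this
    exact this
  have h1 := LA_main P hperm (fun y hy => ((hP y).1 hy).1) L (by
    intro σ y hy
    have := ((hP y).1 hy).2 1 σ
    have h2 : pa 1 y = y := by
      refine Prod.ext ?_ ?_
      · rw [pa_fst]; simp [sg, act]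
      · rfl
    have e : L (pa σ (EE 0 1 2 3 (pa 1 y))) = L (pa σ (EE 0 1 2 3 y)) :=
      congrArg (fun w => L (pa σ (EE 0 1 2 3 w))) h2
    exact e.symm.trans this) x hxP
  have h2 := hLpa 1
  have h3 : pa 1 x = x := by
    refine Prod.ext ?_ ?_
    · rw [pa_fst]; simp [sg, act]
    · rfl
  rw [h3, h1] at h2
  exact h2.symm

end Pool.Agent.Lib.MP_e8899b_al
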