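import Pool.Agent.Lib.MP_e8899b_al.Nn

/-! Functionals killing the commutators of `Nn` satisfy the structural hypotheses. -/

namespace Pool.Agent.Lib.MP_e8899b_al

open Equiv
open scoped commutatorElement

lemma lw_mul {n : ℕ} (g σ : Perm (Fin n)) : lw (g * σ) = (lw σ).map (zx g) := by
  unfold lw
  rw [List.map_ofFn]
  congr 1
  funext k
  simp [zx]

lemma swap_val (k : Fin 5) (a : Fin 6) :
    ((swap k.castSucc k.succ : Perm (Fin 6)) a : ℕ) = swN k a := by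
  revert k a; decide

lemma mem6 (a : Fin 6) : (a : ℕ) ∈ [0, 1, 2, 3, 4, 5] := by
  revert a; decide

lemma dis_true {a b c d : ℕ} (h1 : a ≠ b) (h2 : a ≠ c) (h3 : a ≠ d) (h4 : b ≠ c) (h5 : b ≠ d)
    (h6 : c ≠ d) : dis a b c d = true := by
  have key : ∀ {x y : ℕ}, x ≠ y → Nat.beq x y = false := by
    intro x y h
    by_contra h2
    rw [Bool.not_eq_false] at h2
    exact h (Nat.eq_of_beq_eq_true h2)
  unfold dis
  rw [key h1, key h2, key h3, key h4, key h5, key h6]; rfl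

lemma tv_swap (k : Fin 5) (T : ℕ) (hT : T < 6) (σ : Perm (Fin 6)) :
    tvN T (lw ((swap k.castSucc k.succ : Perm (Fin 6)) * σ)) = tvN (beta k T) (lw σ) := by
  rw [lw6_last, lw6_last]
  have h := T_check
  rw [List.all_eq_true] at h
  have h1 := h (k : ℕ) (by revert k; decide)
  rw [List.all_eq_true] at h1
  have h2 := h1 T (by interval_cases T <;> decide)
  rw [List.all_eq_true] at h2
  have h3 := h2 (σ 0) (mem6 _)
  rw [List.all_eq_true] at h3
  have h4 := h3 (σ 1) (mem6 _)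
  rw [List.all_eq_true] at h4
  have h5 := h4 (σ 2) (mem6 _)
  rw [List.all_eq_true] at h5
  have h6 := h5 (σ 3) (mem6 _)
  have hne : ∀ i j : Fin 6, i ≠ j → (σ i : ℕ) ≠ σ j := fun i j hij h =>
    hij (σ.injective (Fin.ext h))
  rw [dis_true (hne 0 1 (by decide)) (hne 0 2 (by decide)) (hne 0 3 (by decide))
    (hne 1 2 (by decide)) (hne 1 3 (by decide)) (hne 2 3 (by decide))] at h6
  have h7 := Nat.eq_of_beq_eq_true (by simpa using h6)
  simp only [Perm.mul_apply, swap_val]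
  exact h7

lemma beta_lt (k : Fin 5) (T : ℕ) (hT : T < 6) : beta k T < 6 := by
  have : ∀ k : Fin 5, ∀ T < 6, beta k T < 6 := by decide
  exact this k T hT

lemma tv_exists (g : Perm (Fin 6)) : ∀ T < 6, ∃ T' < 6, ∀ σ : Perm (Fin 6),
    tvN T (lw (g * σ)) = tvN T' (lw σ) := by
  have hg : g ∈ Submonoid.closure (Set.range fun i : Fin 5 ↦ (swap i.castSucc i.succ : Perm (Fin 6))) := by
    rw [Equiv.Perm.mclosure_swap_castSucc_succ]; trivial
  induction hg using Submonoid.closure_induction with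
  | mem x hx =>
    obtain ⟨k, rfl⟩ := hx
    exact fun T hT => ⟨beta k T, beta_lt k T hT, fun σ => tv_swap k T hT σ⟩
  | one => exact fun T hT => ⟨T, hT, fun σ => by rw [one_mul]⟩
  | mul x y _ _ hx hy =>
    intro T hT
    obtain ⟨T1, hT1, h1⟩ := hx T hT
    obtain ⟨T2, hT2, h2⟩ := hy T1 hT1
    exact ⟨T2, hT2, fun σ => by rw [mul_assoc, h1, h2]⟩

lemma pv_mul (g σ : Perm (Fin 6)) : pvN 5 (lw (g * σ)) = pvN (g⁻¹ 5 : Fin 6) (lw σ) := by
  rw [lw6_last, lw6_last]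
  have key : ∀ a : Fin 6, Nat.beq (g a) 5 = Nat.beq (a : ℕ) ((g⁻¹ 5 : Fin 6) : ℕ) := by
    intro a
    rw [Bool.eq_iff_iff, Nat.beq_eq, Nat.beq_eq]
    constructor
    · intro h
      have : g a = 5 := Fin.ext h
      rw [← this]; simp
    · intro h
      have : a = g⁻¹ 5 := Fin.ext h
      rw [this]; simp
  unfold pvN
  simp only [Perm.mul_apply, key]

lemma CC_eq (z : Perm (Fin 6)) :
    CC z = sgz (lw z) * (((pvN 5 (lw z) : ℕ) : ZMod 3) + ((tvN 0 (lw z) : ℕ) : ZMod 3)) := by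
  have e : ∀ a : Fin 6, gT 0 a = a := by decide
  unfold CC
  rw [lw6_last]
  have h1 : CfN [(z 0 : ℕ), z 1, z 2, z 3, z 4, z 5] = sgN [(z 0 : ℕ), z 1, z 2, z 3, z 4, z 5] *
      (pvN 5 [(z 0 : ℕ), z 1, z 2, z 3, z 4, z 5] + tq0 (z 0) (z 1) (z 2) (z 3)) := rfl
  have h2 : tvN 0 [(z 0 : ℕ), z 1, z 2, z 3, z 4, z 5] = tq0 (z 0) (z 1) (z 2) (z 3) := by
    show tq0 (gT 0 (z 0)) (gT 0 (z 1)) (gT 0 (z 2)) (gT 0 (z 3)) = _
    rw [e, e, e, e]
  rw [h1, h2, Nat.cast_mul, Nat.cast_add, sgN_cast]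

lemma sgz_lw_mul (g σ : Perm (Fin 6)) : sgz (lw (g * σ)) = sgz (lw g) * sgz (lw σ) := by
  have h1 := sgz_map_perm (lw_perm σ) (zx g) ((lw_perm σ).nodup_iff.2 List.nodup_range)
    (fun a _ b _ h => zx_inj g h)
  have h2 : (List.range 6).map (zx g) = lw g := by
    have := lw_mul g (1 : Perm (Fin 6))
    rw [mul_one] at this
    rw [this]
    rfl
  rw [← lw_mul, h2] at h1
  have h3 : sgz (List.range 6) = 1 := by decide
  rw [h3, mul_one] at h1
  rw [← h1, mul_assoc, sgz_mul_self, mul_one]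

lemma nrel {h : FF → ZMod 3} (hh : TopHom 6 h) (hk : ∀ v ∈ Nn, h v = 0) (q : Fin 6 → FF) :
    ∃ u t : ℕ → ZMod 3, ∑ k ∈ Finset.range 6, u k = ∑ k ∈ Finset.range 6, t k ∧
      ∀ σ : Perm (Fin 6), h (cc (List.ofFn (fun k => q (σ k)))) =
        sgz (lw σ) * (∑ k ∈ Finset.range 6, ((pvN k (lw σ) : ℕ) : ZMod 3) * u k +
          ∑ T ∈ Finset.range 6, ((tvN T (lw σ) : ℕ) : ZMod 3) * t T) := by
  classical
  obtain ⟨κ, hκ⟩ := nrel_aux hh hk q
  choose Tg hTg hTg' using fun g : Perm (Fin 6) => tv_exists g 0 (by norm_num)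
  have fib : ∀ (φ : Perm (Fin 6) → ℕ), (∀ g, φ g < 6) → ∀ (c : ℕ → ZMod 3),
      ∑ k ∈ Finset.range 6, c k * (∑ g : Perm (Fin 6), if φ g = k then κ g * sgz (lw g) else 0) =
        ∑ g, κ g * sgz (lw g) * c (φ g) := by
    intro φ hφ c
    simp only [Finset.mul_sum]
    rw [Finset.sum_comm]
    refine Finset.sum_congr rfl (fun g _ => ?_)
    rw [Finset.sum_eq_single (φ g)]
    · rw [if_pos rfl]; ring
    · intro k _ hk; rw [if_neg (Ne.symm hk), mul_zero]
    · intro h; exact absurd (Finset.mem_range.2 (hφ g)) h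
  refine ⟨fun k => ∑ g : Perm (Fin 6), if ((g⁻¹ 5 : Fin 6) : ℕ) = k then κ g * sgz (lw g) else 0,
    fun k => ∑ g : Perm (Fin 6), if Tg g = k then κ g * sgz (lw g) else 0, ?_, fun σ => ?_⟩
  · have h1 := fib (fun g => ((g⁻¹ 5 : Fin 6) : ℕ)) (fun g => (g⁻¹ 5 : Fin 6).2) (fun _ => 1)
    have h2 := fib Tg hTg (fun _ => 1)
    simp only [one_mul, mul_one] at h1 h2
    rw [h1, h2]
  · rw [fib (fun g => ((g⁻¹ 5 : Fin 6) : ℕ)) (fun g => (g⁻¹ 5 : Fin 6).2)
      (fun k => ((pvN k (lw σ) : ℕ) : ZMod 3)), fib Tg hTg (fun k => ((tvN k (lw σ) : ℕ) : ZMod 3)),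
      hκ, ← Finset.sum_add_distrib, Finset.mul_sum]
    refine Finset.sum_congr rfl (fun g _ => ?_)
    rw [CC_eq, pv_mul, hTg' g σ, sgz_lw_mul]
    ring

/-- the functional on words attached to `f` and an assignment -/
def Fw (f : FF → ZMod 3) (y : ℕ → FF) (l : List ℕ) : ZMod 3 := f (cc (l.map y))

/-- `f` kills the commutators of `Nn` with everything -/
def Kil (f : FF → ZMod 3) : Prop := ∀ v ∈ Nn, ∀ g : FF, f ⁅g, v⁆ = 0

lemma Fw_SH {f : FF → ZMod 3} (hf : TopHom 7 f) (hk : Kil f) (y : ℕ → FF) : SH (Fw f y) := by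
  constructor
  · intro x1 x2 a b c d e _
    have hz : ⁅y x1, y x2⁆ ∈ gam FF 2 := comm_mem_one _ (Subgroup.mem_top _)
    set l5 : List FF := [y a, y b, y c, y d, y e] with hl5
    have hc : cc l5 ∈ gam FF 5 := cc_mem l5
    have h1 := hf.jacobi (i := 1) (j := 1) (k := 5) (by norm_num) (x := y x1) (y := y x2)
      (Subgroup.mem_top _) (Subgroup.mem_top _) hc
    have h2 := hf.antisymm (k := 5) (m := 2) (by norm_num) hc hz
    have h3 := TopHom.ex_bracket (f := f) l5 (by simp [hl5]) [] 2 (z := ⁅y x1, y x2⁆) (by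
      simpa [hl5] using hf) hz
    simp only [rn_nil, List.nil_append] at h3
    rw [h2, h3] at h1
    have e1 : Fw f y [x1, x2, a, b, c, d, e] = f ⁅y x1, ⁅y x2, cc l5⁆⁆ := rfl
    have e2 : Fw f y [x2, x1, a, b, c, d, e] = f ⁅y x2, ⁅y x1, cc l5⁆⁆ := rfl
    have e3 : ex [a, b, c, d, e] (fun w => Fw f y (w ++ [x1, x2])) =
        ex l5 (fun w => f (rn w ⁅y x1, y x2⁆)) := by
      have h4 : l5 = [a, b, c, d, e].map y := rfl
      rw [h4, ex_map]
      refine ex_congr _ _ _ (fun w _ => ?_)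
      unfold Fw
      rw [List.map_append, cc_append _ (by simp)]
      rfl
    rw [e1, e2, e3]
    linear_combination (-1) * h1
  · intro i _
    have hh : TopHom 6 (fun z => f ⁅y i, z⁆) := hf.ad (y i)
    obtain ⟨u, t, h1, h2⟩ := nrel hh (fun v hv => hk v hv (y i)) (fun k => y (qq i k))
    refine ⟨u, t, h1, fun s hs => ?_⟩
    obtain ⟨σ, rfl⟩ := exists_lw (n := 6) hs
    rw [← h2 σ]
    unfold Fw
    rw [List.map_cons, List.map_map, cc_cons]
    · have : (lw σ).map (y ∘ qq i) = List.ofFn (fun k => y (qq i (σ k))) := by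
        unfold lw
        rw [List.map_ofFn]; rfl
      rw [this]
    · simp [lw]

end Pool.Agent.Lib.MP_e8899b_al
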