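import Pool.Agent.Lib.MP_e8899b_al.P77

/-! Representation of elements of the lower central series by right-normed commutators. -/

namespace Pool.Agent.Lib.MP_e8899b_al

open Equiv
open scoped commutatorElement

/-- evaluation of a formal combination of words -/
def evw {A : Type} [AddCommGroup A] (L : List (ℤ × List ℕ)) (Φ : List ℕ → A) : A :=
  (L.map (fun p => p.1 • Φ p.2)).sum

section evw
variable {A : Type} [AddCommGroup A]

lemma evw_nil (Φ : List ℕ → A) : evw [] Φ = 0 := rfl
lemma evw_cons (p : ℤ × List ℕ) (L : List (ℤ × List ℕ)) (Φ : List ℕ → A) :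
    evw (p :: L) Φ = p.1 • Φ p.2 + evw L Φ := rfl
lemma evw_append (L L' : List (ℤ × List ℕ)) (Φ : List ℕ → A) :
    evw (L ++ L') Φ = evw L Φ + evw L' Φ := by
  simp [evw]
lemma evw_congr (L : List (ℤ × List ℕ)) (Φ Ψ : List ℕ → A) (h : ∀ p ∈ L, Φ p.2 = Ψ p.2) :
    evw L Φ = evw L Ψ := by
  unfold evw
  congr 1
  exact List.map_congr_left (fun p hp => by rw [h p hp])
lemma evw_add (L : List (ℤ × List ℕ)) (Φ Ψ : List ℕ → A) :
    evw L (fun w => Φ w + Ψ w) = evw L Φ + evw L Ψ := by
  induction L with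
  | nil => simp [evw_nil]
  | cons p L ih => rw [evw_cons, evw_cons, evw_cons, ih, smul_add]; abel
lemma evw_sub (L : List (ℤ × List ℕ)) (Φ Ψ : List ℕ → A) :
    evw L (fun w => Φ w - Ψ w) = evw L Φ - evw L Ψ := by
  induction L with
  | nil => simp [evw_nil]
  | cons p L ih => rw [evw_cons, evw_cons, evw_cons, ih, smul_sub]; abel
lemma evw_zero (L : List (ℤ × List ℕ)) : evw L (fun _ => (0 : A)) = 0 := by
  induction L with
  | nil => rfl
  | cons p L ih => rw [evw_cons, ih, smul_zero, add_zero]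

end evw

/-- `L` represents `v` modulo the next term -/
def Rp (n : ℕ) (v : FF) (L : List (ℤ × List ℕ)) : Prop :=
  (∀ p ∈ L, p.2.length = n) ∧ ∀ (A : Type) [AddCommGroup A] (f : FF → A), TopHom n f →
    f v = evw L (fun w => f (cc (w.map FreeGroup.of)))

lemma Rp.one (n : ℕ) : Rp n 1 [] := ⟨by simp, fun A _ f hf => by rw [hf.one]; rfl⟩

lemma Rp.mul {n : ℕ} {v w : FF} {L L' : List (ℤ × List ℕ)} (hv : v ∈ gam FF n)
    (hw : w ∈ gam FF n) (h : Rp n v L) (h' : Rp n w L') : Rp n (v * w) (L ++ L') := by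
  refine ⟨fun p hp => ?_, fun A _ f hf => ?_⟩
  · rcases List.mem_append.1 hp with h1 | h1
    · exact h.1 p h1
    · exact h'.1 p h1
  · rw [hf.add v hv w hw, h.2 A f hf, h'.2 A f hf, evw_append]

lemma Rp.inv {n : ℕ} {v : FF} {L : List (ℤ × List ℕ)} (hv : v ∈ gam FF n) (h : Rp n v L) :
    Rp n v⁻¹ (L.map (fun p => (-p.1, p.2))) := by
  refine ⟨fun p hp => ?_, fun A _ f hf => ?_⟩
  · obtain ⟨q, hq, rfl⟩ := List.mem_map.1 hp
    exact h.1 q hq
  · rw [hf.inv hv, h.2 A f hf]
    clear h hv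
    induction L with
    | nil => simp [evw_nil]
    | cons p L ih =>
      rw [List.map_cons, evw_cons, evw_cons, ← ih, neg_add, neg_smul]

lemma Rp.exists_one (v : FF) : ∃ L, Rp 1 v L := by
  induction v using FreeGroup.induction_on with
  | C1 => exact ⟨[], Rp.one 1⟩
  | of i =>
    refine ⟨[(1, [i])], by simp, fun A _ f hf => ?_⟩
    rw [evw_cons, evw_nil]; simp
  | inv_of i h =>
    obtain ⟨L, hL⟩ := h
    exact ⟨_, hL.inv (Subgroup.mem_top _)⟩
  | mul x y hx hy =>
    obtain ⟨L, hL⟩ := hx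
    obtain ⟨L', hL'⟩ := hy
    exact ⟨_, hL.mul (Subgroup.mem_top _) (Subgroup.mem_top _) hL'⟩

lemma Rp.exists_comm {n : ℕ} {a b : FF} {L : List (ℤ × List ℕ)}
    (hn : 1 ≤ n) (hL : Rp n a L) : ∃ L', Rp (n + 1) ⁅b, a⁆ L' := by
  obtain ⟨M, hM⟩ := Rp.exists_one b
  refine ⟨L.flatMap (fun p => M.map (fun q => (p.1 * q.1, q.2 ++ p.2))), ?_, ?_⟩
  · intro p hp
    obtain ⟨q, hq, hp⟩ := List.mem_flatMap.1 hp
    obtain ⟨r, hr, rfl⟩ := List.mem_map.1 hp
    rw [List.length_append, hM.1 r hr, hL.1 q hq, add_comm]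
  · intro A _ f hf
    have h1 := hL.2 A (fun z => f ⁅b, z⁆) (hf.ad b)
    have h2 : ∀ l : List ℕ, l.length = n → f ⁅b, cc (l.map FreeGroup.of)⁆ =
        evw M (fun w => f (cc ((w ++ l).map FreeGroup.of))) := by
      intro l hl
      have hu : cc (l.map (FreeGroup.of : ℕ → FF)) ∈ gam FF n := by
        have := cc_mem (l.map (FreeGroup.of : ℕ → FF))
        rwa [List.length_map, hl] at this
      have h3 := hM.2 A (fun g => f ⁅g, cc (l.map FreeGroup.of)⁆) (hf.adr hu)
      beta_reduce at h3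
      rw [h3]
      refine evw_congr _ _ _ (fun q hq => ?_)
      have hq1 := hM.1 q hq
      obtain ⟨i, hi⟩ := List.length_eq_one_iff.1 hq1
      rw [hi, List.map_append, List.map_cons, List.map_nil, cc_singleton, List.singleton_append,
        cc_cons]
      intro h
      rw [List.map_eq_nil_iff] at h
      rw [h] at hl
      simp at hl; omega
    beta_reduce at h1
    rw [h1]
    have h4 : evw L (fun w => f ⁅b, cc (w.map FreeGroup.of)⁆) =
        evw L (fun l => evw M (fun w => f (cc ((w ++ l).map FreeGroup.of)))) :=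
      evw_congr _ _ _ (fun p hp => h2 p.2 (hL.1 p hp))
    rw [h4]
    clear h4 h1 hL
    induction L with
    | nil => rfl
    | cons p L ih =>
      rw [evw_cons, ih, List.flatMap_cons, evw_append]
      congr 1
      clear ih hM h2
      induction M with
      | nil => simp [evw_nil]
      | cons q M ih =>
        rw [evw_cons, List.map_cons, evw_cons, ← ih, smul_add, smul_smul]

lemma Rp.exists (n : ℕ) (hn : 1 ≤ n) : ∀ v ∈ gam FF n, ∃ L, Rp n v L := by
  induction n with
  | zero => omega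
  | succ n ih =>
    rcases n with _ | n
    · intro v _; exact Rp.exists_one v
    · intro v hv
      have ih' := ih (by omega)
      rw [gam_succ_succ] at hv
      have hle : ∀ x, x ∈ ⁅gam FF (n + 1), (⊤ : Subgroup FF)⁆ → x ∈ gam FF (n + 1 + 1) := by
        intro x hx; rw [gam_succ_succ]; exact hx
      rw [Subgroup.commutator_def] at hv
      induction hv using Subgroup.closure_induction with
      | mem x hx =>
        obtain ⟨a, ha, b, _, rfl⟩ := hx
        obtain ⟨L, hL⟩ := ih' a ha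
        obtain ⟨L', hL'⟩ := Rp.exists_comm (b := b) (by omega) hL
        have := hL'.inv (comm_mem_one b ha)
        rw [commutatorElement_inv] at this
        exact ⟨_, this⟩
      | one => exact ⟨_, Rp.one _⟩
      | mul x y hx hy h1 h2 =>
        obtain ⟨L, hL⟩ := h1
        obtain ⟨L', hL'⟩ := h2
        refine ⟨_, hL.mul (hle _ ?_) (hle _ ?_) hL'⟩
        · rw [Subgroup.commutator_def]; exact hx
        · rw [Subgroup.commutator_def]; exact hy
      | inv x hx h1 =>
        obtain ⟨L, hL⟩ := h1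
        refine ⟨_, hL.inv (hle _ ?_)⟩
        rw [Subgroup.commutator_def]; exact hx

lemma Rp.eval {n : ℕ} {v : FF} {L : List (ℤ × List ℕ)} (h : Rp n v L) {A : Type}
    [AddCommGroup A] {f : FF → A} (hf : TopHom n f) (y : ℕ → FF) :
    f (FreeGroup.lift y v) = evw L (fun w => f (cc (w.map y))) := by
  have h1 := h.2 A (fun v => f (FreeGroup.lift y v)) (hf.comp (FreeGroup.lift y))
  beta_reduce at h1
  rw [h1]
  refine evw_congr _ _ _ (fun p _ => ?_)
  rw [cc_map, List.map_map]
  congr 3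
  funext i
  simp

end Pool.Agent.Lib.MP_e8899b_al
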