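import Pool.Agent.Lib.MP_e8899b_al.Cert

/-! Signs of lists and the passage from words to unknowns. -/

namespace Pool.Agent.Lib.MP_e8899b_al

open Finset

/-- sign of a list modulo 3 -/
def sgz (l : List ℕ) : ZMod 3 := (-1) ^ invN l

lemma sgN_cast (l : List ℕ) : ((sgN l : ℕ) : ZMod 3) = sgz l := by
  unfold sgN sgz
  rcases Nat.mod_two_eq_zero_or_one (invN l) with h | h
  · have h1 : Nat.mod (invN l) 2 = 0 := h
    rw [h1]
    have : Even (invN l) := Nat.even_iff.2 h
    rw [this.neg_one_pow]; rfl
  · have h1 : Nat.mod (invN l) 2 = 1 := h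
    rw [h1]
    have : Odd (invN l) := Nat.odd_iff.2 h
    rw [this.neg_one_pow]; rfl

lemma sgz_mul_self (l : List ℕ) : sgz l * sgz l = 1 := by
  unfold sgz
  rw [← pow_add, ← two_mul, pow_mul]; simp

lemma cntN_cons (a b : ℕ) (l : List ℕ) :
    cntN a (b :: l) = (if b < a then 1 else 0) + cntN a l := by
  show Nat.add (cond (Nat.blt b a) 1 0) (cntN a l) = _
  by_cases h : b < a
  · have : Nat.blt b a = true := by simpa [Nat.blt_eq] using h
    rw [this]; simp [h]
  · have : Nat.blt b a = false := by
      by_contra h2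
      rw [Bool.not_eq_false, Nat.blt_eq] at h2
      exact h h2
    rw [this]; simp [h]

lemma invN_cons (a : ℕ) (l : List ℕ) : invN (a :: l) = cntN a l + invN l := rfl

lemma cntN_perm (a : ℕ) {l l' : List ℕ} (h : l.Perm l') : cntN a l = cntN a l' := by
  induction h with
  | nil => rfl
  | cons x _ ih => rw [cntN_cons, cntN_cons, ih]
  | swap x y l => simp only [cntN_cons]; omega
  | trans _ _ ih1 ih2 => exact ih1.trans ih2

lemma sgz_map_perm {l l' : List ℕ} (h : l.Perm l') (π : ℕ → ℕ) (hl : l.Nodup)
    (hπ : ∀ a ∈ l, ∀ b ∈ l, π a = π b → a = b) :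
    sgz (l.map π) * sgz l = sgz (l'.map π) * sgz l' := by
  induction h with
  | nil => rfl
  | @cons x l1 l2 h ih =>
    have ih' := ih (List.nodup_cons.1 hl).2 (fun a ha b hb => hπ a (List.mem_cons_of_mem _ ha) b
      (List.mem_cons_of_mem _ hb))
    have e : ∀ l : List ℕ, sgz ((x :: l).map π) * sgz (x :: l) =
        (-1) ^ (cntN (π x) (l.map π) + cntN x l) * (sgz (l.map π) * sgz l) := by
      intro l
      unfold sgz
      rw [List.map_cons, invN_cons, invN_cons]; ring
    rw [e, e, ih', cntN_perm _ (h.map π), cntN_perm _ h]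
  | swap x y l =>
    have hxy : x ≠ y := by
      intro h; subst h; simp at hl
    have hxy' : π x ≠ π y := fun h => hxy (hπ x (by simp) y (by simp) h)
    unfold sgz
    simp only [List.map_cons, invN_cons, cntN_cons]
    have key : ∀ u v : ℕ, u ≠ v → ∀ p q r : ℕ, ((-1 : ZMod 3)) ^ ((if u < v then 1 else 0) + p + (q + r)) =
        - (-1) ^ ((if v < u then 1 else 0) + q + (p + r)) := by
      intro u v huv p q r
      rcases lt_or_gt_of_ne huv with h | h
      · rw [if_pos h, if_neg (by omega)]
        rw [show 1 + p + (q + r) = (0 + q + (p + r)) + 1 by ring, pow_succ]; ring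
      · rw [if_neg (by omega), if_pos h]
        rw [show 1 + q + (p + r) = (0 + p + (q + r)) + 1 by ring, pow_succ]; ring
    rw [key x y hxy, key (π x) (π y) hxy']
    ring
  | trans h1 h2 ih1 ih2 =>
    rw [ih1 hl hπ, ih2 (h1.nodup_iff.1 hl) (fun a ha b hb => hπ a (h1.mem_iff.2 ha) b (h1.mem_iff.2 hb))]

lemma sgz_map_mono (l : List ℕ) (π : ℕ → ℕ) (hπ : ∀ a ∈ l, ∀ b ∈ l, (π a < π b ↔ a < b)) :
    sgz (l.map π) = sgz l := by
  have : invN (l.map π) = invN l := by
    induction l with
    | nil => rfl
    | cons x l ih =>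
      rw [List.map_cons, invN_cons, invN_cons, ih (fun a ha b hb => hπ a (List.mem_cons_of_mem _ ha) b
        (List.mem_cons_of_mem _ hb))]
      congr 1
      have : ∀ l' : List ℕ, (∀ a ∈ l', (π a < π x ↔ a < x)) → cntN (π x) (l'.map π) = cntN x l' := by
        intro l'
        induction l' with
        | nil => intro _; rfl
        | cons y l' ih' =>
          intro h
          rw [List.map_cons, cntN_cons, cntN_cons, ih' (fun a ha => h a (List.mem_cons_of_mem _ ha))]
          simp only [h y List.mem_cons_self]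
      exact this l (fun a ha => hπ a (List.mem_cons_of_mem _ ha) x List.mem_cons_self)
  unfold sgz; rw [this]

/-- the list `0,…,6` -/
abbrev L7 : List ℕ := [0, 1, 2, 3, 4, 5, 6]
/-- the list `0,…,5` -/
abbrev L6 : List ℕ := [0, 1, 2, 3, 4, 5]

lemma perm_cons_L7 {z0 : ℕ} {l : List ℕ} (h : (z0 :: l).Perm L7) :
    z0 < 7 ∧ (l.map (pos z0)).Perm L6 ∧ (l.map (pos z0)).map (qq z0) = l ∧
      sgz (z0 :: l) = (-1) ^ z0 * sgz (l.map (pos z0)) := by
  obtain ⟨h1, h2⟩ := List.cons_perm_iff_perm_erase.1 h
  have hz : z0 < 7 := by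
    have : ∀ a ∈ L7, a < 7 := by decide
    exact this z0 h1
  have hne : ∀ a ∈ l, a ≠ z0 := by
    intro a ha hc
    subst hc
    have : (a :: l).Nodup := h.nodup_iff.2 (by decide)
    exact (List.nodup_cons.1 this).1 ha
  have hmono : ∀ a ∈ l, ∀ b ∈ l, (pos z0 a < pos z0 b ↔ a < b) := by
    intro a ha b hb
    have ha' := hne a ha
    have hb' := hne b hb
    have hp : ∀ c, c ≠ z0 → pos z0 c = if c < z0 then c else c - 1 := by
      intro c _
      unfold pos
      by_cases h : c < z0
      · have : Nat.blt c z0 = true := by simpa [Nat.blt_eq] using h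
        rw [this]; simp [h]
      · have : Nat.blt c z0 = false := by
          by_contra h2
          rw [Bool.not_eq_false, Nat.blt_eq] at h2
          exact h h2
        rw [this]; simp [h]
    rw [hp a ha', hp b hb']
    split_ifs <;> omega
  refine ⟨hz, ?_, ?_, ?_⟩
  · have h3 := h2.map (pos z0)
    refine h3.trans ?_
    interval_cases z0 <;> decide
  · rw [List.map_map]
    conv_rhs => rw [← List.map_id l]
    apply List.map_congr_left
    intro a ha
    have ha' := hne a ha
    simp only [Function.comp, id]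
    unfold qq pos
    by_cases h : a < z0
    · have h1 : Nat.blt a z0 = true := by simpa [Nat.blt_eq] using h
      rw [h1, cond_true, h1]; rfl
    · have h1 : Nat.blt a z0 = false := by
        by_contra h2
        rw [Bool.not_eq_false, Nat.blt_eq] at h2
        exact h h2
      rw [h1, cond_false]
      have h3 : Nat.blt (Nat.pred a) z0 = false := by
        by_contra h2
        rw [Bool.not_eq_false, Nat.blt_eq] at h2
        have : Nat.pred a = a - 1 := rfl
        omega
      rw [h3, cond_false]
      have : Nat.pred a = a - 1 := rfl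
      have : Nat.succ (Nat.pred a) = a := by omega
      exact this
  · have h3 : sgz (l.map (pos z0)) = sgz l := sgz_map_mono l (pos z0) hmono
    rw [h3]
    unfold sgz
    rw [invN_cons, pow_add]
    congr 2
    rw [cntN_perm z0 h2]
    interval_cases z0 <;> decide

end Pool.Agent.Lib.MP_e8899b_al
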