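import Pool.Agent.Lib.MP_e8899b_al.Sign

/-! The structure of the functionals of degree seven, part 1: the weights vanish. -/

namespace Pool.Agent.Lib.MP_e8899b_al

open Finset

/-- The properties of the functional on words of degree seven. -/
structure SH (F : List ℕ → ZMod 3) : Prop where
  rj : ∀ x1 x2 a b c d e : ℕ, [x1, x2, a, b, c, d, e].Perm L7 →
    F [x1, x2, a, b, c, d, e] - F [x2, x1, a, b, c, d, e] +
      ex [a, b, c, d, e] (fun w => F (w ++ [x1, x2])) = 0
  nr : ∀ i < 7, ∃ u t : ℕ → ZMod 3, ∑ k ∈ range 6, u k = ∑ k ∈ range 6, t k ∧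
    ∀ s : List ℕ, s.Perm L6 → F (i :: s.map (qq i)) =
      sgz s * (∑ k ∈ range 6, ((pvN k s : ℕ) : ZMod 3) * u k +
        ∑ T ∈ range 6, ((tvN T s : ℕ) : ZMod 3) * t T)

lemma sum12 (f : ℕ → ZMod 3) : ∑ k ∈ range 12, f k = ∑ k ∈ range 6, f k + ∑ k ∈ range 6, f (6 + k) :=
  Finset.sum_range_add f 6 6

/-- evaluation of a linear form -/
def evl (x : ℕ → ℕ → ZMod 3) (c : ℕ → ℕ → ZMod 3) : ZMod 3 :=
  ∑ i ∈ range 7, ∑ k ∈ range 12, c i k * x i k

lemma evl_add (x c c' : ℕ → ℕ → ZMod 3) :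
    evl x (fun i k => c i k + c' i k) = evl x c + evl x c' := by
  unfold evl
  simp only [add_mul, Finset.sum_add_distrib]

lemma evl_sub (x c c' : ℕ → ℕ → ZMod 3) :
    evl x (fun i k => c i k - c' i k) = evl x c - evl x c' := by
  unfold evl
  simp only [sub_mul, Finset.sum_sub_distrib]

lemma evl_smul (x c : ℕ → ℕ → ZMod 3) (r : ZMod 3) :
    evl x (fun i k => r * c i k) = r * evl x c := by
  unfold evl
  simp only [Finset.mul_sum, mul_assoc]

lemma evl_ex {α : Type*} (x : ℕ → ℕ → ZMod 3) (l : List α) (c : List α → ℕ → ℕ → ZMod 3) :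
    evl x (fun i k => ex l (fun w => c w i k)) = ex l (fun w => evl x (c w)) := by
  unfold evl
  rw [ex_sum]
  refine Finset.sum_congr rfl (fun i _ => ?_)
  rw [ex_sum]
  refine Finset.sum_congr rfl (fun k _ => ?_)
  have := ex_comp l (AddMonoidHom.mulRight (x i k)) (fun w => c w i k)
  simpa using this

lemma FN_ne {z0 i : ℕ} (h : z0 ≠ i) (l : List ℕ) (k : ℕ) : FN (z0 :: l) i k = 0 := by
  show cond (Nat.beq z0 i) _ 0 = 0
  have : Nat.beq z0 i = false := by
    by_contra h2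
    rw [Bool.not_eq_false] at h2
    exact h (Nat.eq_of_beq_eq_true h2)
  rw [this]; rfl

lemma FN_self (z0 : ℕ) (l : List ℕ) (k : ℕ) : FN (z0 :: l) z0 k =
    sgN (l.map (pos z0)) * (cond (Nat.blt k 6) (pvN k (l.map (pos z0)))
      (tvN (k - 6) (l.map (pos z0)))) := by
  show cond (Nat.beq z0 z0) _ 0 = _
  rw [Nat.beq_refl]; rfl

/-- `x` represents `F` -/
def Rpr (F : List ℕ → ZMod 3) (x : ℕ → ℕ → ZMod 3) : Prop :=
  (∀ i < 7, ∑ k ∈ range 6, x i k = ∑ k ∈ range 6, x i (6 + k)) ∧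
  (∀ i < 7, ∀ s : List ℕ, s.Perm L6 → F (i :: s.map (qq i)) =
      sgz s * (∑ k ∈ range 6, ((pvN k s : ℕ) : ZMod 3) * x i k +
        ∑ T ∈ range 6, ((tvN T s : ℕ) : ZMod 3) * x i (6 + T)))

lemma SH.exists_rpr {F : List ℕ → ZMod 3} (hF : SH F) : ∃ x, Rpr F x := by
  have h := hF.nr
  choose! u hu using h
  choose! t ht using hu
  refine ⟨fun i k => if k < 6 then u i k else t i (k - 6), fun i hi => ?_, fun i hi s hs => ?_⟩
  · have := (ht i hi).1
    have e1 : ∑ k ∈ range 6, (if k < 6 then u i k else t i (k - 6)) = ∑ k ∈ range 6, u i k :=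
      Finset.sum_congr rfl (fun k hk => by rw [if_pos (Finset.mem_range.1 hk)])
    have e2 : ∑ k ∈ range 6, (if 6 + k < 6 then u i (6 + k) else t i (6 + k - 6)) =
        ∑ k ∈ range 6, t i k :=
      Finset.sum_congr rfl (fun k hk => by rw [if_neg (by omega), Nat.add_sub_cancel_left])
    rw [e1, e2, this]
  · rw [(ht i hi).2 s hs]
    have e1 : ∑ k ∈ range 6, ((pvN k s : ℕ) : ZMod 3) * (if k < 6 then u i k else t i (k - 6)) =
        ∑ k ∈ range 6, ((pvN k s : ℕ) : ZMod 3) * u i k :=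
      Finset.sum_congr rfl (fun k hk => by rw [if_pos (Finset.mem_range.1 hk)])
    have e2 : ∑ T ∈ range 6, ((tvN T s : ℕ) : ZMod 3) *
        (if 6 + T < 6 then u i (6 + T) else t i (6 + T - 6)) =
        ∑ T ∈ range 6, ((tvN T s : ℕ) : ZMod 3) * t i T :=
      Finset.sum_congr rfl (fun k hk => by rw [if_neg (by omega), Nat.add_sub_cancel_left])
    rw [e1, e2]

lemma Rpr.form {F : List ℕ → ZMod 3} {x : ℕ → ℕ → ZMod 3} (h : Rpr F x) {z : List ℕ}
    (hz : z.Perm L7) : F z = evl x (fun i k => ((FN z i k : ℕ) : ZMod 3)) := by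
  rcases z with _ | ⟨z0, l⟩
  · simpa using hz.length_eq
  obtain ⟨h1, h2, h3, -⟩ := perm_cons_L7 hz
  have hF := h.2 z0 h1 _ h2
  rw [h3] at hF
  rw [hF]
  unfold evl
  symm
  rw [Finset.sum_eq_single (s := range 7) z0]
  · rw [sum12, mul_add, Finset.mul_sum, Finset.mul_sum]
    congr 1
    · refine Finset.sum_congr rfl (fun k hk => ?_)
      have hk' : Nat.blt k 6 = true := by simpa [Nat.blt_eq] using Finset.mem_range.1 hk
      beta_reduce
      rw [FN_self, hk', cond_true]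
      push_cast
      rw [sgN_cast]; ring
    · refine Finset.sum_congr rfl (fun k hk => ?_)
      have hk' : Nat.blt (6 + k) 6 = false := by
        by_contra h2
        rw [Bool.not_eq_false, Nat.blt_eq] at h2
        omega
      beta_reduce
      rw [FN_self, hk', cond_false, Nat.add_sub_cancel_left]
      push_cast
      rw [sgN_cast]; ring
  · intro i _ hi
    refine Finset.sum_eq_zero (fun k _ => ?_)
    beta_reduce
    rw [FN_ne (Ne.symm hi)]; simp
  · intro hc
    exact absurd (Finset.mem_range.2 h1) hc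

lemma Rpr.rel {F : List ℕ → ZMod 3} {x : ℕ → ℕ → ZMod 3} (hF : SH F) (h : Rpr F x)
    {x1 x2 a b c d e : ℕ} (hz : [x1, x2, a, b, c, d, e].Perm L7) :
    evl x (fun i k => ((RJN [x1, x2, a, b, c, d, e] i k : ℕ) : ZMod 3)) = 0 := by
  have hz2 : [x2, x1, a, b, c, d, e].Perm L7 := (List.Perm.swap _ _ _).trans hz
  have key : ∀ i k, ((RJN [x1, x2, a, b, c, d, e] i k : ℕ) : ZMod 3) =
      (((FN [x1, x2, a, b, c, d, e] i k : ℕ) : ZMod 3) -
        ((FN [x2, x1, a, b, c, d, e] i k : ℕ) : ZMod 3)) +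
        ex [a, b, c, d, e] (fun w => ((FN (w ++ [x1, x2]) i k : ℕ) : ZMod 3)) := by
    intro i k
    rw [← exN_cast]
    show (((FN [x1, x2, a, b, c, d, e] i k) + ((2 * (FN [x2, x1, a, b, c, d, e] i k)) +
      (exN [a, b, c, d, e] (fun w => FN (w ++ [x1, x2]) i k))) : ℕ) : ZMod 3) = _
    push_cast
    have h3 : (2 : ZMod 3) = -1 := by decide
    rw [h3]; ring
  have e1 : evl x (fun i k => ((RJN [x1, x2, a, b, c, d, e] i k : ℕ) : ZMod 3)) =
      evl x (fun i k => (((FN [x1, x2, a, b, c, d, e] i k : ℕ) : ZMod 3) -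
        ((FN [x2, x1, a, b, c, d, e] i k : ℕ) : ZMod 3)) +
        ex [a, b, c, d, e] (fun w => ((FN (w ++ [x1, x2]) i k : ℕ) : ZMod 3))) := by
    congr 1; funext i k; exact key i k
  rw [e1, evl_add, evl_sub, evl_ex, ← h.form hz, ← h.form hz2]
  have e2 : ex [a, b, c, d, e] (fun w => evl x (fun i k => ((FN (w ++ [x1, x2]) i k : ℕ) : ZMod 3)))
      = ex [a, b, c, d, e] (fun w => F (w ++ [x1, x2])) := by
    apply ex_congr
    intro w hw
    have : (w ++ [x1, x2]).Perm L7 := by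
      refine List.Perm.trans ?_ hz
      have h5 : (w ++ [x1, x2]).Perm ([a, b, c, d, e] ++ [x1, x2]) := hw.append_right _
      exact h5.trans (List.perm_append_comm)
    rw [← h.form this]
  rw [e2]
  exact hF.rj x1 x2 a b c d e hz

/-- soundness of the certificate check -/
lemma cert_sound {x : ℕ → ℕ → ZMod 3} (cs : List (List ℕ × ℕ)) (d : ℕ → ℕ) (t : ℕ → ℕ → ℕ)
    (hok : certOK cs d t = true)
    (hx : ∀ i < 7, ∑ k ∈ range 6, x i k = ∑ k ∈ range 6, x i (6 + k))
    (hcs : ∀ p ∈ cs, evl x (fun i k => ((RJN p.1 i k : ℕ) : ZMod 3)) = 0) :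
    evl x (fun i k => ((t i k : ℕ) : ZMod 3)) = 0 := by
  have hrel : evl x (fun i k => (((d i) * (relN k) : ℕ) : ZMod 3)) = 0 := by
    unfold evl
    refine Finset.sum_eq_zero (fun i hi => ?_)
    have := hx i (Finset.mem_range.1 hi)
    rw [sum12]
    have e1 : ∑ k ∈ range 6, (((d i) * (relN k) : ℕ) : ZMod 3) * x i k =
        (d i : ZMod 3) * ∑ k ∈ range 6, x i k := by
      rw [Finset.mul_sum]
      refine Finset.sum_congr rfl (fun k hk => ?_)
      have hk' : relN k = 1 := by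
        have : Nat.blt k 6 = true := by simpa [Nat.blt_eq] using Finset.mem_range.1 hk
        show cond (Nat.blt k 6) 1 2 = 1
        rw [this]; rfl
      rw [hk', mul_one]
    have e2 : ∑ k ∈ range 6, (((d i) * (relN (6 + k)) : ℕ) : ZMod 3) * x i (6 + k) =
        - ((d i : ZMod 3) * ∑ k ∈ range 6, x i (6 + k)) := by
      rw [Finset.mul_sum, ← Finset.sum_neg_distrib]
      refine Finset.sum_congr rfl (fun k hk => ?_)
      have hk' : relN (6 + k) = 2 := by
        have : Nat.blt (6 + k) 6 = false := by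
          by_contra h2
          rw [Bool.not_eq_false, Nat.blt_eq] at h2
          omega
        show cond (Nat.blt (6 + k) 6) 1 2 = 2
        rw [this]; rfl
      rw [hk']
      push_cast
      have h3 : (2 : ZMod 3) = -1 := by decide
      rw [h3]; ring
    rw [e1, e2, this]; ring
  have hl : evl x (fun i k => ((lhsN cs d i k : ℕ) : ZMod 3)) = 0 := by
    clear hok
    induction cs with
    | nil =>
      exact hrel
    | cons p cs ih =>
      have e : ∀ i k, ((lhsN (p :: cs) d i k : ℕ) : ZMod 3) =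
          (p.2 : ZMod 3) * ((RJN p.1 i k : ℕ) : ZMod 3) + ((lhsN cs d i k : ℕ) : ZMod 3) := by
        intro i k
        show (((p.2 * RJN p.1 i k) + lhsN cs d i k : ℕ) : ZMod 3) = _
        push_cast; ring
      have e1 : evl x (fun i k => ((lhsN (p :: cs) d i k : ℕ) : ZMod 3)) =
          evl x (fun i k => (p.2 : ZMod 3) * ((RJN p.1 i k : ℕ) : ZMod 3) +
            ((lhsN cs d i k : ℕ) : ZMod 3)) := by
        congr 1; funext i k; exact e i k
      rw [e1, evl_add, evl_smul, hcs p List.mem_cons_self, mul_zero, zero_add]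
      exact ih (fun q hq => hcs q (List.mem_cons_of_mem _ hq))
  rw [← hl]
  unfold evl
  refine Finset.sum_congr rfl (fun i hi => Finset.sum_congr rfl (fun k hk => ?_))
  have hi' := Finset.mem_range.1 hi
  have hk' := Finset.mem_range.1 hk
  have h1 : Nat.beq (Nat.mod (lhsN cs d i k) 3) (Nat.mod (t i k) 3) = true := by
    unfold certOK at hok
    rw [List.all_eq_true] at hok
    have h2 := hok i (by
      have : i ∈ List.range 7 := List.mem_range.2 hi'
      exact this)
    rw [List.all_eq_true] at h2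
    exact h2 k (by
      have : k ∈ List.range 12 := List.mem_range.2 hk'
      exact this)
  have h2 := Nat.eq_of_beq_eq_true h1
  have h3 : ((t i k : ℕ) : ZMod 3) = ((lhsN cs d i k : ℕ) : ZMod 3) := by
    rw [ZMod.natCast_eq_natCast_iff]
    exact h2.symm
  show ((t i k : ℕ) : ZMod 3) * _ = ((lhsN cs d i k : ℕ) : ZMod 3) * _
  rw [h3]

lemma tau_zero {F : List ℕ → ZMod 3} {x : ℕ → ℕ → ZMod 3} (hF : SH F) (h : Rpr F x) :
    ∀ i < 7, ∑ k ∈ range 6, x i k = 0 := by
  have hS : evl x (fun i k => ((tgtS i k : ℕ) : ZMod 3)) = 0 := by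
    refine cert_sound csS _ _ certS_ok h.1 ?_
    intro p hp
    simp only [csS, List.mem_cons, List.not_mem_nil, or_false] at hp
    rcases hp with rfl | rfl | rfl | rfl | rfl
    all_goals exact h.rel hF (by decide)
  have hD : ∀ j ∈ [1, 2, 3, 4, 5, 6], evl x (fun i k => ((tgtD j i k : ℕ) : ZMod 3)) = 0 := by
    intro j hj
    have hok : certOK (csD j) (relD j) (tgtD j) = true := by
      have := certD_ok
      rw [List.all_eq_true] at this
      exact this j hj
    refine cert_sound (csD j) _ _ hok h.1 ?_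
    intro p hp
    simp only [csD, List.mem_cons, List.not_mem_nil, or_false, List.map_cons, List.map_nil] at hp
    have hj' : j < 7 ∧ 1 ≤ j := by
      have : ∀ j ∈ [1, 2, 3, 4, 5, 6], j < 7 ∧ 1 ≤ j := by decide
      exact this j hj
    obtain ⟨hj1, hj2⟩ := hj'
    interval_cases j <;> rcases hp with rfl | rfl | rfl | rfl | rfl | rfl <;>
      exact h.rel hF (by decide)
  set T : ℕ → ZMod 3 := fun i => ∑ k ∈ range 6, x i k with hT
  have ev12 : ∀ (c : ℕ → ZMod 3), (∑ i ∈ range 7, ∑ k ∈ range 12, (if k < 6 then c i else 0) * x i k)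
      = ∑ i ∈ range 7, c i * T i := by
    intro c
    refine Finset.sum_congr rfl (fun i _ => ?_)
    rw [sum12, hT, Finset.mul_sum]
    have e2 : ∑ k ∈ range 6, (if 6 + k < 6 then c i else 0) * x i (6 + k) = 0 :=
      Finset.sum_eq_zero (fun k _ => by rw [if_neg (by omega), zero_mul])
    rw [e2, add_zero]
    exact Finset.sum_congr rfl (fun k hk => by rw [if_pos (Finset.mem_range.1 hk)])
  have blt6 : ∀ k (a b : ℕ), cond (Nat.blt k 6) a b = if k < 6 then a else b := by
    intro k a b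
    by_cases h : k < 6
    · have : Nat.blt k 6 = true := by simpa [Nat.blt_eq] using h
      rw [this]; simp [h]
    · have : Nat.blt k 6 = false := by
        by_contra h2
        rw [Bool.not_eq_false, Nat.blt_eq] at h2
        exact h h2
      rw [this]; simp [h]
  have hS' : ∑ i ∈ range 7, ((cond (Nat.beq (Nat.mod i 2) 0) 1 2 : ℕ) : ZMod 3) * T i = 0 := by
    refine Eq.trans ?_ hS
    rw [← ev12]
    unfold evl
    refine Finset.sum_congr rfl (fun i _ => Finset.sum_congr rfl (fun k _ => ?_))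
    show _ = ((cond (Nat.blt k 6) (cond (Nat.beq (Nat.mod i 2) 0) 1 2) 0 : ℕ) : ZMod 3) * _
    rw [blt6]
    split_ifs <;> simp
  have hD' : ∀ j ∈ [1, 2, 3, 4, 5, 6], ∑ i ∈ range 7, ((cond (Nat.beq i 0) 1
      (cond (Nat.beq i j) (cond (Nat.beq (Nat.mod j 2) 0) 2 1) 0) : ℕ) : ZMod 3) * T i = 0 := by
    intro j hj
    refine Eq.trans ?_ (hD j hj)
    rw [← ev12]
    unfold evl
    refine Finset.sum_congr rfl (fun i _ => Finset.sum_congr rfl (fun k _ => ?_))
    show _ = ((cond (Nat.blt k 6) (cond (Nat.beq i 0) 1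
      (cond (Nat.beq i j) (cond (Nat.beq (Nat.mod j 2) 0) 2 1) 0)) 0 : ℕ) : ZMod 3) * _
    rw [blt6]
    split_ifs <;> simp
  have d1 := hD' 1 (by decide)
  have d2 := hD' 2 (by decide)
  have d3 := hD' 3 (by decide)
  have d4 := hD' 4 (by decide)
  have d5 := hD' 5 (by decide)
  have d6 := hD' 6 (by decide)
  have ex7 : ∀ c : ℕ → ZMod 3, ∑ i ∈ range 7, c i * T i = c 0 * T 0 + c 1 * T 1 + c 2 * T 2 +
      c 3 * T 3 + c 4 * T 4 + c 5 * T 5 + c 6 * T 6 := by
    intro c
    simp only [Finset.sum_range_succ, Finset.sum_range_zero, zero_add]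
  have hS2 : 1 * T 0 + 2 * T 1 + 1 * T 2 + 2 * T 3 + 1 * T 4 + 2 * T 5 + 1 * T 6 = 0 := by
    rw [ex7] at hS'; exact hS'
  have e1 : 1 * T 0 + 1 * T 1 + 0 * T 2 + 0 * T 3 + 0 * T 4 + 0 * T 5 + 0 * T 6 = 0 := by
    rw [ex7] at d1; exact d1
  have e2 : 1 * T 0 + 0 * T 1 + 2 * T 2 + 0 * T 3 + 0 * T 4 + 0 * T 5 + 0 * T 6 = 0 := by
    rw [ex7] at d2; exact d2
  have e3 : 1 * T 0 + 0 * T 1 + 0 * T 2 + 1 * T 3 + 0 * T 4 + 0 * T 5 + 0 * T 6 = 0 := by
    rw [ex7] at d3; exact d3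
  have e4 : 1 * T 0 + 0 * T 1 + 0 * T 2 + 0 * T 3 + 2 * T 4 + 0 * T 5 + 0 * T 6 = 0 := by
    rw [ex7] at d4; exact d4
  have e5 : 1 * T 0 + 0 * T 1 + 0 * T 2 + 0 * T 3 + 0 * T 4 + 1 * T 5 + 0 * T 6 = 0 := by
    rw [ex7] at d5; exact d5
  have e6 : 1 * T 0 + 0 * T 1 + 0 * T 2 + 0 * T 3 + 0 * T 4 + 0 * T 5 + 2 * T 6 = 0 := by
    rw [ex7] at d6; exact d6
  have h3 : (3 : ZMod 3) = 0 := by decide
  have h0 : T 0 = 0 := by
    linear_combination hS2 - 2 * e1 - 2 * e2 - 2 * e3 - 2 * e4 - 2 * e5 - 2 * e6 +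
      (4 * T 0 + T 2 + T 4 + T 6) * h3
  intro i hi
  show T i = 0
  interval_cases i
  · exact h0
  · linear_combination e1 - h0
  · linear_combination -e2 + h0 + T 2 * h3
  · linear_combination e3 - h0
  · linear_combination -e4 + h0 + T 4 * h3
  · linear_combination e5 - h0
  · linear_combination -e6 + h0 + T 6 * h3

end Pool.Agent.Lib.MP_e8899b_al
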