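import Pool.Agent.Lib.MP_e8899b_al.Struct

/-! The structure of the functionals of degree seven, part 2. -/

namespace Pool.Agent.Lib.MP_e8899b_al

open Finset

/-- The explicit shape of a functional. -/
def Str (F : List ℕ → ZMod 3) (U V : ℕ → ℕ → ZMod 3) : Prop :=
  ∀ z0 z1 z2 z3 z4 z5 z6 : ℕ, [z0, z1, z2, z3, z4, z5, z6].Perm L7 →
    F [z0, z1, z2, z3, z4, z5, z6] = sgz [z0, z1, z2, z3, z4, z5, z6] *
      (U z0 z4 + U z0 z5 + U z0 z6) + (V z0 z5 - V z0 z6)

/-- zero row sums and zero diagonal -/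
def Zrs (U : ℕ → ℕ → ZMod 3) : Prop :=
  (∀ i < 7, U i i = 0) ∧ ∀ i < 7, ∑ j ∈ range 7, U i j = 0

lemma mem_perm6 {s : List ℕ} (hs : s.Perm L6) : s ∈ List.permutations' [0, 1, 2, 3, 4, 5] :=
  List.mem_permutations'.2 hs

lemma tv_eq {a b c d e f : ℕ} (hs : [a, b, c, d, e, f].Perm L6) {t : ℕ → ZMod 3}
    (ht : ∑ T ∈ range 6, t T = 0) :
    sgz [a, b, c, d, e, f] * ∑ T ∈ range 6, ((tvN T [a, b, c, d, e, f] : ℕ) : ZMod 3) * t T =
      ∑ T ∈ range 6, ((mm T e : ℕ) : ZMod 3) * t T - ∑ T ∈ range 6, ((mm T f : ℕ) : ZMod 3) * t T := by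
  have h := m_check
  rw [List.all_eq_true] at h
  have h1 := h _ (mem_perm6 hs)
  rw [List.all_eq_true] at h1
  set s := [a, b, c, d, e, f] with hsdef
  set r : ZMod 3 := sgz s * ((tvN 0 s : ℕ) : ZMod 3) - ((mm 0 e : ℕ) : ZMod 3) +
    ((mm 0 f : ℕ) : ZMod 3) with hr
  have key : ∀ T ∈ range 6, sgz s * ((tvN T s : ℕ) : ZMod 3) =
      ((mm T e : ℕ) : ZMod 3) - ((mm T f : ℕ) : ZMod 3) + r := by
    intro T hT
    rcases Nat.eq_zero_or_pos T with h0 | h0
    · subst h0; rw [hr]; ring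
    · have hT' : T ∈ [1, 2, 3, 4, 5] := by
        have := Finset.mem_range.1 hT
        interval_cases T <;> decide
      have h2 := Nat.eq_of_beq_eq_true (h1 T hT')
      have h3 : (((sgN s * tvN T s + 2 * (mm T e + 2 * mm T f) : ℕ)) : ZMod 3) =
          ((sgN s * tvN 0 s + 2 * (mm 0 e + 2 * mm 0 f) : ℕ) : ZMod 3) := by
        rw [ZMod.natCast_eq_natCast_iff]
        exact h2
      push_cast at h3
      rw [sgN_cast] at h3
      have h4 : (3 : ZMod 3) = 0 := by decide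
      rw [hr]
      linear_combination h3 + (-((mm T e : ℕ) : ZMod 3) - ((mm T f : ℕ) : ZMod 3) +
        ((mm 0 e : ℕ) : ZMod 3) + ((mm 0 f : ℕ) : ZMod 3)) * h4
  rw [Finset.mul_sum, ← Finset.sum_sub_distrib]
  have : ∑ T ∈ range 6, sgz s * (((tvN T s : ℕ) : ZMod 3) * t T) =
      ∑ T ∈ range 6, ((((mm T e : ℕ) : ZMod 3) * t T - ((mm T f : ℕ) : ZMod 3) * t T) + r * t T) := by
    refine Finset.sum_congr rfl (fun T hT => ?_)
    rw [← mul_assoc, key T hT]; ring
  rw [this, Finset.sum_add_distrib, ← Finset.mul_sum, ht, mul_zero, add_zero]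

lemma pv_eq {a b c d e f : ℕ} (hs : [a, b, c, d, e, f].Perm L6) (u : ℕ → ZMod 3) :
    ∑ k ∈ range 6, ((pvN k [a, b, c, d, e, f] : ℕ) : ZMod 3) * u k = u d + u e + u f := by
  have hlt : ∀ x ∈ [a, b, c, d, e, f], x < 6 := by
    intro x hx
    have : ∀ x ∈ L6, x < 6 := by decide
    exact this x (hs.mem_iff.1 hx)
  have hb : ∀ x k : ℕ, ((bN (Nat.beq x k) : ℕ) : ZMod 3) = if k = x then 1 else 0 := by
    intro x k
    by_cases h : x = k
    · subst h; rw [Nat.beq_refl]; simp [bN]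
    · have : Nat.beq x k = false := by
        by_contra h2
        rw [Bool.not_eq_false] at h2
        exact h (Nat.eq_of_beq_eq_true h2)
      rw [this, if_neg (Ne.symm h)]; simp [bN]
  have e1 : ∀ k, ((pvN k [a, b, c, d, e, f] : ℕ) : ZMod 3) =
      (if k = d then 1 else 0) + (if k = e then 1 else 0) + (if k = f then 1 else 0) := by
    intro k
    show ((bN (Nat.beq d k) + (bN (Nat.beq e k) + bN (Nat.beq f k)) : ℕ) : ZMod 3) = _
    push_cast
    rw [hb, hb, hb]; ring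
  simp only [e1, add_mul, ite_mul, one_mul, zero_mul, Finset.sum_add_distrib,
    Finset.sum_ite_eq']
  rw [if_pos (Finset.mem_range.2 (hlt d (by simp))), if_pos (Finset.mem_range.2 (hlt e (by simp))),
    if_pos (Finset.mem_range.2 (hlt f (by simp)))]

lemma pos_eq (i j : ℕ) : pos i j = if j < i then j else j - 1 := by
  unfold pos
  by_cases h : j < i
  · have : Nat.blt j i = true := by simpa [Nat.blt_eq] using h
    rw [this]; simp [h]
  · have : Nat.blt j i = false := by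
      by_contra h2
      rw [Bool.not_eq_false, Nat.blt_eq] at h2
      exact h h2
    rw [this]; simp [h]

lemma sum_pos (c : ℕ → ZMod 3) : ∀ i < 7,
    ∑ j ∈ range 7, (if j = i then 0 else c (pos i j)) = ∑ k ∈ range 6, c k := by
  intro i hi
  simp only [Finset.sum_range_succ, Finset.sum_range_zero, pos_eq]
  interval_cases i <;> simp

lemma sum_mm (c : ℕ → ZMod 3) :
    ∑ k ∈ range 6, ∑ T ∈ range 6, ((mm T k : ℕ) : ZMod 3) * c T = 0 := by
  rw [Finset.sum_comm]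
  refine Finset.sum_eq_zero (fun T hT => ?_)
  rw [← Finset.sum_mul, ← Nat.cast_sum]
  have : ((∑ k ∈ range 6, mm T k : ℕ) : ZMod 3) = 0 := by
    have hT' := Finset.mem_range.1 hT
    interval_cases T <;> decide
  rw [this, zero_mul]

lemma exists_str0 {F : List ℕ → ZMod 3} (hF : SH F) :
    ∃ U V : ℕ → ℕ → ZMod 3, Zrs U ∧ Zrs V ∧ Str F U V := by
  obtain ⟨x, hx⟩ := hF.exists_rpr
  have hτ := tau_zero hF hx
  have hτ' : ∀ i < 7, ∑ T ∈ range 6, x i (6 + T) = 0 := fun i hi => by rw [← hx.1 i hi, hτ i hi]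
  refine ⟨fun i j => if j = i then 0 else (-1) ^ i * x i (pos i j),
    fun i j => if j = i then 0 else ∑ T ∈ range 6, ((mm T (pos i j) : ℕ) : ZMod 3) * x i (6 + T),
    ⟨fun i _ => by simp, fun i hi => ?_⟩, ⟨fun i _ => by simp, fun i hi => ?_⟩, ?_⟩
  · rw [sum_pos (fun k => (-1) ^ i * x i k) i hi, ← Finset.mul_sum, hτ i hi, mul_zero]
  · rw [sum_pos (fun k => ∑ T ∈ range 6, ((mm T k : ℕ) : ZMod 3) * x i (6 + T)) i hi]
    exact sum_mm (fun T => x i (6 + T))
  · intro z0 z1 z2 z3 z4 z5 z6 hz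
    obtain ⟨h1, h2, h3, h4⟩ := perm_cons_L7 hz
    have hnd : [z0, z1, z2, z3, z4, z5, z6].Nodup := hz.nodup_iff.2 (by decide)
    have n4 : z4 ≠ z0 := by
      intro h; subst h; simp at hnd
    have n5 : z5 ≠ z0 := by
      intro h; subst h; simp at hnd
    have n6 : z6 ≠ z0 := by
      intro h; subst h; simp at hnd
    have hf := hx.2 z0 h1 _ h2
    rw [h3] at hf
    simp only [List.map_cons, List.map_nil] at h2 hf h4
    rw [hf, mul_add, tv_eq h2 (hτ' z0 h1), pv_eq h2, h4]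
    have hsq : ((-1 : ZMod 3)) ^ z0 * (-1) ^ z0 = 1 := by
      rw [← pow_add, ← two_mul, pow_mul]; simp
    simp only [if_neg n4, if_neg n5, if_neg n6]
    linear_combination (-(sgz [pos z0 z1, pos z0 z2, pos z0 z3, pos z0 z4, pos z0 z5, pos z0 z6] *
      (x z0 (pos z0 z4) + x z0 (pos z0 z5) + x z0 (pos z0 z6)))) * hsq

end Pool.Agent.Lib.MP_e8899b_al
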