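import Pool.Agent.Lib.MP_e8899b_al.Struct2

/-! The structure of the functionals of degree seven, part 3. -/

namespace Pool.Agent.Lib.MP_e8899b_al

open Finset

lemma sgz_word {z ω : List ℕ} (hz : z.Perm L7) (hω : ω.Perm L7) :
    sgz (ω.map (fun k => z.getD k 0)) = sgz z * sgz ω := by
  have hlen : z.length = 7 := hz.length_eq
  have hnd : z.Nodup := hz.nodup_iff.2 (by decide)
  have h1 : L7.map (fun k => z.getD k 0) = z := by
    match z, hlen with
    | [a, b, c, d, e, f, g], _ => rfl
  have h2 := sgz_map_perm hω (fun k => z.getD k 0) (hω.nodup_iff.2 (by decide)) (by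
    intro a ha b hb hab
    have hlt : ∀ x ∈ ω, x < 7 := by
      intro x hx
      have : ∀ x ∈ L7, x < 7 := by decide
      exact this x (hω.mem_iff.1 hx)
    have ha' := hlt a ha
    have hb' := hlt b hb
    rw [List.getD_eq_getElem _ _ (by omega), List.getD_eq_getElem _ _ (by omega)] at hab
    exact (List.Nodup.getElem_inj_iff hnd).1 hab)
  rw [h1] at h2
  have h3 : sgz L7 = 1 := by decide
  rw [h3, mul_one] at h2
  rw [← h2, mul_assoc, sgz_mul_self, mul_one]

lemma Str.word {F : List ℕ → ZMod 3} {U V : ℕ → ℕ → ZMod 3} (h : Str F U V) {z : List ℕ}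
    (hz : z.Perm L7) (i0 i1 i2 i3 i4 i5 i6 : ℕ) (hω : [i0, i1, i2, i3, i4, i5, i6].Perm L7)
    (ε : ZMod 3) (hε : sgz [i0, i1, i2, i3, i4, i5, i6] = ε) :
    F [z.getD i0 0, z.getD i1 0, z.getD i2 0, z.getD i3 0, z.getD i4 0, z.getD i5 0, z.getD i6 0] =
      (sgz z * ε) * (U (z.getD i0 0) (z.getD i4 0) + U (z.getD i0 0) (z.getD i5 0) +
        U (z.getD i0 0) (z.getD i6 0)) +
        (V (z.getD i0 0) (z.getD i5 0) - V (z.getD i0 0) (z.getD i6 0)) := by
  have hp : [z.getD i0 0, z.getD i1 0, z.getD i2 0, z.getD i3 0, z.getD i4 0, z.getD i5 0,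
      z.getD i6 0].Perm L7 := by
    have h1 := hω.map (fun k => z.getD k 0)
    have hlen : z.length = 7 := hz.length_eq
    have h2 : L7.map (fun k => z.getD k 0) = z := by
      match z, hlen with
      | [a, b, c, d, e, f, g], _ => rfl
    rw [h2] at h1
    exact h1.trans hz
  rw [h _ _ _ _ _ _ _ hp]
  have := sgz_word hz hω
  rw [hε] at this
  simp only [List.map_cons, List.map_nil] at this
  rw [this]

lemma Str.relR {F : List ℕ → ZMod 3} {U V : ℕ → ℕ → ZMod 3} (h : Str F U V) (hF : SH F)
    {x1 x2 a b c d e : ℕ} (hz : [x1, x2, a, b, c, d, e].Perm L7) :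
    sgz [x1, x2, a, b, c, d, e] *
      ((U x1 c + U c x1) + (U x1 d + U d x1) + (U x1 e + U e x1) +
       (U x2 c + U c x2) + (U x2 d + U d x2) + (U x2 e + U e x2) +
       (U a c + U c a) + (U a d + U d a) + (U a e + U e a)) +
      ((V x1 d - V d x1) - (V x1 e - V e x1) - (V x2 d - V d x2) + (V x2 e - V e x2)) = 0 := by
  have hrj := hF.rj x1 x2 a b c d e hz
  simp only [ex_cons_cons, ex_singleton, List.cons_append, List.nil_append] at hrj
  set S := sgz [x1, x2, a, b, c, d, e] with hS
  have e0 : F [x1, x2, a, b, c, d, e] = (S * 1) * (U x1 c + U x1 d + U x1 e) +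
      (V x1 d - V x1 e) :=
    h.word hz 0 1 2 3 4 5 6 (by decide) 1 (by decide)
  have e1 : F [x2, x1, a, b, c, d, e] = (S * (-1)) * (U x2 c + U x2 d + U x2 e) +
      (V x2 d - V x2 e) :=
    h.word hz 1 0 2 3 4 5 6 (by decide) (-1) (by decide)
  have e2 : F [a, b, c, d, e, x1, x2] = (S * 1) * (U a e + U a x1 + U a x2) +
      (V a x1 - V a x2) :=
    h.word hz 2 3 4 5 6 0 1 (by decide) 1 (by decide)
  have e3 : F [a, b, c, e, d, x1, x2] = (S * (-1)) * (U a d + U a x1 + U a x2) +
      (V a x1 - V a x2) :=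
    h.word hz 2 3 4 6 5 0 1 (by decide) (-1) (by decide)
  have e4 : F [a, b, d, e, c, x1, x2] = (S * 1) * (U a c + U a x1 + U a x2) +
      (V a x1 - V a x2) :=
    h.word hz 2 3 5 6 4 0 1 (by decide) 1 (by decide)
  have e5 : F [a, b, e, d, c, x1, x2] = (S * (-1)) * (U a c + U a x1 + U a x2) +
      (V a x1 - V a x2) :=
    h.word hz 2 3 6 5 4 0 1 (by decide) (-1) (by decide)
  have e6 : F [a, c, d, e, b, x1, x2] = (S * (-1)) * (U a b + U a x1 + U a x2) +
      (V a x1 - V a x2) :=
    h.word hz 2 4 5 6 3 0 1 (by decide) (-1) (by decide)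
  have e7 : F [a, c, e, d, b, x1, x2] = (S * 1) * (U a b + U a x1 + U a x2) +
      (V a x1 - V a x2) :=
    h.word hz 2 4 6 5 3 0 1 (by decide) 1 (by decide)
  have e8 : F [a, d, e, c, b, x1, x2] = (S * (-1)) * (U a b + U a x1 + U a x2) +
      (V a x1 - V a x2) :=
    h.word hz 2 5 6 4 3 0 1 (by decide) (-1) (by decide)
  have e9 : F [a, e, d, c, b, x1, x2] = (S * 1) * (U a b + U a x1 + U a x2) +
      (V a x1 - V a x2) :=
    h.word hz 2 6 5 4 3 0 1 (by decide) 1 (by decide)
  have e10 : F [b, c, d, e, a, x1, x2] = (S * 1) * (U b a + U b x1 + U b x2) +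
      (V b x1 - V b x2) :=
    h.word hz 3 4 5 6 2 0 1 (by decide) 1 (by decide)
  have e11 : F [b, c, e, d, a, x1, x2] = (S * (-1)) * (U b a + U b x1 + U b x2) +
      (V b x1 - V b x2) :=
    h.word hz 3 4 6 5 2 0 1 (by decide) (-1) (by decide)
  have e12 : F [b, d, e, c, a, x1, x2] = (S * 1) * (U b a + U b x1 + U b x2) +
      (V b x1 - V b x2) :=
    h.word hz 3 5 6 4 2 0 1 (by decide) 1 (by decide)
  have e13 : F [b, e, d, c, a, x1, x2] = (S * (-1)) * (U b a + U b x1 + U b x2) +
      (V b x1 - V b x2) :=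
    h.word hz 3 6 5 4 2 0 1 (by decide) (-1) (by decide)
  have e14 : F [c, d, e, b, a, x1, x2] = (S * (-1)) * (U c a + U c x1 + U c x2) +
      (V c x1 - V c x2) :=
    h.word hz 4 5 6 3 2 0 1 (by decide) (-1) (by decide)
  have e15 : F [c, e, d, b, a, x1, x2] = (S * 1) * (U c a + U c x1 + U c x2) +
      (V c x1 - V c x2) :=
    h.word hz 4 6 5 3 2 0 1 (by decide) 1 (by decide)
  have e16 : F [d, e, c, b, a, x1, x2] = (S * (-1)) * (U d a + U d x1 + U d x2) +
      (V d x1 - V d x2) :=
    h.word hz 5 6 4 3 2 0 1 (by decide) (-1) (by decide)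
  have e17 : F [e, d, c, b, a, x1, x2] = (S * 1) * (U e a + U e x1 + U e x2) +
      (V e x1 - V e x2) :=
    h.word hz 6 5 4 3 2 0 1 (by decide) 1 (by decide)
  rw [e0, e1, e2, e3, e4, e5, e6, e7, e8, e9, e10, e11, e12, e13, e14, e15, e16, e17] at hrj
  have h3 : (3 : ZMod 3) = 0 := by decide
  linear_combination hrj + S * (U c x1 + U c x2 + U a c + U c a) * h3

lemma three_zero : (3 : ZMod 3) = 0 := by decide

/-- completing a list of distinct elements to a permutation of `0,…,6` -/
lemma exists_compl (l : List ℕ) (hnd : l.Nodup) (hl : ∀ x ∈ l, x < 7) :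
    ∃ m, (l ++ m).Perm L7 ∧ l.length + m.length = 7 := by
  refine ⟨L7.filter (fun x => x ∉ l), ?_, ?_⟩
  · rw [List.perm_ext_iff_of_nodup]
    · intro a
      simp only [List.mem_append, List.mem_filter, decide_eq_true_eq]
      constructor
      · rintro (h | h)
        · have := hl a h
          interval_cases a <;> decide
        · exact h.1
      · intro h
        by_cases ha : a ∈ l
        · exact Or.inl ha
        · exact Or.inr ⟨h, ha⟩
    · rw [List.nodup_append]
      refine ⟨hnd, List.Nodup.filter _ (by decide), ?_⟩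
      intro a ha b hb hab
      subst hab
      simp only [List.mem_filter, decide_eq_true_eq] at hb
      exact hb.2 ha
    · decide
  · have : (l ++ L7.filter (fun x => x ∉ l)).Perm L7 := by
      rw [List.perm_ext_iff_of_nodup]
      · intro a
        simp only [List.mem_append, List.mem_filter, decide_eq_true_eq]
        constructor
        · rintro (h | h)
          · have := hl a h
            interval_cases a <;> decide
          · exact h.1
        · intro h
          by_cases ha : a ∈ l
          · exact Or.inl ha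
          · exact Or.inr ⟨h, ha⟩
      · rw [List.nodup_append]
        refine ⟨hnd, List.Nodup.filter _ (by decide), ?_⟩
        intro a ha b hb hab
        subst hab
        simp only [List.mem_filter, decide_eq_true_eq] at hb
        exact hb.2 ha
      · decide
    have := this.length_eq
    simpa using this

lemma exists_compl4 {r s t u : ℕ} (hnd : [r, s, t, u].Nodup) (hr : r < 7) (hs : s < 7)
    (ht : t < 7) (hu : u < 7) : ∃ m1 m2 m3, [r, s, t, u, m1, m2, m3].Perm L7 := by
  obtain ⟨m, hm, hlen⟩ := exists_compl [r, s, t, u] hnd (by simp [hr, hs, ht, hu])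
  have hlen' : m.length = 3 := by simp at hlen; omega
  match m, hlen' with
  | [m1, m2, m3], _ => exact ⟨m1, m2, m3, hm⟩

/-- the sum of a symmetric function over a product of two triples -/
def AA (y : ℕ → ℕ → ZMod 3) (p q r c d e : ℕ) : ZMod 3 :=
  y p c + y p d + y p e + y q c + y q d + y q e + y r c + y r d + y r e

/-- the alternating sum of an antisymmetric function -/
def BB (V : ℕ → ℕ → ZMod 3) (p q d e : ℕ) : ZMod 3 :=
  (V p d - V d p) - (V p e - V e p) - (V q d - V d q) + (V q e - V e q)

lemma Str.relA {F : List ℕ → ZMod 3} {U V : ℕ → ℕ → ZMod 3} (h : Str F U V) (hF : SH F)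
    {p q r s c d e : ℕ} (hz : [p, q, r, s, c, d, e].Perm L7) :
    AA (fun i j => U i j + U j i) p q r c d e = 0 ∧ BB V p q d e = 0 := by
  have hR : ∀ {p q r s : ℕ}, [p, q, r, s, c, d, e].Perm L7 →
      sgz [p, q, r, s, c, d, e] * AA (fun i j => U i j + U j i) p q r c d e
        + BB V p q d e = 0 := by
    intro p q r s hz
    exact h.relR hF hz
  have key : ∀ {p q r s : ℕ}, [p, q, r, s, c, d, e].Perm L7 →
      AA (fun i j => U i j + U j i) p q r c d e + AA (fun i j => U i j + U j i) p q s c d e = 0 := by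
    intro p q r s hz
    have h1 := hR hz
    have hz2 : [p, q, s, r, c, d, e].Perm L7 :=
      (((List.Perm.swap r s _).cons q).cons p).trans hz
    have h2 := hR hz2
    have hs : sgz [p, q, s, r, c, d, e] = - sgz [p, q, r, s, c, d, e] := by
      have := sgz_word hz (ω := [0, 1, 3, 2, 4, 5, 6]) (by decide)
      have h3 : sgz [0, 1, 3, 2, 4, 5, 6] = -1 := by decide
      rw [h3] at this
      simp only [List.map_cons, List.map_nil] at this
      refine Eq.trans this ?_
      ring
    rw [hs] at h2
    have hsq := sgz_mul_self [p, q, r, s, c, d, e]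
    linear_combination (sgz [p, q, r, s, c, d, e]) * h1 - (sgz [p, q, r, s, c, d, e]) * h2 -
      (AA (fun i j => U i j + U j i) p q r c d e + AA (fun i j => U i j + U j i) p q s c d e) * hsq
  have k1 := key hz
  have hz2 : [p, r, q, s, c, d, e].Perm L7 := ((List.Perm.swap q r _).cons p).trans hz
  have k2 := key hz2
  have hz3 : [p, s, q, r, c, d, e].Perm L7 := by
    refine List.Perm.trans ?_ hz
    refine List.Perm.cons p ?_
    exact ((List.Perm.swap q s _).trans ((List.Perm.swap r s _).cons q))
  have k3 := key hz3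
  have hA : AA (fun i j => U i j + U j i) p q r c d e = 0 := by
    have e1 : AA (fun i j => U i j + U j i) p r q c d e = AA (fun i j => U i j + U j i) p q r c d e := by
      unfold AA; ring
    have e2 : AA (fun i j => U i j + U j i) p s q c d e = AA (fun i j => U i j + U j i) p q s c d e := by
      unfold AA; ring
    have e3 : AA (fun i j => U i j + U j i) p s r c d e = AA (fun i j => U i j + U j i) p r s c d e := by
      unfold AA; ring
    rw [e1] at k2
    rw [e2, e3] at k3
    have h3 := three_zero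
    linear_combination 2 * k1 + 2 * k2 - 2 * k3 - (AA (fun i j => U i j + U j i) p q r c d e) * h3
  refine ⟨hA, ?_⟩
  have := hR hz
  rw [hA, mul_zero, zero_add] at this
  exact this

lemma Str.y4 {F : List ℕ → ZMod 3} {U V : ℕ → ℕ → ZMod 3} (h : Str F U V) (hF : SH F)
    {r s t u : ℕ} (hnd : [r, s, t, u].Nodup) (hr : r < 7) (hs : s < 7)
    (ht : t < 7) (hu : u < 7) :
    (U r t + U t r) - (U s t + U t s) - (U r u + U u r) + (U s u + U u s) = 0 := by
  obtain ⟨a, b, c, hz⟩ := exists_compl4 hnd hr hs ht hu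
  have k : ∀ {ω : List ℕ}, ω.Perm [r, s, t, u, a, b, c] → ω.Perm L7 := fun hω => hω.trans hz
  have p1 : [u, c, r, s, t, a, b].Perm L7 := k (by
    rw [List.perm_iff_count]; intro x; simp only [List.count_cons, List.count_nil]; omega)
  have p2 : [u, c, s, r, t, a, b].Perm L7 := k (by
    rw [List.perm_iff_count]; intro x; simp only [List.count_cons, List.count_nil]; omega)
  have p3 : [t, c, r, s, u, a, b].Perm L7 := k (by
    rw [List.perm_iff_count]; intro x; simp only [List.count_cons, List.count_nil]; omega)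
  have p4 : [t, c, s, r, u, a, b].Perm L7 := k (by
    rw [List.perm_iff_count]; intro x; simp only [List.count_cons, List.count_nil]; omega)
  have q1 := (h.relA hF p1).1
  have q2 := (h.relA hF p2).1
  have q3 := (h.relA hF p3).1
  have q4 := (h.relA hF p4).1
  unfold AA at q1 q2 q3 q4
  linear_combination q1 - q2 - q3 + q4

lemma Str.eta4 {F : List ℕ → ZMod 3} {U V : ℕ → ℕ → ZMod 3} (h : Str F U V) (hF : SH F)
    {p q d e : ℕ} (hnd : [p, q, d, e].Nodup) (hp : p < 7) (hq : q < 7)
    (hd : d < 7) (he : e < 7) : BB V p q d e = 0 := by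
  obtain ⟨a, b, c, hz⟩ := exists_compl4 hnd hp hq hd he
  have k : ∀ {ω : List ℕ}, ω.Perm [p, q, d, e, a, b, c] → ω.Perm L7 := fun hω => hω.trans hz
  have p1 : [p, q, a, b, c, d, e].Perm L7 := k (by
    rw [List.perm_iff_count]; intro x; simp only [List.count_cons, List.count_nil]; omega)
  exact (h.relA hF p1).2

end Pool.Agent.Lib.MP_e8899b_al
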