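import Pool.Agent.Lib.MP_e8899b_al.Rep

/-! Reduction to words with a fixed support. -/

namespace Pool.Agent.Lib.MP_e8899b_al

open Equiv
open scoped commutatorElement

/-- part of `L` with support `T` -/
def part (L : List (ℤ × List ℕ)) (T : Finset ℕ) : List (ℤ × List ℕ) :=
  L.filter (fun p => p.2.toFinset = T)

lemma mem_part {L : List (ℤ × List ℕ)} {T : Finset ℕ} {p : ℤ × List ℕ} :
    p ∈ part L T ↔ p ∈ L ∧ p.2.toFinset = T := by
  simp [part]

section
variable {A : Type} [AddCommGroup A]

lemma evw_powerset (L : List (ℤ × List ℕ)) (Φ : List ℕ → A) (T : Finset ℕ) :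
    evw (L.filter (fun p => p.2.toFinset ⊆ T)) Φ = ∑ S ∈ T.powerset, evw (part L S) Φ := by
  induction L with
  | nil => simp [part, evw_nil]
  | cons p L ih =>
    have e : ∀ S, evw (part (p :: L) S) Φ = (if p.2.toFinset = S then p.1 • Φ p.2 else 0) +
        evw (part L S) Φ := by
      intro S
      unfold part
      by_cases h : p.2.toFinset = S
      · rw [List.filter_cons_of_pos (by simpa using h), evw_cons, if_pos h]
      · rw [List.filter_cons_of_neg (by simpa using h), if_neg h, zero_add]
    simp only [e]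
    rw [Finset.sum_add_distrib, ← ih, Finset.sum_ite_eq]
    by_cases h : p.2.toFinset ⊆ T
    · rw [List.filter_cons_of_pos (by simpa using h), evw_cons,
        if_pos (Finset.mem_powerset.2 h)]
    · rw [List.filter_cons_of_neg (by simpa using h), if_neg (fun h2 => h (Finset.mem_powerset.1 h2)),
        zero_add]

/-- an assignment factoring through the free group of rank five on `T` -/
def FiveOn (T : Finset ℕ) (y : ℕ → FF) : Prop :=
  ∃ (φ : ℕ → FreeGroup (Fin 5)) (ψ : FreeGroup (Fin 5) →* FF), ∀ i ∈ T, y i = ψ (φ i)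

lemma FiveOn.mono {S T : Finset ℕ} (h : S ⊆ T) {y : ℕ → FF} (hy : FiveOn T y) : FiveOn S y := by
  obtain ⟨φ, ψ, hy⟩ := hy
  exact ⟨φ, ψ, fun i hi => hy i (h hi)⟩

lemma W_zero {n : ℕ} {v : FF} {L : List (ℤ × List ℕ)} (hL : Rp n v L) {f : FF → A}
    (hf : TopHom n f)
    (hv : ∀ (φ : FF →* FreeGroup (Fin 5)) (ψ : FreeGroup (Fin 5) →* FF), f (ψ (φ v)) = 0)
    (T : Finset ℕ) : ∀ y, FiveOn T y → evw (part L T) (fun w => f (cc (w.map y))) = 0 := by
  induction T using Finset.strongInduction with
  | H T ih =>
    intro y hy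
    have hy0 := hy
    obtain ⟨φ, ψ, hy⟩ := hy
    have h1 := hL.eval hf (fun i => if i ∈ T then y i else 1)
    have h2 : FreeGroup.lift (fun i => if i ∈ T then y i else 1) v =
        ψ (FreeGroup.lift (fun i => if i ∈ T then φ i else 1) v) := by
      have : FreeGroup.lift (fun i => if i ∈ T then y i else 1) =
          ψ.comp (FreeGroup.lift (fun i => if i ∈ T then φ i else 1)) := by
        apply FreeGroup.ext_hom
        intro i
        rw [FreeGroup.lift_apply_of, MonoidHom.comp_apply, FreeGroup.lift_apply_of]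
        by_cases hi : i ∈ T
        · rw [if_pos hi, if_pos hi, hy i hi]
        · rw [if_neg hi, if_neg hi, map_one]
      rw [this]; rfl
    rw [h2, hv] at h1
    have h3 : evw L (fun w => f (cc (w.map (fun i => if i ∈ T then y i else 1)))) =
        evw (L.filter (fun p => p.2.toFinset ⊆ T)) (fun w => f (cc (w.map y))) := by
      clear hL h1 ih
      induction L with
      | nil => rfl
      | cons p L ih =>
        rw [evw_cons, ih]
        by_cases h : p.2.toFinset ⊆ T
        · rw [List.filter_cons_of_pos (by simpa using h), evw_cons]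
          congr 3
          congr 1
          refine List.map_congr_left (fun i hi => ?_)
          rw [if_pos (h (List.mem_toFinset.2 hi))]
        · rw [List.filter_cons_of_neg (by simpa using h)]
          have : ∃ i ∈ p.2, i ∉ T := by
            by_contra hc
            push Not at hc
            exact h (fun i hi => hc i (List.mem_toFinset.1 hi))
          obtain ⟨i, hi, hiT⟩ := this
          rw [cc_eq_one_of_mem, hf.one, smul_zero, zero_add]
          exact List.mem_map.2 ⟨i, hi, if_neg hiT⟩
    rw [h3, evw_powerset, Finset.sum_eq_single T] at h1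
    · exact h1.symm
    · intro S hS hST
      have hs : S ⊂ T := (Finset.mem_powerset.1 hS).ssubset_of_ne hST
      exact ih S hs y (hy0.mono hs.subset)
    · intro h
      exact absurd (Finset.mem_powerset.2 (Finset.Subset.refl T)) h

lemma eval_zero {n : ℕ} {v : FF} {L : List (ℤ × List ℕ)} (hL : Rp n v L) {f : FF → A}
    (hf : TopHom n f)
    (h : ∀ T, evw (part L T) (fun w => f (cc (w.map FreeGroup.of))) = 0) : f v = 0 := by
  rw [hL.2 A f hf]
  have : ∃ T : Finset ℕ, ∀ p ∈ L, p.2.toFinset ⊆ T := by
    clear hL h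
    induction L with
    | nil => exact ⟨∅, by simp⟩
    | cons p L ih =>
      obtain ⟨T, hT⟩ := ih
      refine ⟨T ∪ p.2.toFinset, fun q hq => ?_⟩
      rcases List.mem_cons.1 hq with rfl | hq
      · exact Finset.subset_union_right
      · exact (hT q hq).trans Finset.subset_union_left
  obtain ⟨T, hT⟩ := this
  have h1 : L.filter (fun p => p.2.toFinset ⊆ T) = L :=
    List.filter_eq_self.2 (fun p hp => by simpa using hT p hp)
  rw [← h1, evw_powerset]
  exact Finset.sum_eq_zero (fun S _ => h S)

end

/-- Conversion of words without repetition to permutations. -/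
lemma list_to_perm {n : ℕ} (T : Finset ℕ) (hT : T.card = n) (L : List (ℤ × List ℕ))
    (hL : ∀ p ∈ L, p.2.length = n ∧ p.2.toFinset = T) :
    ∃ (c : Perm (Fin n) → ℤ) (t : Fin n → ℕ), Function.Injective t ∧ (∀ i ∈ T, ∃ k, t k = i) ∧
      (∀ k, t k ∈ T) ∧
      ∀ (A : Type) [AddCommGroup A] (Φ : List ℕ → A),
        evw L Φ = ∑ σ, c σ • Φ (List.ofFn (fun k => t (σ k))) := by
  classical
  let t : Fin n → ℕ := T.orderEmbOfFin hT
  have ht : Function.Injective t := (T.orderEmbOfFin hT).injective
  have htT : ∀ k, t k ∈ T := fun k => Finset.orderEmbOfFin_mem T hT k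
  have hTt : ∀ i ∈ T, ∃ k, t k = i := by
    intro i hi
    have : i ∈ Set.range (T.orderEmbOfFin hT) := by
      rw [Finset.range_orderEmbOfFin]; exact hi
    exact this
  have key : ∀ w : List ℕ, w.length = n → w.toFinset = T →
      ∃ σ : Perm (Fin n), w = List.ofFn (fun k => t (σ k)) := by
    intro w hw hwT
    have hnd : w.Nodup := by
      have h1 : w.dedup.length = w.length := by
        rw [← List.card_toFinset, hwT, hT, hw]
      have h2 := (List.dedup_sublist w).eq_of_length h1
      rw [← h2]
      exact List.nodup_dedup w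
    have h1 : ∀ k : Fin n, ∃ j, t j = w[(k : ℕ)]'(by rw [hw]; exact k.2) := by
      intro k
      apply hTt
      rw [← hwT, List.mem_toFinset]
      exact List.getElem_mem _
    choose s hs using h1
    have hinj : Function.Injective s := by
      intro i j hij
      have h2 := hs i
      rw [hij, hs j] at h2
      have := (List.Nodup.getElem_inj_iff hnd).1 h2
      exact Fin.ext this.symm
    refine ⟨Equiv.ofBijective s (Finite.injective_iff_bijective.1 hinj), ?_⟩
    apply List.ext_getElem
    · simp [hw]
    · intro i h1 h2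
      simp only [List.getElem_ofFn, Equiv.ofBijective_apply]
      rw [hs]
  have main : ∃ c : Perm (Fin n) → ℤ, ∀ (A : Type) [AddCommGroup A] (Φ : List ℕ → A),
        evw L Φ = ∑ σ, c σ • Φ (List.ofFn (fun k => t (σ k))) := by
    induction L with
    | nil => exact ⟨fun _ => 0, fun A _ Φ => by simp [evw_nil]⟩
    | cons p L ih =>
      obtain ⟨c, h⟩ := ih (fun q hq => hL q (List.mem_cons_of_mem _ hq))
      obtain ⟨h1, h2⟩ := hL p List.mem_cons_self
      obtain ⟨σ, hσ⟩ := key p.2 h1 h2
      refine ⟨fun τ => (if τ = σ then p.1 else 0) + c τ, fun A _ Φ => ?_⟩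
      rw [evw_cons, h A Φ]
      simp only [add_smul, Finset.sum_add_distrib, ite_smul, zero_smul, Finset.sum_ite_eq',
        Finset.mem_univ, if_true]
      rw [← hσ]
  obtain ⟨c, hc⟩ := main
  exact ⟨c, t, ht, hTt, htT, hc⟩

end Pool.Agent.Lib.MP_e8899b_al
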