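import Pool.Agent.Lib.MP_e8899b_al.Wlaw
import Pool.Agent.Lib.MP_e8899b_al.Defs

/-! Translation to varieties. -/

namespace Pool.Agent.Lib.MP_e8899b_al

open Equiv Variety
open scoped commutatorElement

lemma variety_eq {U V : Variety} (h : ∀ (G : Type) [Group G], U.Mem G ↔ V.Mem G) : U = V := by
  cases U with
  | mk M1 h1 =>
    cases V with
    | mk M2 h2 =>
      have : M1 = M2 := by
        funext G inst
        exact propext (h G)
      subst this
      rfl

/-- full invariance -/
def FI (M : Subgroup FF) : Prop := ∀ θ : FF →* FF, ∀ v ∈ M, θ v ∈ M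

lemma lift_hom {k : Type} (N : Subgroup (FreeGroup k)) [N.Normal] (φ : FF →* FreeGroup k ⧸ N) :
    ∃ θ : FF →* FreeGroup k, ∀ w, φ w = QuotientGroup.mk (θ w) := by
  choose s hs using fun i : ℕ => QuotientGroup.mk_surjective (φ (FreeGroup.of i))
  refine ⟨FreeGroup.lift s, fun w => ?_⟩
  have : φ = (QuotientGroup.mk' N).comp (FreeGroup.lift s) := by
    apply FreeGroup.ext_hom
    intro i
    rw [MonoidHom.comp_apply, FreeGroup.lift_apply_of]
    exact (hs i).symm
  rw [this]; rfl

lemma ofLaws_laws (M : Subgroup FF) [M.Normal] (hM : FI M) : (ofLaws (M : Set FF)).laws = M := by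
  ext w
  constructor
  · intro hw
    have h1 : (ofLaws (M : Set FF)).Mem (FF ⧸ M) := by
      intro v hv φ
      obtain ⟨θ, hθ⟩ := lift_hom M φ
      rw [hθ]
      exact (QuotientGroup.eq_one_iff _).2 (hM θ v hv)
    have h2 := hw (FF ⧸ M) h1 (QuotientGroup.mk' M)
    exact (QuotientGroup.eq_one_iff _).1 h2
  · intro hw G _ hG φ
    exact hG w hw φ

lemma ofLaws_verbal (M : Subgroup FF) [M.Normal] (hM : FI M) :
    (ofLaws (M : Set FF)).verbal FF = M := by
  unfold verbal
  rw [ofLaws_laws M hM]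
  apply le_antisymm
  · rw [Subgroup.closure_le]
    rintro x ⟨w, hw, φ, rfl⟩
    exact hM φ w hw
  · intro w hw
    exact Subgroup.subset_closure ⟨w, hw, MonoidHom.id _, rfl⟩

lemma mem_free (V : Variety) (k : ℕ) : V.Mem (V.free k) := by
  obtain ⟨L, hL⟩ := V.exists_laws
  rw [hL]
  intro w hw φ
  obtain ⟨θ, hθ⟩ := lift_hom _ φ
  rw [hθ]
  refine (QuotientGroup.eq_one_iff _).2 (Subgroup.subset_closure ⟨w, ?_, θ, rfl⟩)
  intro G _ hG ψ
  exact (hL G).1 hG w hw ψ

lemma verbal_map (V : Variety) {G H : Type} [Group G] [Group H] (ψ : G →* H) {g : G}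
    (hg : g ∈ V.verbal G) : ψ g ∈ V.verbal H := by
  have h : (V.verbal G).map ψ ≤ V.verbal H := by
    unfold verbal
    rw [MonoidHom.map_closure, Subgroup.closure_le]
    rintro x ⟨y, ⟨w, hw, φ, rfl⟩, rfl⟩
    exact Subgroup.subset_closure ⟨w, hw, ψ.comp φ, rfl⟩
  exact h (Subgroup.mem_map_of_mem _ hg)

lemma law_free (M : Subgroup FF) [M.Normal] (hM : FI M) (k : ℕ) (w : FF) :
    (∀ φ : FF →* (ofLaws (M : Set FF)).free k, φ w = 1) ↔
      ∀ (φ : FF →* FreeGroup (Fin k)) (ψ : FreeGroup (Fin k) →* FF), ψ (φ w) ∈ M := by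
  constructor
  · intro h φ ψ
    have h1 := h ((QuotientGroup.mk' _).comp φ)
    have h2 : φ w ∈ (ofLaws (M : Set FF)).verbal (FreeGroup (Fin k)) :=
      (QuotientGroup.eq_one_iff _).1 h1
    have h3 := verbal_map _ ψ h2
    rwa [ofLaws_verbal M hM] at h3
  · intro h φ
    obtain ⟨θ, hθ⟩ := lift_hom _ φ
    rw [hθ]
    refine (QuotientGroup.eq_one_iff _).2 ?_
    let ι : FreeGroup (Fin k) →* FF := FreeGroup.lift (fun i => FreeGroup.of (i : ℕ))
    let ρ : FF →* FreeGroup (Fin k) :=
      FreeGroup.lift (fun n => if h : n < k then FreeGroup.of ⟨n, h⟩ else 1)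
    have hρ : ∀ x, ρ (ι x) = x := by
      intro x
      have : ρ.comp ι = MonoidHom.id _ := by
        apply FreeGroup.ext_hom
        intro i
        simp [ρ, ι]
      exact congrArg (fun f : FreeGroup (Fin k) →* FreeGroup (Fin k) => f x) this
    rw [← hρ (θ w)]
    refine Subgroup.subset_closure ⟨ι (θ w), ?_, ρ, rfl⟩
    rw [ofLaws_laws M hM]
    exact h θ ι

lemma gen_mem (G H : Type) [Group G] [Group H] : (gen G).Mem H ↔
    ∀ w : FF, (∀ φ : FF →* G, φ w = 1) → ∀ φ : FF →* H, φ w = 1 := by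
  constructor
  · intro h w hw
    exact h (ofLaws {w | ∀ φ : FF →* G, φ w = 1}) (fun w hw φ => hw φ) w hw
  · intro h V hV
    obtain ⟨L, hL⟩ := V.exists_laws
    rw [hL] at hV ⊢
    exact fun w hw φ => h w (fun ψ => hV w hw ψ) φ

lemma gen_laws (G : Type) [Group G] (w : FF) :
    w ∈ (gen G).laws ↔ ∀ φ : FF →* G, φ w = 1 := by
  constructor
  · intro h φ
    exact h G (fun V hV => hV) φ
  · intro h H _ hH φ
    exact (gen_mem G H).1 hH w h φ

lemma triv_verbal : triv.verbal FF = ⊤ := by
  rw [eq_top_iff]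
  intro w _
  refine Subgroup.subset_closure ⟨w, ?_, MonoidHom.id _, rfl⟩
  intro G _ hG φ
  exact @Subsingleton.elim _ hG _ _

lemma Nn_FI : FI Nn := fun θ _ hv => Nn_map hv θ

lemma Kk_FI : FI Kk := by
  intro θ v hv
  have : Kk.map θ ≤ Kk := by
    unfold Kk
    rw [Subgroup.map_commutator]
    exact Subgroup.commutator_mono (by rintro _ ⟨x, hx, rfl⟩; exact Nn_map hx θ) le_top
  exact this (Subgroup.mem_map_of_mem _ hv)

/-- The verbal subgroup of the commutator variety in the free group of countable rank is the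
commutator subgroup of the verbal subgroups, as it should be. -/
theorem comm_verbal (U V : Variety) :
    (Variety.comm U V).verbal FF = ⁅U.verbal FF, V.verbal FF⁆ := by
  refine ofLaws_verbal _ ?_
  intro θ v hv
  have : (⁅U.verbal FF, V.verbal FF⁆ : Subgroup FF).map θ ≤ ⁅U.verbal FF, V.verbal FF⁆ := by
    rw [Subgroup.map_commutator]
    exact Subgroup.commutator_mono (by rintro _ ⟨x, hx, rfl⟩; exact verbal_map U θ hx)
      (by rintro _ ⟨x, hx, rfl⟩; exact verbal_map V θ hx)
  exact this (Subgroup.mem_map_of_mem _ hv)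

/-- the variety -/
def UU : Variety := ofLaws (Nn : Set FF)

lemma UU_verbal : UU.verbal FF = Nn := ofLaws_verbal Nn Nn_FI

lemma comm_UU : Variety.comm UU triv = ofLaws (Kk : Set FF) := by
  unfold Variety.comm
  rw [UU_verbal, triv_verbal]; rfl

theorem part1 : Variety.comm UU triv = gen ((Variety.comm UU triv).free 5) := by
  rw [comm_UU]
  apply variety_eq
  intro H _
  rw [gen_mem]
  constructor
  · intro h w hw φ
    rw [law_free Kk Kk_FI] at hw
    exact h w (law5_Kk hw) φ
  · intro h w hw φ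
    refine h w ?_ φ
    rw [law_free Kk Kk_FI]
    intro φ ψ
    exact Kk_FI (ψ.comp φ) w hw

theorem part2 : Variety.comm UU triv = Variety.comm (gen (UU.free 5)) triv := by
  rw [comm_UU]
  unfold Variety.comm
  rw [triv_verbal]
  congr 2
  apply le_antisymm
  · unfold Kk
    refine Subgroup.commutator_mono ?_ le_rfl
    intro v hv
    refine Subgroup.subset_closure ⟨v, ?_, MonoidHom.id _, rfl⟩
    rw [gen_laws]
    unfold UU
    rw [law_free Nn Nn_FI]
    intro φ ψ
    exact Nn_FI (ψ.comp φ) v hv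
  · rw [Subgroup.commutator_le]
    intro v hv g _
    have hv' : ∀ (φ : FF →* FreeGroup (Fin 5)) (ψ : FreeGroup (Fin 5) →* FF), ψ (φ v) ∈ Nn := by
      change v ∈ Subgroup.closure {g | ∃ w ∈ (gen (UU.free 5)).laws, ∃ φ : FF →* FF, φ w = g} at hv
      induction hv using Subgroup.closure_induction with
      | mem x hx =>
        obtain ⟨w, hw, χ, rfl⟩ := hx
        rw [gen_laws] at hw
        unfold UU at hw
        rw [law_free Nn Nn_FI] at hw
        intro φ ψ
        exact hw (φ.comp χ) ψ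
      | one => intro φ ψ; rw [map_one, map_one]; exact one_mem _
      | mul x y _ _ h1 h2 => intro φ ψ; rw [map_mul, map_mul]; exact mul_mem (h1 φ ψ) (h2 φ ψ)
      | inv x _ h1 => intro φ ψ; rw [map_inv, map_inv]; exact inv_mem (h1 φ ψ)
    apply law5_Kk
    intro φ ψ
    rw [map_commutatorElement, map_commutatorElement]
    exact Subgroup.commutator_mem_commutator (hv' φ ψ) (Subgroup.mem_top _)

theorem part3 : UU ≠ gen (UU.free 5) := by
  intro h
  have h1 : UU.Mem (FF ⧸ Nn) := by
    intro v hv φ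
    obtain ⟨θ, hθ⟩ := lift_hom Nn φ
    rw [hθ]
    exact (QuotientGroup.eq_one_iff _).2 (Nn_FI θ v hv)
  rw [h, gen_mem] at h1
  have h2 : ∀ φ : FF →* UU.free 5, φ w0 = 1 := by
    unfold UU
    rw [law_free Nn Nn_FI]
    exact w0_law
  have h3 := h1 w0 h2 (QuotientGroup.mk' Nn)
  exact w0_not ((QuotientGroup.eq_one_iff _).1 h3)

lemma rn_ucs {G : Type} [Group G] (n : ℕ) : ∀ x : G,
    (∀ o : List G, o.length = n → rn o x = 1) → x ∈ Subgroup.upperCentralSeries G n := by
  induction n with
  | zero =>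
    intro x h
    have := h [] rfl
    rw [rn_nil] at this
    rw [this]; exact one_mem _
  | succ n ih =>
    intro x h
    rw [Subgroup.mem_upperCentralSeries_succ_iff]
    intro y
    have h1 : ⁅y, x⁆ ∈ Subgroup.upperCentralSeries G n := by
      apply ih
      intro o ho
      have := h (o ++ [y]) (by simp [ho])
      rwa [rn_append] at this
    rw [← commutatorElement_inv]
    exact inv_mem h1

theorem part0 (G : Type) [Group G] (hG : UU.Mem G) :
    Group.IsNilpotent G ∧ Group.nilpotencyClass G ≤ 6 := by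
  have hcc : ∀ l : List G, l.length = 7 → cc l = 1 := by
    intro l hl
    have h1 : cc ((List.range 7).map (FreeGroup.of : ℕ → FF)) ∈ Nn :=
      gam7_le (cc_mem ((List.range 7).map (FreeGroup.of : ℕ → FF)))
    have h2 := hG _ h1 (FreeGroup.lift (fun n => l.getD n 1))
    rw [cc_map, List.map_map] at h2
    rw [← h2]
    congr 1
    apply List.ext_getElem
    · simp [hl]
    · intro i hi1 hi2
      simp [List.getElem?_eq_getElem hi1]
  have h6 : Subgroup.upperCentralSeries G 6 = ⊤ := by
    rw [eq_top_iff]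
    intro x _
    apply rn_ucs
    intro o ho
    rw [← cc_append_singleton]
    exact hcc _ (by simp [ho])
  have hn : Group.IsNilpotent G := ⟨⟨6, h6⟩⟩
  exact ⟨hn, Subgroup.upperCentralSeries_eq_top_iff_nilpotencyClass_le.1 h6⟩

end Pool.Agent.Lib.MP_e8899b_al
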