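import Pool.Agent.Lib.MP_e8899b_al.Law5

/-! A law of the free group of rank five which does not belong to `Nn`. -/

namespace Pool.Agent.Lib.MP_e8899b_al

open Equiv
open scoped commutatorElement

/-- combination of four values of the coefficient function -/
def DN : List ℕ → ℕ
  | [a, b, c, d, e, f] => Nat.add (Nat.add (CfN [a, b, c, d, e, f]) (Nat.mul 2 (CfN [b, a, c, d, e, f])))
      (Nat.add (Nat.mul 2 (CfN [d, e, f, a, b, c])) (CfN [e, d, f, a, b, c]))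
  | _ => 0

lemma D_check : (List.permutations' [0, 1, 2, 3, 4, 5]).all (fun s =>
    Nat.beq (Nat.mod (DN s) 3) (Nat.mod (Nat.mul (sgN s) 2) 3)) = true := by
  decide +kernel

/-- the word -/
def w0 : FF :=
  ⁅⁅FreeGroup.of 0, FreeGroup.of 1⁆, cc [FreeGroup.of 2, FreeGroup.of 3, FreeGroup.of 4, FreeGroup.of 5]⁆ *
  ⁅⁅FreeGroup.of 3, FreeGroup.of 4⁆, cc [FreeGroup.of 5, FreeGroup.of 0, FreeGroup.of 1, FreeGroup.of 2]⁆⁻¹

lemma mem2 (a b : FF) : ⁅a, b⁆ ∈ gam FF 2 := comm_mem_one a (n := 1) (Subgroup.mem_top _)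

lemma mem6' (a b c d e f : FF) : ⁅⁅a, b⁆, cc [c, d, e, f]⁆ ∈ gam FF 6 := by
  have h1 : cc [c, d, e, f] ∈ gam FF 4 := cc_mem [c, d, e, f]
  exact comm_mem (m := 2) (n := 4) (mem2 a b) h1

lemma w0_mem : w0 ∈ gam FF 6 := mul_mem (mem6' _ _ _ _ _ _) (inv_mem (mem6' _ _ _ _ _ _))

lemma Lam_br (a b c d e f : FF) : Lam ⁅⁅a, b⁆, cc [c, d, e, f]⁆ =
    Lam (cc [a, b, c, d, e, f]) - Lam (cc [b, a, c, d, e, f]) := by
  have h1 : cc [c, d, e, f] ∈ gam FF 4 := cc_mem [c, d, e, f]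
  exact Lam_topHom.jacobi (i := 1) (j := 1) (k := 4) (by norm_num) (x := a) (y := b)
    (Subgroup.mem_top _) (Subgroup.mem_top _) h1

lemma Lam_perm (y : Fin 6 → FF) (ω : Perm (Fin 6)) : Lam (cc (List.ofFn (fun k => y (ω k)))) =
    ∑ l : Perm (Fin 6), CC (l * ω) * ∏ m, eps (l m) (y m) := by
  rw [Lam_cc, ← Equiv.sum_comp (Equiv.mulRight ω)]
  refine Finset.sum_congr rfl (fun l _ => ?_)
  rw [Equiv.coe_mulRight]
  exact congrArg (CC (l * ω) * ·) (Equiv.prod_comp ω (fun m => eps (l m) (y m)))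

/-- the matrix of exponent sums -/
def Me (y : Fin 6 → FF) : Matrix (Fin 6) (Fin 6) (ZMod 3) := fun i m => eps i (y m)

lemma sgz_sign6 (σ : Perm (Fin 6)) : sgz (lw σ) = ((Perm.sign σ : ℤ) : ZMod 3) := by
  induction σ using Equiv.Perm.swap_induction_on with
  | one =>
    have : ((Perm.sign (1 : Perm (Fin 6)) : ℤ) : ZMod 3) = 1 := by simp
    rw [this]; decide
  | swap_mul f x y hxy ih =>
    rw [sgz_lw_mul, Perm.sign_mul, ih, Perm.sign_swap hxy]
    have : sgz (lw (swap x y)) = -1 := by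
      revert x y
      decide
    rw [this]; push_cast; ring

lemma Lam_w (y : Fin 6 → FF) :
    Lam ⁅⁅y 0, y 1⁆, cc [y 2, y 3, y 4, y 5]⁆ - Lam ⁅⁅y 3, y 4⁆, cc [y 5, y 0, y 1, y 2]⁆ =
      2 * (Me y).det := by
  rw [Lam_br, Lam_br]
  set ω1 : Perm (Fin 6) := swap 0 1 with hω1
  set ω2 : Perm (Fin 6) := swap 0 3 * (swap 1 4 * swap 2 5) with hω2
  set ω3 : Perm (Fin 6) := swap 0 3 * (swap 1 4 * swap 2 5) * swap 0 1 with hω3
  have v1 : ∀ k, ω1 k = (![1, 0, 2, 3, 4, 5] : Fin 6 → Fin 6) k := by rw [hω1]; decide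
  have v2 : ∀ k, ω2 k = (![3, 4, 5, 0, 1, 2] : Fin 6 → Fin 6) k := by rw [hω2]; decide
  have v3 : ∀ k, ω3 k = (![4, 3, 5, 0, 1, 2] : Fin 6 → Fin 6) k := by rw [hω3]; decide
  have e0 : cc [y 0, y 1, y 2, y 3, y 4, y 5] =
      cc (List.ofFn (fun k => y ((1 : Perm (Fin 6)) k))) := by
    simp [List.ofFn_succ]
  have e1 : cc [y 1, y 0, y 2, y 3, y 4, y 5] = cc (List.ofFn (fun k => y (ω1 k))) := by
    simp only [v1]; simp [List.ofFn_succ]
  have e2 : cc [y 3, y 4, y 5, y 0, y 1, y 2] = cc (List.ofFn (fun k => y (ω2 k))) := by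
    simp only [v2]; simp [List.ofFn_succ]
  have e3 : cc [y 4, y 3, y 5, y 0, y 1, y 2] = cc (List.ofFn (fun k => y (ω3 k))) := by
    simp only [v3]; simp [List.ofFn_succ]
  rw [e0, e1, e2, e3, Lam_perm, Lam_perm, Lam_perm, Lam_perm, Matrix.det_apply, Finset.mul_sum,
    ← Finset.sum_sub_distrib, ← Finset.sum_sub_distrib, ← Finset.sum_sub_distrib]
  refine Finset.sum_congr rfl (fun l _ => ?_)
  have key : CC (l * 1) - CC (l * ω1) - (CC (l * ω2) - CC (l * ω3)) =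
      2 * ((Perm.sign l : ℤ) : ZMod 3) := by
    have hc := D_check
    rw [List.all_eq_true] at hc
    have h1 := Nat.eq_of_beq_eq_true (hc (lw l) (mem_perm6 (lw_perm l)))
    have h2 : ((DN (lw l) : ℕ) : ZMod 3) = ((sgN (lw l) * 2 : ℕ) : ZMod 3) := by
      rw [ZMod.natCast_eq_natCast_iff]; exact h1
    have f1 : lw (l * 1) = [(l 0 : ℕ), l 1, l 2, l 3, l 4, l 5] := by rw [mul_one, lw6_last]
    have f2 : lw (l * ω1) = [(l 1 : ℕ), l 0, l 2, l 3, l 4, l 5] := by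
      rw [lw6_last]; simp only [Perm.mul_apply, v1]; rfl
    have f3 : lw (l * ω2) = [(l 3 : ℕ), l 4, l 5, l 0, l 1, l 2] := by
      rw [lw6_last]; simp only [Perm.mul_apply, v2]; rfl
    have f4 : lw (l * ω3) = [(l 4 : ℕ), l 3, l 5, l 0, l 1, l 2] := by
      rw [lw6_last]; simp only [Perm.mul_apply, v3]; rfl
    unfold CC
    rw [f1, f2, f3, f4]
    rw [Nat.cast_mul, sgN_cast, sgz_sign6, lw6_last] at h2
    have h3 : ((DN [(l 0 : ℕ), l 1, l 2, l 3, l 4, l 5] : ℕ) : ZMod 3) =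
        ((CfN [(l 0 : ℕ), l 1, l 2, l 3, l 4, l 5] : ℕ) : ZMod 3) +
        2 * ((CfN [(l 1 : ℕ), l 0, l 2, l 3, l 4, l 5] : ℕ) : ZMod 3) +
        (2 * ((CfN [(l 3 : ℕ), l 4, l 5, l 0, l 1, l 2] : ℕ) : ZMod 3) +
        ((CfN [(l 4 : ℕ), l 3, l 5, l 0, l 1, l 2] : ℕ) : ZMod 3)) := by
      show (((CfN [(l 0 : ℕ), l 1, l 2, l 3, l 4, l 5] +
        2 * (CfN [(l 1 : ℕ), l 0, l 2, l 3, l 4, l 5])) +
        (2 * (CfN [(l 3 : ℕ), l 4, l 5, l 0, l 1, l 2]) +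
        CfN [(l 4 : ℕ), l 3, l 5, l 0, l 1, l 2]) : ℕ) : ZMod 3) = _
      push_cast; ring
    rw [h3] at h2
    have h4 := three_zero
    push_cast at h2
    linear_combination h2 - (((CfN [(l 1 : ℕ), l 0, l 2, l 3, l 4, l 5] : ℕ) : ZMod 3) +
      ((CfN [(l 3 : ℕ), l 4, l 5, l 0, l 1, l 2] : ℕ) : ZMod 3)) * h4
  rw [Units.smul_def, zsmul_eq_mul]
  have hM : ∏ i, Me y (l i) i = ∏ m, eps (l m) (y m) := rfl
  rw [hM]
  linear_combination (∏ m, eps (l m) (y m)) * key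

/-- exponent sums in the free group of rank five -/
def ep5 (k : Fin 5) : FreeGroup (Fin 5) →* Multiplicative (ZMod 3) :=
  FreeGroup.lift (fun i => Multiplicative.ofAdd (if i = k then 1 else 0))

lemma eps_factor (χ : FreeGroup (Fin 5) →* FF) (i : ℕ) (h : FreeGroup (Fin 5)) :
    eps i (χ h) = ∑ k, eps i (χ (FreeGroup.of k)) * (ep5 k h).toAdd := by
  induction h using FreeGroup.induction_on with
  | C1 => simp [eps_one]
  | of j => simp [ep5]
  | inv_of j hj =>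
    rw [map_inv, eps_inv, hj, ← Finset.sum_neg_distrib]
    refine Finset.sum_congr rfl (fun k _ => ?_)
    rw [map_inv, toAdd_inv]; ring
  | mul x y hx hy =>
    rw [map_mul, eps_mul, hx, hy, ← Finset.sum_add_distrib]
    refine Finset.sum_congr rfl (fun k _ => ?_)
    rw [map_mul, toAdd_mul]; ring

lemma det_zero (χ : FreeGroup (Fin 5) →* FF) (x : Fin 6 → FreeGroup (Fin 5)) :
    (Me (fun m => χ (x m))).det = 0 := by
  set A : Matrix (Fin 6) (Fin 5) (ZMod 3) := fun i k => eps i (χ (FreeGroup.of k)) with hA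
  set B : Matrix (Fin 5) (Fin 6) (ZMod 3) := fun k m => (ep5 k (x m)).toAdd with hB
  have h1 : Me (fun m => χ (x m)) = A * B := by
    ext i m
    rw [Matrix.mul_apply]
    exact eps_factor χ i (x m)
  by_contra hne
  have h2 : IsUnit (Me (fun m => χ (x m))) := by
    rw [Matrix.isUnit_iff_isUnit_det]
    exact isUnit_iff_ne_zero.2 hne
  have h3 := Matrix.rank_of_isUnit _ h2
  rw [h1] at h3
  have h4 := Matrix.rank_mul_le_left A B
  have h5 := Matrix.rank_le_card_width A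
  simp only [Fintype.card_fin] at h3 h5
  omega

lemma Lam_theta (θ : FF →* FF) : Lam (θ w0) = 2 * (Me (fun m : Fin 6 => θ (FreeGroup.of (m : ℕ)))).det := by
  rw [← Lam_w]
  have hb : ∀ a b c d e f : FF, θ ⁅⁅a, b⁆, cc [c, d, e, f]⁆ =
      ⁅⁅θ a, θ b⁆, cc [θ c, θ d, θ e, θ f]⁆ := by
    intro a b c d e f
    rw [map_commutatorElement, map_commutatorElement, cc_map]; rfl
  unfold w0
  rw [map_mul, map_inv, hb, hb, Lam_topHom.add _ (mem6' _ _ _ _ _ _) _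
    (inv_mem (mem6' _ _ _ _ _ _)), Lam_topHom.inv (mem6' _ _ _ _ _ _), ← sub_eq_add_neg]
  rfl

/-- `w0` is a law of the free group of rank five. -/
theorem w0_law (φ : FF →* FreeGroup (Fin 5)) (ψ : FreeGroup (Fin 5) →* FF) : ψ (φ w0) ∈ Nn := by
  refine ⟨gam_map ψ 6 (gam_map φ 6 w0_mem), fun θ => ?_⟩
  have h1 := Lam_theta ((θ.comp ψ).comp φ)
  have h2 := det_zero (θ.comp ψ) (fun m : Fin 6 => φ (FreeGroup.of (m : ℕ)))
  have h3 : Lam (θ (ψ (φ w0))) = 2 * 0 := by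
    rw [← h2]; exact h1
  rw [h3, mul_zero]

/-- `w0` is not in `Nn`. -/
theorem w0_not : w0 ∉ Nn := by
  intro h
  have h1 := h.2 (MonoidHom.id FF)
  rw [Lam_theta] at h1
  have h2 : Me (fun m : Fin 6 => MonoidHom.id FF (FreeGroup.of (m : ℕ))) = 1 := by
    ext i m
    show eps i (FreeGroup.of (m : ℕ)) = _
    rw [eps_of, Matrix.one_apply]
    by_cases h : i = m
    · subst h; simp
    · rw [if_neg h, if_neg]
      intro hc; exact h (Fin.ext hc).symm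
  rw [h2, Matrix.det_one] at h1
  exact absurd h1 (by decide)

end Pool.Agent.Lib.MP_e8899b_al
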